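import Mathlib.Algebra.Field.Defs
import Mathlib.ModelTheory.Algebra.Ring.Basic

/-!
`NIP_n` for pure fields, as in the frozen statement.
-/

namespace Pool.Agent.MP_829a8f_lc

/-- The pure field `K` is `NIP_n`: for every ring formula `φ(x; y_1, ..., y_n)` in tuples of length
`m` there is `N` such that no tuples `a_{k,i}` (`k < n`, `i < N`) and `b_s` (`s ⊆ N^n`) in `K`
satisfy `φ(b_s; a_{1,j_1}, ..., a_{n,j_n}) ↔ j ∈ s` for all `s` and `j`. -/
def NIPn (n : ℕ) (K : Type) [Field K] : Prop :=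
  ∀ [FirstOrder.Ring.CompatibleRing K],
    ∀ (m : ℕ) (φ : FirstOrder.Language.Formula FirstOrder.Language.ring (Fin (n + 1) × Fin m)),
      ∃ N : ℕ, ¬ ∃ (a : Fin n → Fin N → Fin m → K) (b : Set (Fin n → Fin N) → Fin m → K),
        ∀ (s : Set (Fin n → Fin N)) (j : Fin n → Fin N),
          (φ.Realize (fun p =>
              (Fin.cons (α := fun _ => Fin m → K) (b s) (fun i => a i (j i))) p.1 p.2)
            ↔ j ∈ s)

end Pool.Agent.MP_829a8f_lc
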