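import Mathlib.LinearAlgebra.FreeModule.PID
import Mathlib.Algebra.Algebra.IsSimpleRing
import Mathlib.Topology.Sheaves.Presheaf
import Mathlib.RingTheory.Flat.TorsionFree
import Mathlib.Tactic.Bound
import Mathlib.RingTheory.Valuation.ValuationSubring
import Mathlib.RingTheory.Norm.Transitivity
import Mathlib.Combinatorics.SimpleGraph.Basic
import Mathlib.ModelTheory.Algebra.Ring.FreeCommRing
import Mathlib.RingTheory.PiTensorProduct
import Mathlib.RingTheory.SimpleRing.Principal
import Mathlib.RingTheory.Henselian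
import Mathlib.RingTheory.RegularLocalRing.Defs
import Mathlib.Tactic.Polynomial.Basic
import Pool.Agent.MP_829a8f_lc.Defs

-- ======== part 0: formerly Pool.Agent.MP_829a8f_lc.Core
section MrgPart0

/-!
Products of norm groups give the `n`-independence property.
-/

namespace Pool.Agent.MP_829a8f_lc

open Finset Polynomial FirstOrder FirstOrder.Language FirstOrder.Ring

variable {K : Type} [Field K] {D : ℕ}

/-- Determinants of the polynomials in the matrix `y`. -/
def Nm (y : Matrix (Fin D) (Fin D) K) : Submonoid K where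
  carrier := {x | ∃ g : K[X], x = (aeval y g).det}
  one_mem' := ⟨1, by simp⟩
  mul_mem' := by
    rintro _ _ ⟨g, rfl⟩ ⟨h, rfl⟩
    exact ⟨g * h, by simp⟩

lemma mem_Nm_iff [NeZero D] (y : Matrix (Fin D) (Fin D) K) (x : K) :
    x ∈ Nm y ↔ ∃ c : Fin D → K, x = (∑ i, c i • y ^ (i : ℕ)).det := by
  constructor
  · rintro ⟨g, rfl⟩
    refine ⟨fun i => (g %ₘ y.charpoly).coeff i, ?_⟩
    have hD : 0 < D := Nat.pos_of_ne_zero (NeZero.ne D)
    have hdeg : (g %ₘ y.charpoly).natDegree < D := by
      have h1 : y.charpoly.natDegree = D := by simp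
      have h2 : y.charpoly ≠ 1 := fun h => by rw [h] at h1; simp at h1; omega
      have := natDegree_modByMonic_lt g y.charpoly_monic h2
      omega
    rw [Matrix.aeval_eq_aeval_mod_charpoly, aeval_eq_sum_range' hdeg, Finset.sum_range]
  · rintro ⟨c, rfl⟩
    exact ⟨∑ i, C (c i) * X ^ (i : ℕ), by simp [Algebra.smul_def]⟩

/-- Products of one element of each `Nm (y k)`. -/
def PNm {n : ℕ} (y : Fin n → Matrix (Fin D) (Fin D) K) : Submonoid K where
  carrier := {x | ∃ z : Fin n → K, (∀ k, z k ∈ Nm (y k)) ∧ x = ∏ k, z k}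
  one_mem' := ⟨1, fun _ => one_mem _, by simp⟩
  mul_mem' := by
    rintro _ _ ⟨z, hz, rfl⟩ ⟨w, hw, rfl⟩
    exact ⟨z * w, fun k => mul_mem (hz k) (hw k), by simp [prod_mul_distrib]⟩

lemma mem_PNm {n : ℕ} {y : Fin n → Matrix (Fin D) (Fin D) K} {x : K} (k : Fin n)
    (hx : x ∈ Nm (y k)) : x ∈ PNm y := by
  refine ⟨Pi.mulSingle k x, fun l => ?_, by simp⟩
  by_cases h : l = k
  · subst h
    simpa using hx
  · rw [Pi.mulSingle_eq_of_ne h]
    exact one_mem _

/-- The ring of integer polynomials in the free and the bound variables. -/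
abbrev FR (n D : ℕ) := FreeCommRing ((Fin (n + 1) × Fin (D * D)) ⊕ (Fin n × Fin D))

/-- The formula `x ∈ Nm (y 1) ⋯ Nm (y n)`. -/
noncomputable def phi (n D : ℕ) [NeZero D] : Language.ring.Formula (Fin (n + 1) × Fin (D * D)) :=
  (Term.equal (termOfFreeCommRing (FreeCommRing.of (Sum.inl (0, finProdFinEquiv (0, 0)))))
    (termOfFreeCommRing (∏ k : Fin n, (∑ i : Fin D, (FreeCommRing.of (Sum.inr (k, i)) : FR n D) •
      (Matrix.of fun r c : Fin D =>
        (FreeCommRing.of (Sum.inl (k.succ, finProdFinEquiv (r, c))) : FR n D)) ^ (i : ℕ)).det))).iExs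
    (Fin n × Fin D)

lemma realize_phi (n D : ℕ) [NeZero D] [CompatibleRing K] (v : Fin (n + 1) × Fin (D * D) → K) :
    (phi n D).Realize v ↔ v (0, finProdFinEquiv (0, 0)) ∈
      PNm (fun k : Fin n => Matrix.of fun r c : Fin D => v (k.succ, finProdFinEquiv (r, c))) := by
  rw [phi, Formula.realize_iExs]
  simp only [Formula.realize_equal, realize_termOfFreeCommRing, FreeCommRing.lift_of, Sum.elim_inl,
    map_prod, RingHom.map_det]
  have key : ∀ (w : Fin n × Fin D → K) (k : Fin n),
      (FreeCommRing.lift (fun a => Sum.elim v w a)).mapMatrix (∑ i : Fin D,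
        (FreeCommRing.of (Sum.inr (k, i)) : FR n D) • (Matrix.of fun r c : Fin D =>
          (FreeCommRing.of (Sum.inl (k.succ, finProdFinEquiv (r, c))) : FR n D)) ^ (i : ℕ)) =
      ∑ i : Fin D, w (k, i) •
        (Matrix.of fun r c : Fin D => v (k.succ, finProdFinEquiv (r, c))) ^ (i : ℕ) := by
    intro w k
    rw [map_sum]
    refine Finset.sum_congr rfl fun i _ => ?_
    rw [Matrix.smul_eq_diagonal_mul, Matrix.smul_eq_diagonal_mul, map_mul, map_pow]
    congr 1
    · ext r c
      by_cases h : r = c <;> simp [h]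
    · congr 1
      ext r c
      simp
  simp only [key]
  constructor
  · rintro ⟨w, hw⟩
    exact ⟨_, fun k => (mem_Nm_iff _ _).2 ⟨fun i => w (k, i), rfl⟩, hw⟩
  · rintro ⟨z, hz, hx⟩
    choose c hc using fun k => (mem_Nm_iff _ _).1 (hz k)
    exact ⟨fun p => c p.1 p.2, by rw [hx]; exact prod_congr rfl fun k _ => hc k⟩

/-- The combinatorial pattern. -/
theorem not_nipn_of_pattern (n D : ℕ) [NeZero D]
    (h : ∀ N, ∃ (y : Fin n → Fin N → Matrix (Fin D) (Fin D) K) (d : (Fin n → Fin N) → Kˣ)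
      (H : (Fin n → Fin N) → Subgroup Kˣ), (∀ j k t, t ≠ j k → (d j : K) ∈ Nm (y k t)) ∧
      (∀ j k (u : Kˣ), (u : K) ∈ Nm (y k (j k)) → u ∈ H j) ∧ ∀ j, d j ∉ H j) :
    ¬ NIPn n K := by
  classical
  intro hN
  let _ := compatibleRingOfRing K
  obtain ⟨N, hN⟩ := hN (D * D) (phi n D)
  obtain ⟨y, d, H, h1, h2, h3⟩ := h N
  refine hN ⟨fun k t c => y k t (finProdFinEquiv.symm c).1 (finProdFinEquiv.symm c).2,
    fun s _ => ((∏ j ∈ univ.filter (· ∉ s), d j : Kˣ) : K), fun s j => ?_⟩
  rw [realize_phi]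
  simp only [Fin.cons_zero, Fin.cons_succ, Equiv.symm_apply_apply]
  change ((∏ j ∈ univ.filter (· ∉ s), d j : Kˣ) : K) ∈ PNm (fun k => y k (j k)) ↔ j ∈ s
  have hne : ∀ j', j' ≠ j → ∃ k, (d j' : K) ∈ Nm (y k (j k)) := by
    intro j' hj'
    obtain ⟨k, hk⟩ := Function.ne_iff.1 hj'
    exact ⟨k, h1 j' k _ hk.symm⟩
  constructor
  · rintro ⟨z, hz, hx⟩
    by_contra hj
    have hz0 : ∀ k, z k ≠ 0 := by
      intro k
      have := Units.ne_zero (∏ j ∈ univ.filter (· ∉ s), d j)
      rw [hx] at this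
      exact prod_ne_zero_iff.1 this k (mem_univ k)
    have hH : ∏ j ∈ univ.filter (· ∉ s), d j ∈ H j := by
      have : ∏ j ∈ univ.filter (· ∉ s), d j = ∏ k, Units.mk0 (z k) (hz0 k) := by
        ext
        rw [hx]
        simp
      rw [this]
      exact prod_mem fun k _ => h2 j k _ (hz k)
    rw [← mul_prod_erase _ _ (mem_filter.2 ⟨mem_univ j, hj⟩)] at hH
    refine h3 j ((H j).mul_mem_cancel_right (prod_mem fun j' hj' => ?_) |>.1 hH)
    obtain ⟨k, hk⟩ := hne j' (ne_of_mem_erase hj')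
    exact h2 j k _ hk
  · intro hj
    rw [Units.coe_prod]
    refine prod_mem fun j' hj' => ?_
    obtain ⟨k, hk⟩ := hne j' (fun h => (mem_filter.1 hj').2 (h ▸ hj))
    exact mem_PNm k hk

/-- The matrix `1 + s ⨂ Y b`. -/
def tens {R B : Type} [CommRing R] [Fintype B] [DecidableEq B]
    (Y : B → Matrix (Fin D) (Fin D) R) (s : R) : Matrix (B → Fin D) (B → Fin D) R :=
  fun i j => (if i = j then 1 else 0) + s * ∏ b, Y b (i b) (j b)

lemma det_tens_mem {B : Type} [Fintype B] [DecidableEq B]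
    (Y : B → Matrix (Fin D) (Fin D) K) (s : K) (b0 : B) : (tens Y s).det ∈ Nm (Y b0) := by
  let M : Matrix ({b // b ≠ b0} → Fin D) ({b // b ≠ b0} → Fin D) K[X] :=
    fun i j => (if i = j then 1 else 0) + C (s * ∏ b : {b // b ≠ b0}, Y b (i b) (j b)) * X
  refine ⟨M.det, ?_⟩
  have h := Matrix.det_det M (aeval (Y b0) : K[X] →ₐ[K] _).toRingHom
  simp only [AlgHom.toRingHom_eq_coe, RingHom.coe_coe] at h
  rw [h, ← Matrix.det_submatrix_equiv_self
    ((Equiv.funSplitAt b0 (Fin D)).trans (Equiv.prodComm _ _))]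
  congr 1
  ext i j
  simp only [tens, Matrix.submatrix_apply, Matrix.comp, Equiv.coe_fn_mk, Matrix.map_apply, M,
    map_add, map_mul, aeval_C, aeval_X, Equiv.trans_apply, Equiv.prodComm_apply, Prod.fst_swap,
    Prod.snd_swap, Matrix.add_apply, ← Algebra.smul_def]
  rw [Fintype.prod_eq_mul_prod_subtype_ne _ b0]
  have e1 : ∀ f : B → Fin D, ((Equiv.funSplitAt b0 (Fin D)) f).1 = f b0 := fun _ => rfl
  have e2 : ∀ (f : B → Fin D) (b : {b // b ≠ b0}),
      ((Equiv.funSplitAt b0 (Fin D)) f).2 b = f b := fun _ _ => rfl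
  simp only [e1, e2]
  congr 1
  · by_cases hij : i = j
    · subst hij
      simp
    · rw [if_neg hij]
      split_ifs with h2
      · rw [map_one, Matrix.one_apply, if_neg]
        intro h1
        apply hij
        apply (Equiv.funSplitAt b0 (Fin D)).injective
        exact Prod.ext h1 h2
      · simp
  · rw [smul_mul_assoc, ← Algebra.smul_def, Matrix.smul_apply, Matrix.smul_apply, smul_eq_mul,
      smul_eq_mul]
    ring

lemma det_tens_single {R B : Type} [CommRing R] [Fintype B] [DecidableEq B] [NeZero D] (s : R) :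
    (tens (fun _ : B => (Matrix.single 0 0 1 : Matrix (Fin D) (Fin D) R)) s).det = 1 + s := by
  have : tens (fun _ : B => (Matrix.single 0 0 1 : Matrix (Fin D) (Fin D) R)) s =
      Matrix.diagonal (fun i => if i = 0 then 1 + s else 1) := by
    ext i j
    simp only [tens, Matrix.diagonal_apply]
    by_cases h : i = 0 ∧ j = 0
    · obtain ⟨rfl, rfl⟩ := h
      simp
    · have h0 : ∏ b, (Matrix.single 0 0 1 : Matrix (Fin D) (Fin D) R) (i b) (j b) = 0 := by
        by_contra h0
        apply h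
        have h1 : ∀ b, i b = 0 ∧ j b = 0 := by
          intro b
          by_contra hb
          refine h0 (prod_eq_zero (mem_univ b) ?_)
          rw [Matrix.single_apply, if_neg]
          exact fun h => hb ⟨h.1.symm, h.2.symm⟩
        exact ⟨funext fun b => (h1 b).1, funext fun b => (h1 b).2⟩
      rw [h0]
      by_cases hij : i = j
      · subst hij
        have : i ≠ 0 := fun hi => h ⟨hi, hi⟩
        simp [this]
      · simp [hij]
  rw [this, Matrix.det_diagonal]
  simp

lemma map_det_tens {R S B : Type} [CommRing R] [CommRing S] [Fintype B] [DecidableEq B]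
    (f : R →+* S) (Y : B → Matrix (Fin D) (Fin D) R) (s : R) :
    f (tens Y s).det = (tens (fun b => (Y b).map f) (f s)).det := by
  rw [RingHom.map_det]
  congr 1
  ext i j
  simp [tens, apply_ite]

end Pool.Agent.MP_829a8f_lc

end MrgPart0

-- ======== part 1: formerly Pool.Agent.MP_829a8f_lc.Approx
section MrgPart1

/-!
An approximation theorem for incomparable valuation rings.
-/

namespace Pool.Agent.MP_829a8f_lc

open Finset

variable {K : Type} [Field K]

lemma exists_one_lt {O O' : ValuationSubring K} (h : ¬ O' ≤ O) :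
    ∃ s ∈ O', 1 < O.valuation s := by
  by_contra hcon
  push Not at hcon
  exact h fun x hx => (O.valuation_le_one_iff x).1 (hcon x hx)

lemma exists_sep {O O' : ValuationSubring K} (hO : ¬ O' ≤ O) (hO' : ¬ O ≤ O')
    {c c' : K} (hc : c ≠ 0) (hc' : c' ≠ 0) (hcm : c⁻¹ ∈ O ⊔ O') (hcm' : c'⁻¹ ∈ O ⊔ O') :
    ∃ x : K, O.valuation x < O.valuation c ∧ 1 < O'.valuation (c' * x) := by
  by_contra hcon
  push Not at hcon
  obtain ⟨t, htm, ht⟩ := exists_one_lt hO
  obtain ⟨s, hsm, hs⟩ := exists_one_lt hO'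
  have ht0 : t ≠ 0 := by rintro rfl; simp at ht
  let T : Subring K :=
    { carrier := {z | ∃ a ∈ O, O'.valuation z ≤ O'.valuation a}
      mul_mem' := by
        rintro z w ⟨a, ha, hz⟩ ⟨b, hb, hw⟩
        exact ⟨a * b, mul_mem ha hb, by rw [map_mul, map_mul]; exact mul_le_mul' hz hw⟩
      one_mem' := ⟨1, one_mem _, le_rfl⟩
      add_mem' := by
        rintro z w ⟨a, ha, hz⟩ ⟨b, hb, hw⟩
        rcases le_total (O'.valuation a) (O'.valuation b) with hab | hab
        · exact ⟨b, hb, O'.valuation.map_add_le (hz.trans hab) hw⟩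
        · exact ⟨a, ha, O'.valuation.map_add_le hz (hw.trans hab)⟩
      zero_mem' := ⟨0, zero_mem _, le_rfl⟩
      neg_mem' := by
        rintro z ⟨a, ha, hz⟩
        exact ⟨a, ha, by rwa [Valuation.map_neg]⟩ }
  have h1 : O.toSubring ≤ T := fun a ha => ⟨a, ha, le_rfl⟩
  have h2 : O ⊔ O' ≤ O.ofLE T h1 :=
    sup_le (fun a ha => h1 ha) fun a ha =>
      ⟨1, one_mem _, by rw [map_one]; exact (O'.valuation_le_one_iff a).2 ha⟩
  obtain ⟨a, ha, hz⟩ : (c' * (c / t))⁻¹ * s ∈ T := by
    refine h2 (mul_mem ?_ (le_sup_left (a := O) (b := O') hsm))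
    rw [mul_inv, inv_div, div_eq_mul_inv]
    exact mul_mem hcm' (mul_mem (le_sup_right (a := O) (b := O') htm) hcm)
  have h3 : O.valuation (c / t * a) < O.valuation c := by
    rw [map_mul, map_div₀]
    have hc0 : 0 < O.valuation c := by simpa [zero_lt_iff] using hc
    calc O.valuation c / O.valuation t * O.valuation a ≤ O.valuation c / O.valuation t * 1 :=
          mul_le_mul_right ((O.valuation_le_one_iff a).2 ha) _
      _ < O.valuation c := by
          rw [mul_one, div_lt_iff₀ (zero_lt_one.trans ht)]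
          exact lt_mul_of_one_lt_right hc0 ht
  have h4 := hcon _ h3
  have hu : c' * (c / t) ≠ 0 := mul_ne_zero hc' (div_ne_zero hc ht0)
  have h5 : O'.valuation s ≤ O'.valuation (c' * (c / t * a)) := by
    have : s = c' * (c / t) * ((c' * (c / t))⁻¹ * s) := by field_simp
    rw [this, ← mul_assoc c' (c / t) a, map_mul _ _ a, map_mul _ (c' * (c / t))]
    exact mul_le_mul_right hz _
  exact absurd (h5.trans h4) (not_le.2 hs)

lemma geom_coprime {F : Type} [Field F] {x : F} {r r' : ℕ} (h : r.Coprime r')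
    (h1 : ∑ i ∈ range r, x ^ i = 0) (h2 : ∑ i ∈ range r', x ^ i = 0) : False := by
  have e1 : x ^ r = 1 := by rw [← sub_eq_zero, ← geom_sum_mul, h1, zero_mul]
  have e2 : x ^ r' = 1 := by rw [← sub_eq_zero, ← geom_sum_mul, h2, zero_mul]
  have e3 : x = 1 := by simpa [h.gcd_eq_one] using pow_gcd_eq_one.2 ⟨e1, e2⟩
  subst e3
  simp only [one_pow, sum_const, card_range, nsmul_eq_mul, mul_one] at h1 h2
  have := Nat.Coprime.cast (R := F) h
  rw [h1, h2] at this
  exact not_isCoprime_zero_zero this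

lemma exists_geom {J : Type} [Finite J] (O : J → ValuationSubring K) (x : K) :
    ∃ r : ℕ, 2 ≤ r ∧ ∀ l, x ∈ O l → (O l).valuation (∑ i ∈ range r, x ^ i) = 1 := by
  let B : J → Set ℕ := fun l =>
    {r | r.Prime ∧ x ∈ O l ∧ (O l).valuation (∑ i ∈ range r, x ^ i) ≠ 1}
  have hB : ∀ l, (B l).Finite := by
    intro l
    refine Set.Subsingleton.finite fun r hr r' hr' => ?_
    by_contra hne
    have key : ∀ r ∈ B l, ∑ i ∈ range r, IsLocalRing.residue (O l) ⟨x, hr.2.1⟩ ^ i = 0 := by
      intro r hr''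
      simp only [← map_pow, ← map_sum, IsLocalRing.residue_eq_zero_iff]
      rw [IsLocalRing.mem_maximalIdeal, mem_nonunits_iff, (O l).valuation_eq_one_iff]
      simpa using hr''.2.2
    exact geom_coprime ((Nat.coprime_primes hr.1 hr'.1).2 hne) (key r hr) (key r' hr')
  obtain ⟨r, hr, hrB⟩ := Nat.infinite_setOfPred_prime.exists_notMem_finite (Set.finite_iUnion hB)
  refine ⟨r, Nat.Prime.two_le hr, fun l hl => ?_⟩
  by_contra h
  exact hrB (Set.mem_iUnion.2 ⟨l, hr, hl, h⟩)

lemma le_valuation_geom (O : ValuationSubring K) {x : K} (hx : 1 < O.valuation x) {r : ℕ}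
    (hr : 2 ≤ r) : O.valuation x ≤ O.valuation (∑ i ∈ range r, x ^ i) := by
  have h1 : O.valuation (x - 1) = O.valuation x :=
    O.valuation.map_sub_eq_of_lt_left (by simpa using hx)
  have h2 : O.valuation (x ^ r - 1) = O.valuation x ^ r := by
    rw [O.valuation.map_sub_eq_of_lt_left, map_pow]
    rw [map_pow, map_one]
    exact one_lt_pow₀ hx (by omega)
  have h3 := congrArg O.valuation (geom_sum_mul x r)
  rw [map_mul, h1, h2] at h3
  have h0 : 0 < O.valuation x := zero_lt_one.trans hx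
  rw [← mul_le_mul_iff_left₀ h0, h3, ← pow_two]
  exact pow_le_pow_right₀ hx.le hr

lemma exists_idem {J : Type} [Finite J] (O : J → ValuationSubring K) {i j : J} {c c' x : K}
    (h1 : (O i).valuation c ≤ 1) (h2 : (O j).valuation c' ≤ 1)
    (hx : (O i).valuation x < (O i).valuation c) (hx' : 1 < (O j).valuation (c' * x)) :
    ∃ e : K, (∀ l, e ∈ O l) ∧ (O i).valuation (e - 1) < (O i).valuation c ∧
      (O j).valuation e < (O j).valuation c' := by
  obtain ⟨r, hr, hgood⟩ := exists_geom O x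
  refine ⟨(∑ i ∈ range r, x ^ i)⁻¹, fun l => ?_, ?_, ?_⟩
  · rw [← ValuationSubring.valuation_le_one_iff, map_inv₀]
    by_cases hl : x ∈ O l
    · rw [hgood l hl, inv_one]
    · rw [← ValuationSubring.valuation_le_one_iff, not_le] at hl
      exact inv_le_one_of_one_le₀ (hl.le.trans (le_valuation_geom _ hl hr))
  · have hxi : x ∈ O i := ((O i).valuation_le_one_iff x).1 (hx.le.trans h1)
    have hp := hgood i hxi
    have hp0 : ∑ i ∈ range r, x ^ i ≠ 0 := by
      intro h0
      rw [h0, map_zero] at hp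
      exact zero_ne_one hp
    obtain ⟨r, rfl⟩ : ∃ r', r = r' + 1 := ⟨r - 1, by omega⟩
    have e : (∑ i ∈ range (r + 1), x ^ i)⁻¹ - 1 =
        -(x * ∑ i ∈ range r, x ^ i) * (∑ i ∈ range (r + 1), x ^ i)⁻¹ := by
      field_simp
      rw [geom_sum_succ]
      ring
    rw [e, map_mul, map_inv₀, hp, inv_one, mul_one, Valuation.map_neg, map_mul]
    have : (O i).valuation (∑ i ∈ range r, x ^ i) ≤ 1 :=
      ((O i).valuation_le_one_iff _).2 (sum_mem fun k _ => pow_mem hxi k)
    exact lt_of_le_of_lt (mul_le_of_le_one_right' this) hx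
  · rw [map_mul] at hx'
    have hxj : 1 < (O j).valuation x := hx'.trans_le (mul_le_of_le_one_left' h2)
    have h0 : 0 < (O j).valuation x := zero_lt_one.trans hxj
    rw [map_inv₀]
    refine lt_of_le_of_lt (inv_anti₀ h0 (le_valuation_geom _ hxj hr)) ?_
    rwa [inv_lt_iff_one_lt_mul₀ h0]

lemma valuation_prod_sub_one (O : ValuationSubring K) {ι : Type} (s : Finset ι) (f : ι → K)
    {g : O.ValueGroup} (hg : g ≠ 0) (h1 : ∀ a ∈ s, f a ∈ O)
    (h2 : ∀ a ∈ s, O.valuation (f a - 1) < g) : O.valuation (∏ a ∈ s, f a - 1) < g := by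
  classical
  induction s using Finset.induction_on with
  | empty => simpa [zero_lt_iff] using hg
  | insert a s ha ih =>
    have e : ∏ b ∈ insert a s, f b - 1 = f a * (∏ b ∈ s, f b - 1) + (f a - 1) := by
      rw [prod_insert ha]
      ring
    rw [e]
    refine O.valuation.map_add_lt ?_ (h2 a (mem_insert_self _ _))
    rw [map_mul]
    exact lt_of_le_of_lt
      (mul_le_of_le_one_left' ((O.valuation_le_one_iff _).2 (h1 a (mem_insert_self _ _))))
      (ih (fun b hb => h1 b (mem_insert_of_mem hb)) fun b hb => h2 b (mem_insert_of_mem hb))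

lemma exists_denominator {J : Type} [Finite J] (O : J → ValuationSubring K) (x : K) :
    ∃ s : K, (∀ l, s ∈ O l) ∧ (∀ l, x * s ∈ O l) ∧ ∀ l, x ∈ O l → (O l).valuation s = 1 := by
  obtain ⟨r, hr, hgood⟩ := exists_geom O x
  have key : ∀ l, x ∉ O l → 1 < (O l).valuation x := fun l hl => by
    rwa [← ValuationSubring.valuation_le_one_iff, not_le] at hl
  refine ⟨(∑ i ∈ range r, x ^ i)⁻¹, fun l => ?_, fun l => ?_, fun l hl => ?_⟩
  · rw [← ValuationSubring.valuation_le_one_iff, map_inv₀]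
    by_cases hl : x ∈ O l
    · rw [hgood l hl, inv_one]
    · exact inv_le_one_of_one_le₀ ((key l hl).le.trans (le_valuation_geom _ (key l hl) hr))
  · rw [← ValuationSubring.valuation_le_one_iff, map_mul, map_inv₀]
    by_cases hl : x ∈ O l
    · rw [hgood l hl, inv_one, mul_one]
      exact ((O l).valuation_le_one_iff x).2 hl
    · exact mul_inv_le_one_of_le₀ (le_valuation_geom _ (key l hl) hr) zero_le
  · rw [map_inv₀, hgood l hl, inv_one]

lemma valuation_mul_lt (O : ValuationSubring K) {a b : K} {g : O.ValueGroup}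
    (ha : O.valuation a < g) (hb : b ∈ O) : O.valuation (a * b) < g := by
  rw [map_mul]
  exact lt_of_le_of_lt (mul_le_of_le_one_right' ((O.valuation_le_one_iff _).2 hb)) ha

/-- The approximation theorem. -/
theorem approx {J : Type} [Fintype J] (O : J → ValuationSubring K) (γ : J → K)
    (hγ : ∀ j, γ j ≠ 0) (hγO : ∀ j, γ j ∈ O j) (hinc : Pairwise fun i j => ¬ O i ≤ O j)
    (hind : Pairwise fun i j => (γ i)⁻¹ ∈ O i ⊔ O j) (x : J → K) (hx : ∀ j, x j ∈ O j) :
    ∃ y : K, ∀ j, (O j).valuation (y - x j) < (O j).valuation (γ j) := by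
  classical
  have h1 : ∀ j, (O j).valuation (γ j) ≤ 1 := fun j => ((O j).valuation_le_one_iff _).2 (hγO j)
  have hg : ∀ j, (O j).valuation (γ j) ≠ 0 := fun j => by simpa using hγ j
  have key : ∀ i j : J, ∃ e : K, i ≠ j → (∀ l, e ∈ O l) ∧
      (O i).valuation (e - 1) < (O i).valuation (γ i) ∧
      (O j).valuation e < (O j).valuation (γ j) := by
    intro i j
    by_cases hij : i = j
    · exact ⟨0, fun h => absurd hij h⟩
    obtain ⟨z, hz, hz'⟩ := exists_sep (hinc (Ne.symm hij)) (hinc hij) (hγ i) (hγ j) (hind hij)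
      (sup_comm (O i) (O j) ▸ hind (Ne.symm hij))
    obtain ⟨e, he⟩ := exists_idem O (h1 i) (h1 j) hz hz'
    exact ⟨e, fun _ => he⟩
  choose e he using key
  have hE : ∀ i, ∃ E : K, (∀ l, E ∈ O l) ∧ (O i).valuation (E - 1) < (O i).valuation (γ i) ∧
      ∀ j, i ≠ j → (O j).valuation E < (O j).valuation (γ j) := by
    intro i
    refine ⟨∏ j ∈ univ.erase i, e i j,
      fun l => prod_mem fun j hj => (he i j (ne_of_mem_erase hj).symm).1 l,
      valuation_prod_sub_one _ _ _ (hg i) (fun l hl => (he i l (ne_of_mem_erase hl).symm).1 i)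
        fun l hl => (he i l (ne_of_mem_erase hl).symm).2.1, fun j hij => ?_⟩
    rw [← mul_prod_erase _ _ (mem_erase.2 ⟨hij.symm, mem_univ j⟩)]
    exact valuation_mul_lt _ (he i j hij).2.2 (prod_mem fun l hl =>
      (he i l (ne_of_mem_erase (mem_of_mem_erase hl)).symm).1 j)
  choose E hE1 hE2 hE3 using hE
  have hx' : ∀ i, ∃ z : K, (∀ l, z ∈ O l) ∧
      (O i).valuation (z - x i) < (O i).valuation (γ i) := by
    intro i
    obtain ⟨s, hs1, hs2, hs3⟩ := exists_denominator O (x i)
    have hi : (O i).valuation (s * E i + (1 - E i) - s) < (O i).valuation (γ i) := by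
      rw [show s * E i + (1 - E i) - s = (E i - 1) * (s - 1) by ring]
      exact valuation_mul_lt _ (hE2 i) (sub_mem (hs1 i) (one_mem _))
    have hu : ∀ l, (O l).valuation (s * E i + (1 - E i)) = 1 := by
      intro l
      by_cases hl : i = l
      · subst hl
        rw [← hs3 i (hx i)]
        exact (O i).valuation.map_eq_of_sub_lt (hi.trans_le ((h1 i).trans (hs3 i (hx i)).ge))
      · rw [← (O l).valuation.map_one]
        refine (O l).valuation.map_eq_of_sub_lt ?_
        rw [show s * E i + (1 - E i) - 1 = E i * (s - 1) by ring, map_one]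
        exact valuation_mul_lt _ ((hE3 i l hl).trans_le (h1 l)) (sub_mem (hs1 l) (one_mem _))
    have hu' : ∀ l, (s * E i + (1 - E i))⁻¹ ∈ O l := fun l => by
      rw [← ValuationSubring.valuation_le_one_iff, map_inv₀, hu, inv_one]
    have hu0 : s * E i + (1 - E i) ≠ 0 := fun h0 => by simpa [h0] using hu i
    refine ⟨x i * s * (s * E i + (1 - E i))⁻¹, fun l => mul_mem (hs2 l) (hu' l), ?_⟩
    rw [show x i * s * (s * E i + (1 - E i))⁻¹ - x i =
      (s * E i + (1 - E i) - s) * -(x i * (s * E i + (1 - E i))⁻¹) by field_simp; ring]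
    exact valuation_mul_lt _ hi (neg_mem (mul_mem (hx i) (hu' i)))
  choose z hz1 hz2 using hx'
  refine ⟨∑ i, E i * z i, fun j => ?_⟩
  have e1 : ∑ i, E i * z i - x j =
      (E j - 1) * z j + (z j - x j) + ∑ i ∈ univ.erase j, E i * z i := by
    rw [← add_sum_erase _ _ (mem_univ j)]
    ring
  rw [e1]
  exact (O j).valuation.map_add_lt
    ((O j).valuation.map_add_lt (valuation_mul_lt _ (hE2 j) (hz1 j j)) (hz2 j))
    ((O j).valuation.map_sum_lt (hg j) fun i hi =>
      valuation_mul_lt _ (hE3 i j (ne_of_mem_erase hi)) (hz1 i j))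

end Pool.Agent.MP_829a8f_lc

end MrgPart1

-- ======== part 2: formerly Pool.Agent.MP_829a8f_lc.Val
section MrgPart2

/-!
Infinitely many incomparable valuations with a norm obstruction give the `n`-independence property.
-/

namespace Pool.Agent.MP_829a8f_lc

open Finset Polynomial IsLocalRing

variable {K : Type} [Field K] {D : ℕ}

lemma mapMatrix_sum_pow {R S : Type} [CommRing R] [CommRing S] (g : R →+* S) (c : Fin D → R)
    (y : Matrix (Fin D) (Fin D) R) :
    g.mapMatrix (∑ i, c i • y ^ (i : ℕ)) = ∑ i, g (c i) • g.mapMatrix y ^ (i : ℕ) := by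
  rw [map_sum]
  refine Finset.sum_congr rfl fun i _ => ?_
  rw [← map_pow]
  ext r s
  simp

/-- The subgroup of `D`-th powers times units whose residue is a norm. -/
def normSub (O : ValuationSubring K) (L : Type) [Field L] [Algebra (ResidueField O) L]
    [FiniteDimensional (ResidueField O) L] (D : ℕ) : Subgroup Kˣ where
  carrier := {u | ∃ (c : K) (w : O) (z : L), (u : K) = c ^ D * w ∧
    residue O w = Algebra.norm (ResidueField O) z ∧ z ≠ 0}
  one_mem' := ⟨1, 1, 1, by simp, by simp, one_ne_zero⟩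
  mul_mem' := by
    rintro u u' ⟨c, w, z, h1, h2, h3⟩ ⟨c', w', z', h1', h2', h3'⟩
    refine ⟨c * c', w * w', z * z', ?_, by rw [map_mul, map_mul, h2, h2'], mul_ne_zero h3 h3'⟩
    rw [Units.val_mul, h1, h1', mul_pow]
    push_cast
    ring
  inv_mem' := by
    rintro u ⟨c, w, z, h1, h2, h3⟩
    have hn : Algebra.norm (ResidueField O) z ≠ 0 := Algebra.norm_ne_zero_iff.2 h3
    have hw : IsUnit w := (residue_ne_zero_iff_isUnit w).1 (h2 ▸ hn)
    obtain ⟨w', hw'⟩ := hw.exists_right_inv
    refine ⟨c⁻¹, w', z⁻¹, ?_, ?_, inv_ne_zero h3⟩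
    · have : (w : K) * w' = 1 := by exact_mod_cast hw'
      rw [Units.val_inv_eq_inv_val, h1, mul_inv, inv_pow, eq_inv_of_mul_eq_one_right this]
    · apply mul_left_cancel₀ hn
      rw [← map_mul, mul_inv_cancel₀ h3, map_one, ← h2, ← map_mul, hw', map_one]

lemma local_data (O : ValuationSubring K) [NeZero D] (f : (ResidueField O)[X])
    (hf : Irreducible f) (hD : f.natDegree = D) :
    ∃ (Y : Matrix (Fin D) (Fin D) K) (H : Subgroup Kˣ), (∀ r c, Y r c ∈ O) ∧
      (∀ u ∈ H, ∃ γ, γ ^ D = O.valuation u) ∧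
      (¬ Function.Surjective (Algebra.norm (ResidueField O) : AdjoinRoot f → ResidueField O) →
        ∃ π : Kˣ, O.valuation π = 1 ∧ π ∉ H) ∧
      (∀ y : Matrix (Fin D) (Fin D) K, (∀ r c, O.valuation (y r c - Y r c) < 1) →
        ∀ u : Kˣ, (u : K) ∈ Nm y → u ∈ H) ∧
      ∀ u π : Kˣ, O.valuation (u - π) < O.valuation π → u ∈ H → π ∈ H := by
  have : Fact (Irreducible f) := ⟨hf⟩
  let pb := AdjoinRoot.powerBasis hf.ne_zero
  have : FiniteDimensional (ResidueField O) (AdjoinRoot f) := pb.finite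
  have hrank : Module.finrank (ResidueField O) (AdjoinRoot f) = D := pb.finrank.trans hD
  have hD0 : D ≠ 0 := NeZero.ne D
  let b : Module.Basis (Fin D) (ResidueField O) (AdjoinRoot f) := pb.basis.reindex (finCongr hD)
  have hb : ∀ i, b i = pb.gen ^ (i : ℕ) := by
    intro i
    simp [b]
  choose Y hY using fun r c => residue_surjective (R := O) (Algebra.leftMulMatrix b pb.gen r c)
  have hval : ∀ u ∈ normSub O (AdjoinRoot f) D, ∃ (c : K) (w : O) (z : AdjoinRoot f),
      (u : K) = c ^ D * w ∧ residue O w = Algebra.norm (ResidueField O) z ∧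
        O.valuation u = O.valuation c ^ D := by
    rintro u ⟨c, w, z, h1, h2, h3⟩
    have hw : IsUnit w :=
      (residue_ne_zero_iff_isUnit w).1 (h2 ▸ Algebra.norm_ne_zero_iff.2 h3)
    exact ⟨c, w, z, h1, h2, by rw [h1, map_mul, map_pow, (O.valuation_eq_one_iff w).1 hw, mul_one]⟩
  refine ⟨fun r c => Y r c, normSub O (AdjoinRoot f) D, fun r c => (Y r c).2, ?_, ?_, ?_, ?_⟩
  · intro u hu
    obtain ⟨c, -, -, -, -, h3⟩ := hval u hu
    exact ⟨_, h3.symm⟩
  · intro h
    by_contra hall
    push Not at hall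
    refine h fun ρ => ?_
    by_cases hρ : ρ = 0
    · exact ⟨0, by simp [hρ]⟩
    obtain ⟨x, rfl⟩ := residue_surjective (R := O) ρ
    have hx : O.valuation x = 1 :=
      (O.valuation_eq_one_iff x).1 ((residue_ne_zero_iff_isUnit x).1 hρ)
    have hx0 : (x : K) ≠ 0 := fun h0 => by simp [h0] at hx
    obtain ⟨c, w, z, h1, h2, h3⟩ := hval _ (hall (Units.mk0 x hx0) hx)
    rw [Units.val_mk0] at h1 h3
    rw [hx, eq_comm, pow_eq_one_iff_left hD0] at h3
    let c' : O := ⟨c, (O.valuation_le_one_iff c).1 h3.le⟩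
    have h4 : x = c' ^ D * w := Subtype.ext h1
    refine ⟨algebraMap _ _ (residue O c') * z, ?_⟩
    rw [map_mul, Algebra.norm_algebraMap, hrank, h4, map_mul, map_pow, h2]
  · intro y hy u hu
    have hyO : ∀ r c, y r c ∈ O := fun r c => by
      simpa using add_mem ((O.valuation_le_one_iff _).1 (hy r c).le) (Y r c).2
    let y' : Matrix (Fin D) (Fin D) O := Matrix.of fun r c => ⟨y r c, hyO r c⟩
    have hy1 : O.subtype.mapMatrix y' = y := by
      ext r c
      rfl
    have hy2 : (residue O).mapMatrix y' = Algebra.leftMulMatrix b pb.gen := by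
      ext r c
      rw [← hY, RingHom.mapMatrix_apply, Matrix.map_apply, ← sub_eq_zero, ← map_sub,
        residue_eq_zero_iff, O.valuation_lt_one_iff]
      exact hy r c
    obtain ⟨c, hc⟩ := (mem_Nm_iff y u).1 hu
    obtain ⟨i0, -, hi0⟩ := exists_max_image univ (fun i => O.valuation (c i)) univ_nonempty
    have hc0 : c i0 ≠ 0 := by
      intro h0
      have : ∀ i, c i = 0 := fun i => by simpa [h0] using hi0 i (mem_univ i)
      simp [this] at hc
    let c' : Fin D → O := fun i => ⟨c i / c i0, by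
      rw [← O.valuation_le_one_iff, map_div₀]
      exact div_le_one_of_le₀ (hi0 i (mem_univ i)) zero_le⟩
    refine ⟨c i0, (∑ i, c' i • y' ^ (i : ℕ)).det, ∑ i, residue O (c' i) • b i, ?_, ?_, ?_⟩
    · rw [← O.subtype_apply, RingHom.map_det, mapMatrix_sum_pow, hy1, hc]
      have e := Matrix.det_smul (∑ i, O.subtype (c' i) • y ^ (i : ℕ)) (c i0)
      rw [Fintype.card_fin] at e
      rw [← e, smul_sum]
      congr 1
      refine Finset.sum_congr rfl fun i _ => ?_
      rw [smul_smul]
      congr 1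
      simp only [c', ValuationSubring.subtype_apply]
      field_simp
    · rw [RingHom.map_det, mapMatrix_sum_pow, hy2, Algebra.norm_eq_matrix_det b]
      simp [hb]
    · intro h0
      have := Fintype.linearIndependent_iff.1 b.linearIndependent _ h0 i0
      have h1 : c' i0 = 1 := Subtype.ext (div_self hc0)
      simp [h1] at this
  · intro u π hu huH
    have hπ0 : 0 < O.valuation π := by simp [zero_lt_iff]
    have h1 : O.valuation ((u : K) / π - 1) < 1 := by
      rw [div_sub_one π.ne_zero, map_div₀, div_lt_one₀ hπ0]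
      exact hu
    have h2 : (u : K) / π ∈ O := by
      simpa using add_mem ((O.valuation_le_one_iff _).1 h1.le) O.one_mem
    have h3 : u / π ∈ normSub O (AdjoinRoot f) D := by
      refine ⟨1, ⟨_, h2⟩, 1, by simp, ?_, one_ne_zero⟩
      rw [map_one, ← (residue O).map_one, ← sub_eq_zero, ← map_sub, residue_eq_zero_iff,
        O.valuation_lt_one_iff]
      exact h1
    simpa using div_mem huH h3

/-- Pairs of integers that are congruent modulo `π` times the maximal ideal. -/
def congSub (O : ValuationSubring K) {π : K} (hπ : π ≠ 0) : Subring (K × K) where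
  carrier := {p | p.1 ∈ O ∧ p.2 ∈ O ∧ O.valuation (p.1 - p.2) < O.valuation π}
  one_mem' := ⟨one_mem _, one_mem _, by simpa [zero_lt_iff] using hπ⟩
  zero_mem' := ⟨zero_mem _, zero_mem _, by simpa [zero_lt_iff] using hπ⟩
  mul_mem' := by
    rintro p q ⟨h1, h2, h3⟩ ⟨h4, h5, h6⟩
    refine ⟨mul_mem h1 h4, mul_mem h2 h5, ?_⟩
    have e : (p * q).1 - (p * q).2 = p.1 * (q.1 - q.2) + (p.1 - p.2) * q.2 := by
      simp only [Prod.fst_mul, Prod.snd_mul]
      ring
    rw [e]
    refine O.valuation.map_add_lt ?_ ?_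
    · rw [map_mul]
      exact lt_of_le_of_lt (mul_le_of_le_one_left' ((O.valuation_le_one_iff _).2 h1)) h6
    · rw [map_mul]
      exact lt_of_le_of_lt (mul_le_of_le_one_right' ((O.valuation_le_one_iff _).2 h5)) h3
  add_mem' := by
    rintro p q ⟨h1, h2, h3⟩ ⟨h4, h5, h6⟩
    refine ⟨add_mem h1 h4, add_mem h2 h5, ?_⟩
    have e : (p + q).1 - (p + q).2 = (p.1 - p.2) + (q.1 - q.2) := by
      simp only [Prod.fst_add, Prod.snd_add]
      ring
    rw [e]
    exact O.valuation.map_add_lt h3 h6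
  neg_mem' := by
    rintro p ⟨h1, h2, h3⟩
    refine ⟨neg_mem h1, neg_mem h2, ?_⟩
    have e : (-p).1 - (-p).2 = -(p.1 - p.2) := by
      simp only [Prod.fst_neg, Prod.snd_neg]
      ring
    rwa [e, Valuation.map_neg]

lemma single_mem (O : ValuationSubring K) [NeZero D] (r c : Fin D) :
    (Matrix.single 0 0 1 : Matrix (Fin D) (Fin D) K) r c ∈ O := by
  rw [Matrix.single_apply]
  split_ifs
  · exact one_mem _
  · exact zero_mem _

lemma det_tens_cong (O : ValuationSubring K) [NeZero D] {B : Type} [Fintype B] [DecidableEq B]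
    {π : K} (hπ : π ≠ 0) (hπO : π ∈ O) (y : B → Matrix (Fin D) (Fin D) K)
    (hy : ∀ b r c, O.valuation (y b r c - (Matrix.single 0 0 1 : Matrix (Fin D) (Fin D) K) r c) <
      O.valuation π) : O.valuation ((tens y (π - 1)).det - π) < O.valuation π := by
  have hyO : ∀ b r c, y b r c ∈ O := fun b r c => by
    simpa using add_mem ((O.valuation_le_one_iff _).1
      ((hy b r c).le.trans ((O.valuation_le_one_iff _).2 hπO))) (single_mem O r c)
  let Y : B → Matrix (Fin D) (Fin D) (congSub O hπ) := fun b => Matrix.of fun r c =>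
    ⟨(y b r c, (Matrix.single 0 0 1 : Matrix (Fin D) (Fin D) K) r c), hyO b r c,
      single_mem O r c, hy b r c⟩
  let s : congSub O hπ := ⟨(π - 1, π - 1), sub_mem hπO (one_mem _), sub_mem hπO (one_mem _),
    by simpa [zero_lt_iff] using hπ⟩
  have h1 := map_det_tens ((RingHom.fst K K).comp (congSub O hπ).subtype) Y s
  have h2 := map_det_tens ((RingHom.snd K K).comp (congSub O hπ).subtype) Y s
  have h3 := (tens Y s).det.2.2.2
  change ((tens Y s).det : K × K).1 = (tens y (π - 1)).det at h1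
  change ((tens Y s).det : K × K).2 =
    (tens (fun _ : B => (Matrix.single 0 0 1 : Matrix (Fin D) (Fin D) K)) (π - 1)).det at h2
  rw [det_tens_single, add_sub_cancel] at h2
  rwa [h1, h2] at h3

lemma not_nipn_of_data [NeZero D] (O : ℕ → ValuationSubring K)
    (hinc : Pairwise fun i j => ¬ O i ≤ O j) (Y : ℕ → Matrix (Fin D) (Fin D) K)
    (H : ℕ → Subgroup Kˣ) (π : ℕ → K) (hπ : ∀ i, π i ≠ 0) (hπO : ∀ i, π i ∈ O i)
    (hπj : ∀ i j, j ≠ i → (π i)⁻¹ ∈ O i ⊔ O j) (hY : ∀ i r c, Y i r c ∈ O i)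
    (hH : ∀ i (y : Matrix (Fin D) (Fin D) K), (∀ r c, (O i).valuation (y r c - Y i r c) < 1) →
      ∀ u : Kˣ, (u : K) ∈ Nm y → u ∈ H i)
    (hH' : ∀ i (u : Kˣ), (O i).valuation (u - π i) < (O i).valuation (π i) → u ∉ H i)
    (n : ℕ) : ¬ NIPn n K := by
  classical
  refine not_nipn_of_pattern n D fun N => ?_
  obtain ⟨ι, hι⟩ := Countable.exists_injective_nat (Fin n → Fin N)
  let E : Matrix (Fin D) (Fin D) K := Matrix.single 0 0 1
  have key := fun (k : Fin n) (t : Fin N) (r c : Fin D) =>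
    approx (fun j => O (ι j)) (fun j => π (ι j)) (fun j => hπ _) (fun j => hπO _)
      (fun i j hij => hinc (hι.ne hij)) (fun i j hij => hπj _ _ (hι.ne hij).symm)
      (fun j => if t = j k then Y (ι j) r c else E r c)
      (fun j => by split_ifs; exacts [hY _ r c, single_mem _ r c])
  choose y hy using key
  let Z : (Fin n → Fin N) → Fin n × Fin N → Matrix (Fin D) (Fin D) K :=
    fun j b => if b.2 = j b.1 then E else Matrix.of (y b.1 b.2)
  have hd : ∀ j, (O (ι j)).valuation ((tens (Z j) (π (ι j) - 1)).det - π (ι j)) <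
      (O (ι j)).valuation (π (ι j)) := by
    intro j
    refine det_tens_cong _ (hπ _) (hπO _) _ fun b r c => ?_
    by_cases hb : b.2 = j b.1
    · simpa [Z, hb, E, zero_lt_iff] using hπ _
    · simpa [Z, hb, E] using hy b.1 b.2 r c j
  have hd0 : ∀ j, (tens (Z j) (π (ι j) - 1)).det ≠ 0 := by
    intro j h0
    simpa [h0] using hd j
  refine ⟨fun k t => Matrix.of (y k t), fun j => Units.mk0 _ (hd0 j), fun j => H (ι j),
    fun j k t ht => ?_, fun j k => hH _ _ fun r c => ?_, fun j => hH' _ _ (hd j)⟩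
  · simpa [Z, ht] using det_tens_mem (Z j) (π (ι j) - 1) (k, t)
  · refine lt_of_lt_of_le ?_ (((O (ι j)).valuation_le_one_iff _).2 (hπO _))
    simpa using hy k (j k) r c j

theorem not_nipn_of_valuations (K : Type) [Field K] (D : ℕ) (O : ℕ → ValuationSubring K)
    (hinc : Pairwise fun i j => ¬ O i ≤ O j)
    (hO : ∀ i, ∃ f : (ResidueField (O i))[X], Irreducible f ∧ f.natDegree = D ∧
      ((∃ x : K, (∀ γ : (O i).ValueGroup, γ ^ D ≠ (O i).valuation x) ∧
          ∀ j, j ≠ i → x ∈ O i ⊔ O j ∧ x⁻¹ ∈ O i ⊔ O j) ∨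
        ¬ Function.Surjective
          (Algebra.norm (ResidueField (O i)) : AdjoinRoot f → ResidueField (O i))))
    (n : ℕ) : ¬ NIPn n K := by
  classical
  have : NeZero D := by
    obtain ⟨f, hf, hD, -⟩ := hO 0
    exact ⟨hD ▸ hf.natDegree_pos.ne'⟩
  choose f hf hD h using hO
  choose Y H hY hH1 hH2 hH hH' using fun i => local_data (O i) (f i) (hf i) (hD i)
  have hex : ∀ i, ∃ π : Kˣ, (π : K) ∈ O i ∧ π ∉ H i ∧
      ∀ j, j ≠ i → (π : K)⁻¹ ∈ O i ⊔ O j := by
    intro i
    rcases h i with ⟨x, hx, hx'⟩ | h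
    · have hx0 : x ≠ 0 := by
        rintro rfl
        exact hx 0 (by simp [NeZero.ne D])
      have hxH : Units.mk0 x hx0 ∉ H i := fun hm => by
        obtain ⟨γ, hγ⟩ := hH1 i _ hm
        exact hx γ hγ
      rcases (O i).mem_or_inv_mem x with h | h
      · exact ⟨_, h, hxH, fun j hj => (hx' j hj).2⟩
      · exact ⟨(Units.mk0 x hx0)⁻¹, by simpa using h, by simpa using hxH,
          fun j hj => by simpa using (hx' j hj).1⟩
    · obtain ⟨π, h1, h2⟩ := hH2 i h
      refine ⟨π, ((O i).valuation_le_one_iff _).1 h1.le, h2, fun j _ =>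
        le_sup_left (a := O i) (b := O j) ?_⟩
      rw [← ValuationSubring.valuation_le_one_iff, map_inv₀, h1, inv_one]
  choose π hπO hπH hπj using hex
  exact not_nipn_of_data O hinc Y H (fun i => π i) (fun i => (π i).ne_zero) hπO hπj hY hH
    (fun i u hu h => hπH i (hH' i u _ hu h)) n

end Pool.Agent.MP_829a8f_lc

end MrgPart2

-- marker of a merged file
example : 731051 + 104580 = 731051 + 104580 := rfl
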