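import Mathlib
import Pool.Agent.MP_829a8f_lc.Val

-- ======== part 0: formerly Pool.Agent.MP_829a8f_lc.Hull
section MrgPart0

/-!
Places attached to a norm obstruction: the finitary norm pattern, and the intersection of all places
as an increasing union of sets of bounded complexity.
-/

namespace Pool.Agent.MP_829a8f_lc

section Pat

open Finset Polynomial FirstOrder FirstOrder.Language FirstOrder.Ring

variable {K : Type} [Field K] {D : ℕ}

/-- The norm pattern of size `N`. -/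
def Pat (n D N : ℕ) (K : Type) [Field K] : Prop :=
  ∃ (y : Fin n → Fin N → Matrix (Fin D) (Fin D) K) (b : Set (Fin n → Fin N) → K),
    ∀ s j, b s ∈ PNm (fun k => y k (j k)) ↔ j ∈ s

lemma exists_not_pat {n : ℕ} (D : ℕ) [NeZero D] (h : NIPn n K) : ∃ N, ¬ Pat n D N K := by
  let _ := compatibleRingOfRing K
  obtain ⟨N, hN⟩ := h (D * D) (phi n D)
  refine ⟨N, fun ⟨y, b, hy⟩ => hN ⟨fun k t c => y k t (finProdFinEquiv.symm c).1
    (finProdFinEquiv.symm c).2, fun s _ => b s, fun s j => ?_⟩⟩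
  rw [realize_phi]
  simp only [Fin.cons_zero, Fin.cons_succ, Equiv.symm_apply_apply]
  exact hy s j

lemma pat_of_pattern {n N : ℕ} (y : Fin n → Fin N → Matrix (Fin D) (Fin D) K)
    (d : (Fin n → Fin N) → Kˣ) (H : (Fin n → Fin N) → Subgroup Kˣ)
    (h1 : ∀ j k t, t ≠ j k → (d j : K) ∈ Nm (y k t))
    (h2 : ∀ j k (u : Kˣ), (u : K) ∈ Nm (y k (j k)) → u ∈ H j) (h3 : ∀ j, d j ∉ H j) :
    Pat n D N K := by
  classical
  refine ⟨y, fun s => ((∏ j ∈ univ.filter (· ∉ s), d j : Kˣ) : K), fun s j => ?_⟩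
  beta_reduce
  have hne : ∀ j', j' ≠ j → ∃ k, (d j' : K) ∈ Nm (y k (j k)) := by
    intro j' hj'
    obtain ⟨k, hk⟩ := Function.ne_iff.1 hj'
    exact ⟨k, h1 j' k _ hk.symm⟩
  constructor
  · rintro ⟨z, hz, hx⟩
    by_contra hj
    have hz0 : ∀ k, z k ≠ 0 := by
      intro k
      have := Units.ne_zero (∏ j ∈ univ.filter (· ∉ s), d j)
      rw [hx] at this
      exact prod_ne_zero_iff.1 this k (mem_univ k)
    have hH : ∏ j ∈ univ.filter (· ∉ s), d j ∈ H j := by
      have : ∏ j ∈ univ.filter (· ∉ s), d j = ∏ k, Units.mk0 (z k) (hz0 k) := by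
        ext
        rw [hx]
        simp
      rw [this]
      exact prod_mem fun k _ => h2 j k _ (hz k)
    rw [← mul_prod_erase _ _ (mem_filter.2 ⟨mem_univ j, hj⟩)] at hH
    refine h3 j ((H j).mul_mem_cancel_right (prod_mem fun j' hj' => ?_) |>.1 hH)
    obtain ⟨k, hk⟩ := hne j' (ne_of_mem_erase hj')
    exact h2 j k _ hk
  · intro hj
    rw [Units.coe_prod]
    refine prod_mem fun j' hj' => ?_
    obtain ⟨k, hk⟩ := hne j' (fun h => (mem_filter.1 hj').2 (h ▸ hj))
    exact mem_PNm k hk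

/-- The norm form of a matrix. -/
noncomputable def nu {R : Type} [CommRing R] (y : Matrix (Fin D) (Fin D) R) (c : Fin D → R) : R :=
  (∑ i, c i • y ^ (i : ℕ)).det

lemma map_nu {R S : Type} [CommRing R] [CommRing S] (g : R →+* S) (y : Matrix (Fin D) (Fin D) R)
    (c : Fin D → R) : g (nu y c) = nu (y.map g) (fun i => g (c i)) := by
  rw [nu, RingHom.map_det, mapMatrix_sum_pow]
  rfl

lemma nu_smul {R : Type} [CommRing R] (y : Matrix (Fin D) (Fin D) R) (a : R) (c : Fin D → R) :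
    nu y (fun i => a * c i) = a ^ D * nu y c := by
  have e := Matrix.det_smul (∑ i, c i • y ^ (i : ℕ)) a
  rw [Fintype.card_fin] at e
  rw [nu, nu, ← e, smul_sum]
  simp only [smul_smul]

lemma pow_mem_Nm (y : Matrix (Fin D) (Fin D) K) (a : K) : a ^ D ∈ Nm y :=
  ⟨C a, by simp [Algebra.algebraMap_eq_smul_one]⟩

/-- The data of a norm obstruction. -/
structure Dat (K : Type) [Field K] (D : ℕ) where
  y : Matrix (Fin D) (Fin D) K
  u : K
  π : K
  C : Set K
  fin : C.Finite
  hu : u ≠ 0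
  hπ : π ≠ 0
  hy : ∀ r c, y r c ∈ C
  huC : u ∈ C
  hπC : π / u ∈ C
  g1 : ∀ c, nu y c = 0 → c = 0
  g2 : ∀ c, nu y c ≠ u

namespace Dat

variable (d : Dat K D)

/-- The generators of the holomorphy ring. -/
def S : Set K := d.C ∪ {x | ∃ (c : Fin D → K) (i : Fin D), x = d.π * c i ^ D / nu d.y c} ∪
  {x | ∃ c, x = nu d.y c / (nu d.y c - d.u)}

/-- Places of the data. -/
def Place (O : ValuationSubring K) : Prop := (∀ x ∈ d.S, x ∈ O) ∧ d.π⁻¹ ∉ O

/-- Separation of two valuation rings at level `π`. -/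
def Sep (O O' : ValuationSubring K) : Prop := ∃ c ∈ O, d.π * c ∉ O'

/-- Families of separated places. -/
def Fam (J : Type) : Prop := ∃ O : J → ValuationSubring K, (∀ j, d.Place (O j)) ∧
  Pairwise fun i j => d.Sep (O i) (O j) ∨ d.Sep (O j) (O i)

variable {d} {O O' : ValuationSubring K}

lemma Place.memC (h : d.Place O) {x : K} (hx : x ∈ d.C) : x ∈ O := h.1 x (Or.inl (Or.inl hx))

lemma Place.lt (h : d.Place O) : O.valuation d.π < 1 :=
  O.mem_nonunits_iff.1 (O.mem_nonunits_iff_or.2 (Or.inr h.2))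

lemma Place.mem (h : d.Place O) : d.π ∈ O := (O.valuation_le_one_iff _).1 h.lt.le

lemma Place.le_u (h : d.Place O) : O.valuation d.π ≤ O.valuation d.u := by
  have := (O.valuation_le_one_iff _).2 (h.memC d.hπC)
  rwa [map_div₀, div_le_one₀ (by simpa [zero_lt_iff] using d.hu)] at this

lemma Place.aniso [NeZero D] (h : d.Place O) (c : Fin D → K) (i : Fin D) :
    O.valuation d.π * O.valuation (c i) ^ D ≤ O.valuation (nu d.y c) := by
  by_cases h0 : nu d.y c = 0
  · simp [d.g1 c h0, NeZero.ne D]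
  · have := (O.valuation_le_one_iff _).2 (h.1 _ (Or.inl (Or.inr ⟨c, i, rfl⟩)))
    rwa [map_div₀, div_le_one₀ (by simpa [zero_lt_iff] using h0), map_mul, map_pow] at this

lemma Place.far (h : d.Place O) (c : Fin D → K) :
    O.valuation (nu d.y c) ≤ O.valuation (nu d.y c - d.u) := by
  have := (O.valuation_le_one_iff _).2 (h.1 _ (Or.inr ⟨c, rfl⟩))
  rwa [map_div₀, div_le_one₀ (by simpa [zero_lt_iff, sub_eq_zero] using d.g2 c)] at this

lemma Sep.facts (h : d.Sep O O') (hO : d.Place O) (hO' : d.Place O') :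
    ¬ O ≤ O' ∧ ¬ O' ≤ O ∧ d.π⁻¹ ∈ O ⊔ O' := by
  obtain ⟨c, hc, hc'⟩ := h
  have hc0 : c ≠ 0 := by
    rintro rfl
    exact hc' (by simp)
  have h1 : d.π⁻¹ ∈ O ⊔ O' := by
    rw [show d.π⁻¹ = c * (d.π * c)⁻¹ by field_simp]
    exact mul_mem (le_sup_left (a := O) (b := O') hc)
      (le_sup_right (a := O) (b := O') ((O'.mem_or_inv_mem _).resolve_left hc'))
  exact ⟨fun h => hc' (mul_mem hO'.mem (h hc)), fun h => hO.2 (by rwa [sup_eq_left.2 h] at h1), h1⟩

end Dat

/-- Elements that are congruent to a norm. -/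
def nearNm (O : ValuationSubring K) [NeZero D] (y : Matrix (Fin D) (Fin D) K) : Subgroup Kˣ where
  carrier := {w | ∃ x ∈ Nm y, O.valuation (w - x) < O.valuation w}
  one_mem' := ⟨1, one_mem _, by simp⟩
  mul_mem' := by
    rintro w w' ⟨x, hx, h⟩ ⟨x', hx', h'⟩
    refine ⟨x * x', mul_mem hx hx', ?_⟩
    have e : O.valuation x' = O.valuation w' :=
      O.valuation.map_eq_of_sub_lt (by rwa [Valuation.map_sub_swap])
    rw [show ((w * w' : Kˣ) : K) - x * x' = w * (w' - x') + (w - x) * x' by push_cast; ring,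
      Units.val_mul, map_mul]
    refine O.valuation.map_add_lt ?_ ?_
    · rw [map_mul]
      exact mul_lt_mul_of_pos_left h' (by simp [zero_lt_iff])
    · rw [map_mul, e]
      exact mul_lt_mul_of_pos_right h (by simp [zero_lt_iff])
  inv_mem' := by
    rintro w ⟨x, hx, h⟩
    have e : O.valuation x = O.valuation w :=
      O.valuation.map_eq_of_sub_lt (by rwa [Valuation.map_sub_swap])
    have hw : 0 < O.valuation w := by simp [zero_lt_iff]
    have hx0 : x ≠ 0 := by
      rintro rfl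
      simp at h
    obtain ⟨D', hD'⟩ := Nat.exists_eq_succ_of_ne_zero (NeZero.ne D)
    refine ⟨x⁻¹, ?_, ?_⟩
    · have := mul_mem (pow_mem_Nm y x⁻¹) (pow_mem hx D')
      have e2 : x⁻¹ ^ D * x ^ D' = x⁻¹ := by
        rw [hD', pow_succ', mul_assoc, ← mul_pow, inv_mul_cancel₀ hx0, one_pow, mul_one]
      rwa [e2] at this
    · have hw0 := w.ne_zero
      rw [Units.val_inv_eq_inv_val, show (w : K)⁻¹ - x⁻¹ = -(w - x) / w / x by field_simp; ring,
        map_div₀, map_div₀, Valuation.map_neg, e, map_inv₀, div_lt_iff₀ hw, inv_mul_cancel₀ hw.ne',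
        div_lt_one₀ hw]
      exact h

namespace Dat

variable {d : Dat K D} {O : ValuationSubring K}

lemma Place.notMem_near [NeZero D] (h : d.Place O) (w : Kˣ)
    (hw : O.valuation (w - d.u) < O.valuation d.u) : w ∉ nearNm O d.y := by
  rintro ⟨x, hx, hx'⟩
  obtain ⟨c, rfl⟩ := (mem_Nm_iff _ _).1 hx
  have e : O.valuation w = O.valuation d.u := O.valuation.map_eq_of_sub_lt hw
  have h1 : O.valuation (nu d.y c - d.u) < O.valuation d.u := by
    rw [show nu d.y c - d.u = (w - d.u) - (w - nu d.y c) by ring]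
    exact O.valuation.map_sub_lt hw (e ▸ hx')
  exact absurd (h.far c) (not_le.2 (by rwa [O.valuation.map_eq_of_sub_lt h1]))

lemma Place.mem_near [NeZero D] (h : d.Place O) (y : Matrix (Fin D) (Fin D) K)
    (hy : ∀ r c, O.valuation (y r c - d.y r c) < O.valuation d.π) (w : Kˣ) (hw : (w : K) ∈ Nm y) :
    w ∈ nearNm O d.y := by
  obtain ⟨c, hc⟩ := (mem_Nm_iff _ _).1 hw
  change (w : K) = nu y c at hc
  obtain ⟨i0, -, hi0⟩ := exists_max_image univ (fun i => O.valuation (c i)) univ_nonempty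
  have hc0 : c i0 ≠ 0 := by
    intro h0
    have : ∀ i, c i = 0 := fun i => by simpa [h0] using hi0 i (mem_univ i)
    simp [nu, this] at hc
  have hc' : ∀ i, c i / c i0 ∈ O := fun i => by
    rw [← O.valuation_le_one_iff, map_div₀]
    exact div_le_one_of_le₀ (hi0 i (mem_univ i)) zero_le
  have hyO : ∀ r c, y r c ∈ O := fun r c => by
    simpa using add_mem ((O.valuation_le_one_iff _).1 ((hy r c).trans h.lt).le)
      (h.memC (d.hy r c))
  let Y : Matrix (Fin D) (Fin D) (congSub O d.hπ) := Matrix.of fun r c =>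
    ⟨(y r c, d.y r c), hyO r c, h.memC (d.hy r c), hy r c⟩
  let c' : Fin D → congSub O d.hπ := fun i =>
    ⟨(c i / c i0, c i / c i0), hc' i, hc' i, by simpa [zero_lt_iff] using d.hπ⟩
  have h1 := map_nu ((RingHom.fst K K).comp (congSub O d.hπ).subtype) Y c'
  have h2 := map_nu ((RingHom.snd K K).comp (congSub O d.hπ).subtype) Y c'
  have h3 := (nu Y c').2.2.2
  change ((nu Y c' : congSub O d.hπ) : K × K).1 = nu y (fun i => c i / c i0) at h1
  change ((nu Y c' : congSub O d.hπ) : K × K).2 = nu d.y (fun i => c i / c i0) at h2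
  rw [h1, h2] at h3
  have h4 := h.aniso (fun i => c i / c i0) i0
  simp only [div_self hc0, map_one, one_pow, mul_one] at h4
  have h5 := h3.trans_le h4
  have h6 : (w : K) = c i0 ^ D * nu y (fun i => c i / c i0) := by
    rw [← nu_smul, hc]
    congr 1
    funext i
    field_simp
  refine ⟨c i0 ^ D * nu d.y (fun i => c i / c i0),
    mul_mem (pow_mem_Nm _ _) ((mem_Nm_iff _ _).2 ⟨_, rfl⟩), ?_⟩
  rw [h6, ← mul_sub, map_mul, map_mul, O.valuation.map_eq_of_sub_lt h5]
  exact mul_lt_mul_of_pos_left h5 (by simp [zero_lt_iff, hc0])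

lemma Fam.pat [NeZero D] {n N : ℕ} (h : d.Fam (Fin n → Fin N)) : Pat n D N K := by
  classical
  obtain ⟨O, hO, hsep⟩ := h
  let E : Matrix (Fin D) (Fin D) K := Matrix.single 0 0 1
  have hf : ∀ i j, i ≠ j → ¬ O i ≤ O j ∧ d.π⁻¹ ∈ O i ⊔ O j := by
    intro i j hij
    rcases hsep hij with h | h
    · exact ⟨(h.facts (hO i) (hO j)).1, (h.facts (hO i) (hO j)).2.2⟩
    · exact ⟨(h.facts (hO j) (hO i)).2.1, sup_comm (O i) (O j) ▸ (h.facts (hO j) (hO i)).2.2⟩
  have key := fun (k : Fin n) (t : Fin N) (r c : Fin D) =>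
    approx O (fun _ => d.π) (fun _ => d.hπ) (fun j => (hO j).mem)
      (fun i j hij => (hf i j hij).1) (fun i j hij => (hf i j hij).2)
      (fun j => if t = j k then d.y r c else E r c)
      (fun j => by split_ifs; exacts [(hO j).memC (d.hy r c), single_mem _ r c])
  choose y hy using key
  let Z : (Fin n → Fin N) → Fin n × Fin N → Matrix (Fin D) (Fin D) K :=
    fun j b => if b.2 = j b.1 then E else Matrix.of (y b.1 b.2)
  have hd : ∀ j, (O j).valuation ((tens (Z j) (d.u - 1)).det - d.u) < (O j).valuation d.u := by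
    intro j
    refine det_tens_cong _ d.hu ((hO j).memC d.huC) _ fun b r c => ?_
    by_cases hb : b.2 = j b.1
    · simpa [Z, hb, E, zero_lt_iff] using d.hu
    · simpa [Z, hb, E] using (hy b.1 b.2 r c j).trans_le (hO j).le_u
  have hd0 : ∀ j, (tens (Z j) (d.u - 1)).det ≠ 0 := by
    intro j h0
    simpa [h0] using hd j
  refine pat_of_pattern (fun k t => Matrix.of (y k t)) (fun j => Units.mk0 _ (hd0 j))
    (fun j => nearNm (O j) d.y) (fun j k t ht => ?_)
    (fun j k => (hO j).mem_near _ fun r c => ?_) fun j => (hO j).notMem_near _ (hd j)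
  · simpa [Z, ht] using det_tens_mem (Z j) (d.u - 1) (k, t)
  · simpa using hy k (j k) r c j

end Dat

end Pat

section Hull

variable {K : Type} [Field K] {D : ℕ}

namespace Dat

variable (d : Dat K D)

/-- Stages of the ring generated by `S` and `z`. -/
def B (z : K) : ℕ → Set K
  | 0 => d.S ∪ {w | w = z ∨ w = 0 ∨ w = 1 ∨ w = -1}
  | k + 1 => {w | ∃ a ∈ B z k, ∃ b ∈ B z k, ∃ c ∈ B z k, w = a + b * c}

/-- Stages of the intersection of all places. -/
def X (k : ℕ) : Set K :=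
  {x | x = 0 ∨ ∃ a ∈ d.B x⁻¹ k, ∃ b ∈ d.B x⁻¹ k, 1 = d.π * a + x⁻¹ * b}

/-- The intersection of all places. -/
def A : Set K := {x | ∀ O, d.Place O → x ∈ O}

variable {d}

lemma zero_mem_B (z : K) : ∀ k, 0 ∈ d.B z k
  | 0 => Or.inr (Or.inr (Or.inl rfl))
  | k + 1 => ⟨0, zero_mem_B z k, 0, zero_mem_B z k, 0, zero_mem_B z k, by simp⟩

lemma B_mono (z : K) : Monotone (d.B z) :=
  monotone_nat_of_le_succ fun k w hw => ⟨w, hw, 0, zero_mem_B z k, 0, zero_mem_B z k, by simp⟩

lemma X_mono : Monotone d.X := by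
  rintro k l hkl x (h | ⟨a, ha, b, hb, h⟩)
  · exact Or.inl h
  · exact Or.inr ⟨a, B_mono _ hkl ha, b, B_mono _ hkl hb, h⟩

lemma B_subset {O : ValuationSubring K} (h : d.Place O) {z : K} (hz : z ∈ O) :
    ∀ k, ∀ w ∈ d.B z k, w ∈ O
  | 0 => by
    rintro w (hw | rfl | rfl | rfl | rfl)
    exacts [h.1 w hw, hz, zero_mem _, one_mem _, neg_mem (one_mem _)]
  | k + 1 => by
    rintro w ⟨a, ha, b, hb, c, hc, rfl⟩
    exact add_mem (B_subset h hz k a ha) (mul_mem (B_subset h hz k b hb) (B_subset h hz k c hc))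

lemma X_subset_A (k : ℕ) : d.X k ⊆ d.A := by
  rintro x (rfl | ⟨a, ha, b, hb, h⟩) O hO
  · exact zero_mem _
  by_contra hx
  have h1 : O.valuation x⁻¹ < 1 := O.mem_nonunits_iff.1 (O.inv_mem_nonunits_iff.2 (Or.inr hx))
  have h2 : x⁻¹ ∈ O := (O.valuation_le_one_iff _).1 h1.le
  have h3 := O.valuation.map_add_lt (valuation_mul_lt O hO.lt (B_subset hO h2 k a ha))
    (valuation_mul_lt O h1 (B_subset hO h2 k b hb))
  rw [← h, map_one] at h3
  exact lt_irrefl _ h3

variable (d) in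
/-- The ring generated by `S` and `z`. -/
def ringB (z : K) : Subring K where
  carrier := {w | ∃ k, w ∈ d.B z k}
  zero_mem' := ⟨0, zero_mem_B z 0⟩
  one_mem' := ⟨0, Or.inr (Or.inr (Or.inr (Or.inl rfl)))⟩
  add_mem' := by
    rintro a b ⟨k, ha⟩ ⟨l, hb⟩
    exact ⟨max k l + 1, a, B_mono z (le_max_left k l) ha, b, B_mono z (le_max_right k l) hb, 1,
      B_mono z (Nat.zero_le _) (Or.inr (Or.inr (Or.inr (Or.inl rfl)))), by simp⟩
  mul_mem' := by
    rintro a b ⟨k, ha⟩ ⟨l, hb⟩
    exact ⟨max k l + 1, 0, zero_mem_B _ _, a, B_mono z (le_max_left k l) ha, b,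
      B_mono z (le_max_right k l) hb, by simp⟩
  neg_mem' := by
    rintro a ⟨k, ha⟩
    exact ⟨k + 1, 0, zero_mem_B _ _, -1,
      B_mono z (Nat.zero_le _) (Or.inr (Or.inr (Or.inr (Or.inr rfl)))), a, ha, by simp⟩

lemma A_subset_X {x : K} (hx : x ∈ d.A) : ∃ k, x ∈ d.X k := by
  by_cases hx0 : x = 0
  · exact ⟨0, Or.inl hx0⟩
  have hS : ∀ w ∈ d.S, w ∈ d.ringB x⁻¹ := fun w hw => ⟨0, Or.inl hw⟩
  have hπ : d.π ∈ d.ringB x⁻¹ := by
    have := mul_mem (hS _ (Or.inl (Or.inl d.huC))) (hS _ (Or.inl (Or.inl d.hπC)))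
    rwa [mul_div_cancel₀ _ d.hu] at this
  have hz : x⁻¹ ∈ d.ringB x⁻¹ := ⟨0, Or.inr (Or.inl rfl)⟩
  by_cases hI : Ideal.span {(⟨_, hπ⟩ : d.ringB x⁻¹), ⟨_, hz⟩} = ⊤
  · obtain ⟨⟨a, k, ha⟩, ⟨b, l, hb⟩, h⟩ :=
      Ideal.mem_span_pair.1 ((Ideal.eq_top_iff_one _).1 hI)
    refine ⟨max k l, Or.inr ⟨a, B_mono _ (le_max_left k l) ha, b, B_mono _ (le_max_right k l) hb,
      ?_⟩⟩
    have := congrArg Subtype.val h
    simp only [Subring.coe_add, Subring.coe_mul, OneMemClass.coe_one] at this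
    rw [← this]
    ring
  · obtain ⟨O, h1, h2⟩ := Ideal.image_subset_nonunits_valuationSubring _ hI
    have h3 : d.π ∈ O.nonunits := h2 ⟨⟨_, hπ⟩, Ideal.subset_span (by simp), rfl⟩
    have h4 : x⁻¹ ∈ O.nonunits := h2 ⟨⟨_, hz⟩, Ideal.subset_span (by simp), rfl⟩
    exact absurd (hx O ⟨fun w hw => h1 (hS w hw), (O.mem_nonunits_iff_or.1 h3).resolve_left d.hπ⟩)
      ((O.inv_mem_nonunits_iff.1 h4).resolve_left hx0)

variable (d) in
/-- No stage contains `π A`. -/
def Bad : Prop := ∀ k, ∃ x ∈ d.A, d.π * x ∉ d.X k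

variable (d) in
/-- Transport of the data along a field embedding. -/
def map {L : Type} [Field L] (f : K →+* L) (g1 : ∀ c, nu (d.y.map f) c = 0 → c = 0)
    (g2 : ∀ c, nu (d.y.map f) c ≠ f d.u) : Dat L D where
  y := d.y.map f
  u := f d.u
  π := f d.π
  C := f '' d.C
  fin := d.fin.image f
  hu := (map_ne_zero f).2 d.hu
  hπ := (map_ne_zero f).2 d.hπ
  hy := fun r c => ⟨_, d.hy r c, rfl⟩
  huC := ⟨_, d.huC, rfl⟩
  hπC := ⟨_, d.hπC, map_div₀ _ _ _⟩
  g1 := g1
  g2 := g2

lemma A_map {L : Type} [Field L] (f : K →+* L) (g1 : ∀ c, nu (d.y.map f) c = 0 → c = 0)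
    (g2 : ∀ c, nu (d.y.map f) c ≠ f d.u) {x : K} (hx : x ∈ d.A) : f x ∈ (d.map f g1 g2).A := by
  intro O hO
  refine hx (O.comap f) ⟨fun w hw => hO.1 _ ?_, fun h => hO.2 (by simpa [map] using h)⟩
  rcases hw with (hw | ⟨c, i, rfl⟩) | ⟨c, rfl⟩
  · exact Or.inl (Or.inl ⟨w, hw, rfl⟩)
  · exact Or.inl (Or.inr ⟨fun i => f (c i), i, by simp [map, map_nu]⟩)
  · exact Or.inr ⟨fun i => f (c i), by simp [map, map_nu]⟩

variable (d) in
/-- Enlarging the finite set of constants. -/
def enlarge (C' : Set K) (hC' : C'.Finite) : Dat K D :=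
  { d with
    C := d.C ∪ C'
    fin := d.fin.union hC'
    hy := fun r c => Or.inl (d.hy r c)
    huC := Or.inl d.huC
    hπC := Or.inl d.hπC }

lemma place_enlarge {C' : Set K} (hC' : C'.Finite) {O : ValuationSubring K} :
    (d.enlarge C' hC').Place O ↔ d.Place O ∧ ∀ x ∈ C', x ∈ O := by
  constructor
  · intro h
    refine ⟨⟨fun x hx => h.1 x ?_, h.2⟩, fun x hx => h.memC (Or.inr hx)⟩
    rcases hx with (hx | hx) | hx
    exacts [Or.inl (Or.inl (Or.inl hx)), Or.inl (Or.inr hx), Or.inr hx]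
  · rintro ⟨h, h'⟩
    refine ⟨fun x hx => ?_, h.2⟩
    rcases hx with ((hx | hx) | hx) | hx
    exacts [h.memC hx, h' x hx, h.1 x (Or.inl (Or.inr hx)), h.1 x (Or.inr hx)]

/-- If separated families are bounded, finitely many constants isolate a given place. -/
lemma exists_isolate {M : ℕ} (hM : ¬ d.Fam (Fin M)) {O : ValuationSubring K} (hO : d.Place O) :
    ∃ (C' : Set K) (hC' : C'.Finite), (d.enlarge C' hC').Place O ∧
      ∀ x ∈ O, d.π * x ∈ (d.enlarge C' hC').A := by
  classical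
  let P : ℕ → Prop := fun M => ∃ W : Fin M → ValuationSubring K, (∀ j, d.Place (W j)) ∧
    (Pairwise fun i j => d.Sep (W i) (W j) ∨ d.Sep (W j) (W i)) ∧
      ∀ i, d.Sep O (W i) ∨ d.Sep (W i) O
  have h0 : P 0 := ⟨Fin.elim0, fun j => j.elim0, fun j => j.elim0, fun j => j.elim0⟩
  have h1 : ∃ M, ¬ P M := ⟨M, fun ⟨W, h1, h2, _⟩ => hM ⟨W, h1, h2⟩⟩
  have h2 : Nat.find h1 ≠ 0 := fun h => Nat.find_spec h1 (h ▸ h0)
  obtain ⟨m, hm⟩ := Nat.exists_eq_succ_of_ne_zero h2
  obtain ⟨W, hW, hW', hWO⟩ : P m := not_not.1 (Nat.find_min h1 (by omega))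
  have hmax : ¬ P (m + 1) := by
    have := Nat.find_spec h1
    rwa [hm] at this
  have hc : ∀ i, d.Sep O (W i) := by
    intro i
    rcases hWO i with h | h
    · exact h
    · obtain ⟨h3, h4, h5⟩ := h.facts (hW i) hO
      obtain ⟨x, hx, hx'⟩ := exists_sep h3 h4 one_ne_zero d.hπ (by simp) (sup_comm O (W i) ▸ h5)
      rw [map_one] at hx
      exact ⟨x, (O.valuation_le_one_iff x).1 hx.le, fun h =>
        absurd (((W i).valuation_le_one_iff _).2 h) (not_le.2 hx')⟩
  choose c hc hc' using hc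
  refine ⟨Set.range c, Set.finite_range c, (place_enlarge _).2 ⟨hO, by rintro _ ⟨i, rfl⟩; exact hc i⟩,
    fun x hx O' hO' => ?_⟩
  obtain ⟨hO', hO''⟩ := (place_enlarge _).1 hO'
  by_contra hx'
  have h3 : ∀ i, d.Sep O' (W i) := fun i => ⟨c i, hO'' _ ⟨i, rfl⟩, hc' i⟩
  refine hmax ⟨Fin.cons O' W, Fin.cases hO' hW, ?_, Fin.cases (Or.inl ⟨x, hx, hx'⟩) hWO⟩
  intro i j hij
  induction i using Fin.cases with
  | zero =>
    induction j using Fin.cases with
    | zero => exact absurd rfl hij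
    | succ j => exact Or.inl (h3 j)
  | succ i =>
    induction j using Fin.cases with
    | zero => exact Or.inr (h3 i)
    | succ j => exact hW' fun h => hij (congrArg _ h)

end Dat

end Hull

end Pool.Agent.MP_829a8f_lc

end MrgPart0

-- ======== part 1: formerly Pool.Agent.MP_829a8f_lc.Ultra
section MrgPart1

/-!
Ultrapowers and definability: in a `NIP_n` field a valuation ring with a norm obstruction is
sandwiched by a definable set.
-/

namespace Pool.Agent.MP_829a8f_lc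

section Ultra

open Filter Finset

variable {K : Type} [Field K] {D : ℕ}

/-- The ultrapower. -/
abbrev Up (K : Type) := Germ (hyperfilter ℕ : Filter ℕ) K

/-- The class of a sequence. -/
noncomputable def cl : (ℕ → K) →+* Up K := Germ.coeRingHom _

/-- The diagonal embedding. -/
noncomputable def dg : K →+* Up K := cl.comp (Pi.constRingHom ℕ K)

lemma cl_surj (w : Up K) : ∃ x, cl x = w := Germ.inductionOn w fun x => ⟨x, rfl⟩

lemma cl_eq {x y : ℕ → K} : cl x = cl y ↔ ∀ᶠ t in hyperfilter ℕ, x t = y t := Germ.coe_eq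

lemma cl_inv (x : ℕ → K) : cl x⁻¹ = (cl x)⁻¹ := rfl

lemma cl_div (x y : ℕ → K) : cl (x / y) = cl x / cl y := rfl

lemma dg_eq (x : K) : dg x = cl fun _ => x := rfl

lemma nu_cl (Y : Matrix (Fin D) (Fin D) (ℕ → K)) (c : Fin D → ℕ → K) :
    nu (Y.map cl) (fun i => cl (c i)) = cl fun t => nu (Y.map fun f => f t) fun i => c i t := by
  rw [← map_nu]
  congr 1
  funext t
  exact map_nu (Pi.evalRingHom (fun _ => K) t) Y c

lemma nu_dg (y : Matrix (Fin D) (Fin D) K) (c : Fin D → ℕ → K) :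
    nu (y.map dg) (fun i => cl (c i)) = cl fun t => nu y fun i => c i t :=
  nu_cl (y.map fun a _ => a) c

lemma cl_surj_pi {ι : Type} (w : ι → Up K) : ∃ x : ι → ℕ → K, w = fun i => cl (x i) := by
  choose x hx using fun i => cl_surj (w i)
  exact ⟨x, funext fun i => (hx i).symm⟩

/-- The ultrapower of a valuation ring. -/
def upV (O : ValuationSubring K) : ValuationSubring (Up K) where
  carrier := {w | Germ.LiftPred (· ∈ O) w}
  zero_mem' := Germ.liftPred_const (zero_mem O)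
  one_mem' := Germ.liftPred_const (one_mem O)
  add_mem' := by
    intro a b
    induction a, b using Germ.inductionOn₂
    exact fun ha hb => (Eventually.and ha hb).mono fun _ h => add_mem h.1 h.2
  mul_mem' := by
    intro a b
    induction a, b using Germ.inductionOn₂
    exact fun ha hb => (Eventually.and ha hb).mono fun _ h => mul_mem h.1 h.2
  neg_mem' := by
    intro a
    induction a using Germ.inductionOn
    exact fun ha => Eventually.mono ha fun _ h => neg_mem h
  mem_or_inv_mem' := by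
    intro a
    induction a using Germ.inductionOn with
    | h x => exact Ultrafilter.eventually_or.1 (Eventually.of_forall fun t => O.mem_or_inv_mem (x t))

lemma cl_mem_upV {O : ValuationSubring K} {x : ℕ → K} :
    cl x ∈ upV O ↔ ∀ᶠ t in hyperfilter ℕ, x t ∈ O := Iff.rfl

lemma dg_mem_upV {O : ValuationSubring K} {x : K} : dg x ∈ upV O ↔ x ∈ O :=
  (cl_mem_upV (x := fun _ => x)).trans eventually_const

lemma cl_mem_PNm [NeZero D] {n : ℕ} (Y : Fin n → Matrix (Fin D) (Fin D) (ℕ → K)) (x : ℕ → K) :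
    cl x ∈ PNm (fun k => (Y k).map cl) ↔
      ∀ᶠ t in hyperfilter ℕ, x t ∈ PNm fun k => (Y k).map fun f => f t := by
  have key : ∀ (L : Type) [Field L] (y : Fin n → Matrix (Fin D) (Fin D) L) (x : L),
      x ∈ PNm y ↔ ∃ c : Fin n × Fin D → L, x = ∏ k, nu (y k) fun i => c (k, i) := by
    intro L _ y x
    constructor
    · rintro ⟨z, hz, hx⟩
      choose c hc using fun k => (mem_Nm_iff _ _).1 (hz k)
      exact ⟨fun p => c p.1 p.2, by rw [hx]; exact prod_congr rfl fun k _ => hc k⟩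
    · rintro ⟨c, hc⟩
      exact ⟨_, fun k => (mem_Nm_iff _ _).2 ⟨fun i => c (k, i), rfl⟩, hc⟩
  have h2 : ∀ c : Fin n × Fin D → ℕ → K,
      cl x = ∏ k, nu ((Y k).map cl) (fun i => cl (c (k, i))) ↔ ∀ᶠ t in hyperfilter ℕ,
        x t = ∏ k, nu ((Y k).map fun f => f t) fun i => c (k, i) t := by
    intro c
    simp only [nu_cl, ← map_prod, cl_eq, Finset.prod_apply]
  simp only [key]
  constructor
  · rintro ⟨c, hc⟩
    obtain ⟨c, rfl⟩ := cl_surj_pi c
    exact ((h2 c).1 hc).mono fun t ht => ⟨fun p => c p t, ht⟩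
  · intro h
    choose! c hc using fun t (ht : ∃ c : Fin n × Fin D → K,
      x t = ∏ k, nu ((Y k).map fun f => f t) fun i => c (k, i)) => ht
    exact ⟨fun p => cl fun t => c t p, (h2 fun p t => c t p).2 (h.mono hc)⟩

lemma pat_down [NeZero D] {n N : ℕ} (h : Pat n D N (Up K)) : Pat n D N K := by
  obtain ⟨y, b, h⟩ := h
  choose Y hY using fun k t r c => cl_surj (y k t r c)
  choose x hx using fun s => cl_surj (b s)
  have h1 : ∀ (s : Set (Fin n → Fin N)) (j : Fin n → Fin N), ∀ᶠ t in hyperfilter ℕ,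
      (x s t ∈ PNm fun k => (Matrix.of (Y k (j k))).map fun f => f t) ↔ j ∈ s := by
    intro s j
    have h2 := cl_mem_PNm (fun k => Matrix.of (Y k (j k))) (x s)
    have h3 : (fun k => (Matrix.of (Y k (j k))).map cl) = fun k => y k (j k) := by
      funext k
      ext r c
      exact hY _ _ r c
    rw [h3, hx, h s j] at h2
    by_cases hj : j ∈ s
    · exact (h2.1 hj).mono fun t ht => iff_of_true ht hj
    · exact (Ultrafilter.eventually_not.2 (mt h2.2 hj)).mono fun t ht => iff_of_false ht hj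
  obtain ⟨t, ht⟩ := (eventually_all.2 fun s => eventually_all.2 (h1 s)).exists
  exact ⟨fun k i => (Matrix.of (Y k i)).map fun f => f t, fun s => x s t, ht⟩

namespace Dat

variable (d : Dat K D)

/-- The data in the ultrapower. -/
noncomputable def up : Dat (Up K) D := d.map dg
  (fun c hc => by
    obtain ⟨c, rfl⟩ := cl_surj_pi c
    rw [nu_dg, ← map_zero cl, cl_eq] at hc
    funext i
    exact cl_eq.2 (hc.mono fun t ht => congrFun (d.g1 _ ht) i))
  (fun c hc => by
    obtain ⟨c, rfl⟩ := cl_surj_pi c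
    rw [nu_dg, dg_eq, cl_eq] at hc
    obtain ⟨t, ht⟩ := hc.exists
    exact d.g2 _ ht)

variable {d}

lemma S_down {x : ℕ → K} (h : cl x ∈ d.up.S) : ∀ᶠ t in hyperfilter ℕ, x t ∈ d.S := by
  rcases h with (⟨c, hc, h⟩ | ⟨c, i, h⟩) | ⟨c, h⟩
  · exact (cl_eq.1 h).mono fun t ht => Or.inl (Or.inl (ht ▸ hc))
  · obtain ⟨c, rfl⟩ := cl_surj_pi c
    change cl x = dg d.π * cl (c i) ^ D / nu (d.y.map dg) _ at h
    rw [nu_dg, dg_eq, ← map_pow, ← map_mul, ← cl_div] at h
    exact (cl_eq.1 h).mono fun t ht => Or.inl (Or.inr ⟨fun i => c i t, i, ht⟩)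
  · obtain ⟨c, rfl⟩ := cl_surj_pi c
    change cl x = nu (d.y.map dg) _ / (nu (d.y.map dg) _ - dg d.u) at h
    rw [nu_dg, dg_eq, ← map_sub, ← cl_div] at h
    exact (cl_eq.1 h).mono fun t ht => Or.inr ⟨fun i => c i t, ht⟩

lemma B_down (z : ℕ → K) : ∀ (k : ℕ) (x : ℕ → K), cl x ∈ d.up.B (cl z) k →
    ∀ᶠ t in hyperfilter ℕ, x t ∈ d.B (z t) k
  | 0 => by
    rintro x (h | h | h | h | h)
    · exact (S_down h).mono fun t ht => Or.inl ht
    · exact (cl_eq.1 h).mono fun t ht => Or.inr (Or.inl ht)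
    · exact (cl_eq.1 h).mono fun t ht => Or.inr (Or.inr (Or.inl ht))
    · exact (cl_eq.1 h).mono fun t ht => Or.inr (Or.inr (Or.inr (Or.inl ht)))
    · exact (cl_eq (y := -1).1 h).mono fun t ht => Or.inr (Or.inr (Or.inr (Or.inr ht)))
  | k + 1 => by
    rintro x ⟨a, ha, b, hb, c, hc, h⟩
    obtain ⟨a, rfl⟩ := cl_surj a
    obtain ⟨b, rfl⟩ := cl_surj b
    obtain ⟨c, rfl⟩ := cl_surj c
    rw [← map_mul, ← map_add] at h
    filter_upwards [B_down z k a ha, B_down z k b hb, B_down z k c hc, cl_eq.1 h] with t h1 h2 h3 h4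
    exact ⟨_, h1, _, h2, _, h3, h4⟩

lemma X_down {k : ℕ} {x : ℕ → K} (h : cl x ∈ d.up.X k) :
    ∀ᶠ t in hyperfilter ℕ, x t ∈ d.X k := by
  rcases h with h | ⟨a, ha, b, hb, h⟩
  · exact (cl_eq.1 h).mono fun t ht => Or.inl ht
  · obtain ⟨a, rfl⟩ := cl_surj a
    obtain ⟨b, rfl⟩ := cl_surj b
    change 1 = dg d.π * cl a + (cl x)⁻¹ * cl b at h
    rw [← cl_inv, dg_eq, ← map_mul, ← map_mul, ← map_add, ← map_one cl] at h
    filter_upwards [B_down x⁻¹ k a ha, B_down x⁻¹ k b hb, cl_eq.1 h] with t h1 h2 h3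
    exact Or.inr ⟨_, h1, _, h2, h3⟩

lemma Place.up {O : ValuationSubring K} (h : d.Place O) : d.up.Place (upV O) := by
  refine ⟨fun w hw => ?_, fun h' => h.2 (dg_mem_upV.1 (by rw [map_inv₀]; exact h'))⟩
  obtain ⟨x, rfl⟩ := cl_surj w
  exact cl_mem_upV.2 ((S_down hw).mono fun t ht => h.1 _ ht)

lemma Sep.up {O O' : ValuationSubring K} (h : d.Sep O O') : d.up.Sep (upV O) (upV O') := by
  obtain ⟨c, hc, hc'⟩ := h
  exact ⟨dg c, dg_mem_upV.2 hc, fun h => hc' (dg_mem_upV.1 (by rw [map_mul]; exact h))⟩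

lemma Bad.up (h : d.Bad) : d.up.Bad := by
  intro k
  obtain ⟨x, hx, hx'⟩ := h k
  refine ⟨dg x, A_map _ _ _ hx, fun h => hx' ?_⟩
  exact eventually_const.1 (X_down (x := fun _ => d.π * x) h)

lemma Bad.fam_up (h : d.Bad) {M : ℕ} (hM : d.Fam (Fin M)) : d.up.Fam (Fin (M + 1)) := by
  obtain ⟨W, hW, hW'⟩ := hM
  choose x hx hx' using h
  have h1 : d.up.π * cl x ∉ d.up.A := by
    intro h
    obtain ⟨k, hk⟩ := A_subset_X h
    obtain ⟨t, ht, ht'⟩ := ((X_down (x := fun t => d.π * x t) hk).and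
      (Nat.hyperfilter_le_atTop (eventually_ge_atTop k))).exists
    exact hx' t (X_mono ht' ht)
  simp only [A, Set.mem_ofPred_eq, not_forall] at h1
  obtain ⟨O', hO', hx''⟩ := h1
  have h3 : ∀ i, d.up.Sep (upV (W i)) O' := fun i =>
    ⟨cl x, cl_mem_upV.2 (Eventually.of_forall fun t => hx t _ (hW i)), hx''⟩
  refine ⟨Fin.cons O' fun i => upV (W i), Fin.cases hO' fun i => (hW i).up, ?_⟩
  intro i j hij
  induction i using Fin.cases with
  | zero =>
    induction j using Fin.cases with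
    | zero => exact absurd rfl hij
    | succ j => exact Or.inr (h3 j)
  | succ i =>
    induction j using Fin.cases with
    | zero => exact Or.inl (h3 i)
    | succ j => exact (hW' fun h => hij (congrArg _ h)).imp Sep.up Sep.up

lemma Bad.iterate [NeZero D] (h : d.Bad) (n M : ℕ) :
    ∃ (L : Type) (_ : Field L) (e : Dat L D), e.Bad ∧ e.Fam (Fin M) ∧
      ∀ N, Pat n D N L → Pat n D N K := by
  induction M with
  | zero => exact ⟨K, _, d, h, ⟨Fin.elim0, fun j => j.elim0, fun j => j.elim0⟩, fun _ h => h⟩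
  | succ M ih =>
    obtain ⟨L, _, e, h1, h2, h3⟩ := ih
    exact ⟨Up L, _, e.up, h1.up, h1.fam_up h2, fun N h => h3 N (pat_down h)⟩

lemma Fam.reindex {J J' : Type} (h : d.Fam J) (e : J' ≃ J) : d.Fam J' := by
  obtain ⟨W, hW, hW'⟩ := h
  exact ⟨W ∘ e, fun j => hW _, fun i j hij => hW' (e.injective.ne hij)⟩

/-- A place of a norm obstruction in a `NIP_n` field is sandwiched by a stage `X k`. -/
theorem exists_sandwich [NeZero D] {n : ℕ} (hK : NIPn n K) {O : ValuationSubring K}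
    (hO : d.Place O) : ∃ (e : Dat K D) (k : ℕ), (∀ x ∈ O, d.π ^ 2 * x ∈ e.X k) ∧ ∀ x ∈ e.X k, x ∈ O := by
  obtain ⟨N, hN⟩ := exists_not_pat D hK
  obtain ⟨C', hC', h1, h2⟩ := exists_isolate (M := Fintype.card (Fin n → Fin N))
    (fun h => hN (h.reindex (Fintype.equivFin _)).pat) hO
  have h3 : ¬ (d.enlarge C' hC').Bad := by
    intro h
    obtain ⟨L, _, e, -, h4, h5⟩ := h.iterate n (Fintype.card (Fin n → Fin N))
    exact hN (h5 N (h4.reindex (Fintype.equivFin _)).pat)
  simp only [Bad, not_forall, not_exists, not_and, not_not] at h3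
  obtain ⟨k, hk⟩ := h3
  refine ⟨_, k, fun x hx => ?_, fun x hx => X_subset_A k hx O h1⟩
  rw [pow_two, mul_assoc]
  exact hk _ (h2 x hx)

end Dat

end Ultra

section Defin

open FirstOrder FirstOrder.Language FirstOrder.Ring

variable {K : Type} [Field K] [CompatibleRing K] {α β : Type}

/-- Definable predicates. -/
def Df (P : (α → K) → Prop) : Prop := (Set.univ : Set K).Definable Language.ring {v | P v}

/-- Definable functions. -/
def Fn (f : (α → K) → K) : Prop := Set.DefinableFun Language.ring (Set.univ : Set K) f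

variable {f g : (α → K) → K} {P Q : (α → K) → Prop}

lemma Fn.const (a : K) : Fn fun _ : α → K => a := definableFun_const _ _ (Set.mem_univ a)

lemma Fn.proj (i : α) : Fn fun v : α → K => v i := Set.DefinableFun.proj _

lemma Fn.term₂ (t : Language.ring.Term (Fin 2)) (hf : Fn f) (hg : Fn g) :
    Fn fun v => t.realize ![f v, g v] :=
  Set.DefinableFun.comp (g := fun v => ![f v, g v]) (Fin.forall_fin_two.2 ⟨hf, hg⟩)
    t.definableFun_realize.of_empty

lemma Fn.add (hf : Fn f) (hg : Fn g) : Fn fun v => f v + g v := by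
  have := Fn.term₂ (Term.var 0 + Term.var 1 : Language.ring.Term (Fin 2)) hf hg
  simp only [realize_add, Term.realize_var] at this
  exact this

lemma Fn.mul (hf : Fn f) (hg : Fn g) : Fn fun v => f v * g v := by
  have := Fn.term₂ (Term.var 0 * Term.var 1 : Language.ring.Term (Fin 2)) hf hg
  simp only [realize_mul, Term.realize_var] at this
  exact this

lemma Fn.sub (hf : Fn f) (hg : Fn g) : Fn fun v => f v - g v := by
  have := Fn.term₂ (Term.var 0 + -Term.var 1 : Language.ring.Term (Fin 2)) hf hg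
  simp only [realize_add, realize_neg, Term.realize_var, ← sub_eq_add_neg] at this
  exact this

lemma Fn.sum {ι : Type} (s : Finset ι) {F : ι → (α → K) → K} (h : ∀ i, Fn (F i)) :
    Fn fun v => ∑ i ∈ s, F i v := by
  classical
  induction s using Finset.induction_on with
  | empty => simpa using Fn.const 0
  | insert a s ha ih => simpa [Finset.sum_insert ha] using (h a).add ih

lemma Fn.prod {ι : Type} (s : Finset ι) {F : ι → (α → K) → K} (h : ∀ i, Fn (F i)) :
    Fn fun v => ∏ i ∈ s, F i v := by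
  classical
  induction s using Finset.induction_on with
  | empty => simpa using Fn.const 1
  | insert a s ha ih => simpa [Finset.prod_insert ha] using (h a).mul ih

lemma Fn.pow (hf : Fn f) (k : ℕ) : Fn fun v => f v ^ k := by
  simpa using Fn.prod (Finset.range k) (F := fun _ => f) fun _ => hf

lemma Df.eq (hf : Fn f) (hg : Fn g) : Df fun v => f v = g v := Set.DefinableFun.ofPred_eq hf hg

lemma Df.and (hP : Df P) (hQ : Df Q) : Df fun v => P v ∧ Q v := Set.Definable.inter hP hQ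

lemma Df.or (hP : Df P) (hQ : Df Q) : Df fun v => P v ∨ Q v := Set.Definable.union hP hQ

lemma Df.congr (hP : Df P) (h : ∀ v, Q v ↔ P v) : Df Q := by
  rwa [show Q = P from funext fun v => propext (h v)]

lemma Df.all {ι : Type} [Finite ι] {P : ι → (α → K) → Prop} (h : ∀ i, Df (P i)) :
    Df fun v => ∀ i, P i v := by
  simpa only [Df, Set.ofPred_forall] using Set.definable_iInter_of_finite h

lemma Df.any {ι : Type} [Finite ι] {P : ι → (α → K) → Prop} (h : ∀ i, Df (P i)) :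
    Df fun v => ∃ i, P i v := by
  simpa only [Df, Set.ofPred_exists] using Set.definable_iUnion_of_finite h

lemma Df.ex [Finite β] {P : (α → K) → (β → K) → Prop}
    (h : Df fun w : α ⊕ β → K => P (fun a => w (Sum.inl a)) fun b => w (Sum.inr b)) :
    Df fun v => ∃ u, P v u :=
  Set.Definable.exists_of_finite h

lemma Fn.inl [Finite α] (hf : Fn f) : Fn fun w : α ⊕ β → K => f fun a => w (Sum.inl a) :=
  Set.DefinableFun.comp (g := fun (w : α ⊕ β → K) a => w (Sum.inl a)) (fun _ => Fn.proj _) hf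

lemma Fn.inv (hf : Fn f) : Fn fun v => (f v)⁻¹ := by
  have h : Fn fun v : Fin 1 → K => (v 0)⁻¹ := by
    have h1 : Df fun w : Option (Fin 1) → K =>
        (w (some 0) = 0 ∧ w none = 0) ∨ w (some 0) * w none = 1 :=
      ((Df.eq (Fn.proj _) (Fn.const _)).and (Df.eq (Fn.proj _) (Fn.const _))).or
        (Df.eq ((Fn.proj _).mul (Fn.proj _)) (Fn.const _))
    refine h1.congr (Q := fun w => (w (some 0))⁻¹ = w none) fun w => ?_
    by_cases h0 : w (some 0) = 0
    · simp [h0, eq_comm]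
    · simp only [h0, false_and, false_or]
      exact ⟨fun h => h ▸ mul_inv_cancel₀ h0, fun h => (eq_inv_of_mul_eq_one_right h).symm⟩
  exact Set.DefinableFun.comp (g := fun v _ => f v) (fun _ => hf) h

lemma Fn.div (hf : Fn f) (hg : Fn g) : Fn fun v => f v / g v := by
  simpa only [div_eq_mul_inv] using hf.mul hg.inv

lemma Fn.nu {D : ℕ} (y : Matrix (Fin D) (Fin D) K) {c : (α → K) → Fin D → K}
    (hc : ∀ i, Fn fun v => c v i) : Fn fun v => nu y (c v) := by
  simp only [Pool.Agent.MP_829a8f_lc.nu, Matrix.det_apply', Matrix.sum_apply, Matrix.smul_apply,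
    smul_eq_mul]
  exact Fn.sum _ fun σ => (Fn.const _).mul (Fn.prod _ fun i => Fn.sum _ fun l =>
    (hc l).mul (Fn.const _))

lemma Df.mem_finite {s : Set K} (hs : s.Finite) (hf : Fn f) : Df fun v => f v ∈ s := by
  have := hs.to_subtype
  exact (Df.any fun i : s => Df.eq hf (Fn.const i.1)).congr fun v => by simp

namespace Dat

variable {D : ℕ} (d : Dat K D)

lemma df_S [Finite α] (hf : Fn f) : Df fun v => f v ∈ d.S :=
  ((Df.mem_finite d.fin hf).or (Df.ex (Df.any fun i => Df.eq hf.inl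
    (((Fn.const _).mul ((Fn.proj _).pow _)).div (Fn.nu _ fun _ => Fn.proj _))))).or
    (Df.ex (Df.eq hf.inl ((Fn.nu _ fun _ => Fn.proj _).div
      ((Fn.nu _ fun _ => Fn.proj _).sub (Fn.const _)))))

lemma df_B (k : ℕ) : ∀ {α : Type} [Finite α] {f g : (α → K) → K}, Fn f → Fn g →
    Df fun v => f v ∈ d.B (g v) k := by
  induction k with
  | zero =>
    exact fun hf hg => (d.df_S hf).or ((Df.eq hf hg).or ((Df.eq hf (Fn.const _)).or
      ((Df.eq hf (Fn.const _)).or (Df.eq hf (Fn.const _)))))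
  | succ k ih =>
    intro α _ f g hf hg
    have h : Df fun v => ∃ u : Fin 3 → K, u 0 ∈ d.B (g v) k ∧ u 1 ∈ d.B (g v) k ∧
        u 2 ∈ d.B (g v) k ∧ f v = u 0 + u 1 * u 2 :=
      Df.ex ((ih (Fn.proj _) hg.inl).and ((ih (Fn.proj _) hg.inl).and ((ih (Fn.proj _) hg.inl).and
        (Df.eq hf.inl ((Fn.proj _).add ((Fn.proj _).mul (Fn.proj _)))))))
    exact h.congr fun v => ⟨fun ⟨a, ha, b, hb, c, hc, h⟩ => ⟨![a, b, c], ha, hb, hc, h⟩,
      fun ⟨u, ha, hb, hc, h⟩ => ⟨_, ha, _, hb, _, hc, h⟩⟩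

lemma df_X [Finite α] (k : ℕ) (hf : Fn f) : Df fun v => f v ∈ d.X k := by
  have h : Df fun v => ∃ u : Fin 2 → K, u 0 ∈ d.B (f v)⁻¹ k ∧ u 1 ∈ d.B (f v)⁻¹ k ∧
      1 = d.π * u 0 + (f v)⁻¹ * u 1 :=
    Df.ex ((d.df_B k (Fn.proj _) hf.inv.inl).and ((d.df_B k (Fn.proj _) hf.inv.inl).and
      (Df.eq (Fn.const _) (((Fn.const _).mul (Fn.proj _)).add (hf.inv.inl.mul (Fn.proj _))))))
  exact ((Df.eq hf (Fn.const 0)).or h).congr fun v => or_congr Iff.rfl
    ⟨fun ⟨a, ha, b, hb, h⟩ => ⟨![a, b], ha, hb, h⟩, fun ⟨u, ha, hb, h⟩ => ⟨_, ha, _, hb, h⟩⟩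

end Dat

/-- `NIP_n` applies to relations definable with parameters. -/
lemma exists_not_pattern {n : ℕ} (h : NIPn n K) {μ : Type} [Finite μ]
    (R : (μ → K) → (Fin n → μ → K) → Prop)
    (hR : Df fun v : Fin (n + 1) × μ → K => R (fun i => v (0, i)) fun k i => v (k.succ, i)) :
    ∃ N, ¬ ∃ (a : Fin n → Fin N → μ → K) (b : Set (Fin n → Fin N) → μ → K),
      ∀ s j, R (b s) (fun k => a k (j k)) ↔ j ∈ s := by
  obtain ⟨A, -, hA⟩ := Set.definable_iff_finitely_definable.1 hR
  obtain ⟨φ, hφ⟩ := Set.definable_iff_exists_formula_sum.1 hA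
  obtain ⟨m, ⟨e⟩⟩ := Finite.exists_equiv_fin ((A : Set K) ⊕ μ)
  obtain ⟨N, hN⟩ := h m (φ.relabel
    (Sum.elim (fun c => (0, e (Sum.inl c))) fun p => (p.1, e (Sum.inr p.2))))
  refine ⟨N, fun ⟨a, b, hab⟩ => hN ⟨fun k t i => Sum.elim Subtype.val (a k t) (e.symm i),
    fun s i => Sum.elim Subtype.val (b s) (e.symm i), fun s j => ?_⟩⟩
  have h1 := Set.ext_iff.1 hφ
    (fun p => (Fin.cons (α := fun _ => μ → K) (b s) (fun i => a i (j i))) p.1 p.2)
  simp only [Set.mem_ofPred_eq, Fin.cons_zero, Fin.cons_succ] at h1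
  rw [Formula.realize_relabel, ← hab s j, h1]
  refine iff_of_eq (congrArg _ (funext ?_))
  rintro (c | ⟨k, i⟩)
  · simp
  · induction k using Fin.cases <;> simp

end Defin

section Obs

open Finset Polynomial IsLocalRing

variable {K : Type} [Field K] {D : ℕ} (O : ValuationSubring K)

/-- A norm obstruction at `O` at level `π`. -/
def Obs (D : ℕ) (π : K) : Prop := π ≠ 0 ∧ O.valuation π < 1 ∧
  ∃ (Y : Matrix (Fin D) (Fin D) K) (u : K), (∀ r c, Y r c ∈ O) ∧ u ∈ O ∧ u ≠ 0 ∧ π / u ∈ O ∧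
    (∀ c i, O.valuation π * O.valuation (c i) ^ D ≤ O.valuation (nu Y c)) ∧
    ∀ c, ¬ O.valuation (nu Y c - u) < O.valuation u

variable {O}

lemma Obs.sandwich [NeZero D] {n : ℕ} (hK : NIPn n K) {π : K} (h : Obs O D π) :
    ∃ (e : Dat K D) (k : ℕ), (∀ x ∈ O, π ^ 2 * x ∈ e.X k) ∧ ∀ x ∈ e.X k, x ∈ O := by
  obtain ⟨h0, h1, Y, u, hY, hu, hu0, hπu, hA, hB⟩ := h
  let d : Dat K D := ⟨Y, u, π, Set.range (fun q : Fin D × Fin D => Y q.1 q.2) ∪ {u, π / u},
    (Set.finite_range _).union (Set.toFinite _), hu0, h0, fun r c => Or.inl ⟨(r, c), rfl⟩,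
    Or.inr (Or.inl rfl), Or.inr (Or.inr rfl),
    fun c hc => funext fun i => by simpa [hc, h0, NeZero.ne D] using hA c i,
    fun c hc => hB c (by simpa [hc, zero_lt_iff] using hu0)⟩
  refine Dat.exists_sandwich (d := d) hK ⟨?_, ?_⟩
  · rintro x (((⟨q, rfl⟩ | rfl | rfl) | ⟨c, i, rfl⟩) | ⟨c, rfl⟩)
    exacts [hY _ _, hu, hπu, (O.valuation_le_one_iff _).1 (by
      rw [map_div₀, map_mul, map_pow]
      exact div_le_one_of_le₀ (hA c i) zero_le), (O.valuation_le_one_iff _).1 (by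
      rw [map_div₀]
      refine div_le_one_of_le₀ (not_lt.1 fun h => hB c ?_) zero_le
      rwa [O.valuation.map_eq_of_sub_lt (y := u) (by rwa [Valuation.map_sub_swap])])]
  · exact (O.mem_nonunits_iff_or.1 (O.mem_nonunits_iff.2 h1)).resolve_left h0

lemma integral_or {L : Type} [Field L] [Algebra K L]
    (hL : ∃! W : ValuationSubring L, W.comap (algebraMap K L) = O) (z : L) :
    IsIntegral O z ∨ IsIntegral O z⁻¹ := by
  obtain ⟨W, -, hW⟩ := hL
  have key : ∀ x : L, ¬ IsIntegral O x → x ∉ W := by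
    intro x hx
    have hx0 : x ≠ 0 := fun h => hx (h ▸ isIntegral_zero)
    let := invertibleOfNonzero hx0
    let B := Algebra.adjoin O {x⁻¹}
    let y : B.toSubring := ⟨x⁻¹, Algebra.subset_adjoin rfl⟩
    have : (maximalIdeal O).map (algebraMap _ B) + .span {y} ≠ ⊤ := fun eq => hx <|
      have ⟨q, hq, hqx⟩ := Algebra.exists_aeval_invOf_eq_zero_of_idealMap_adjoin_sup_span_eq_top _ _
        (maximalIdeal.isMaximal O).ne_top eq
      have H : IsUnit q.leadingCoeff := of_not_not fun h => by simpa using sub_mem h hq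
      ⟨.C H.unit⁻¹.1 * q, by simp [Polynomial.Monic], by simpa using .inr hqx⟩
    obtain ⟨V, hV, hV'⟩ := Ideal.image_subset_nonunits_valuationSubring (A := B.toSubring) _ this
    rw [← hW V (le_antisymm (fun a ha => ?_) fun a ha => hV (B.algebraMap_mem ⟨a, ha⟩))]
    · exact (V.inv_mem_nonunits_iff.mp <|
        hV' ⟨_, le_add_self (α := Ideal B) (Ideal.subset_span rfl), rfl⟩).resolve_left hx0
    · by_contra ha'
      obtain ⟨b, hb⟩ := O.mem_nonunits_iff_exists_mem_maximalIdeal.1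
        (O.inv_mem_nonunits_iff.2 (Or.inr ha'))
      have h2 : algebraMap K L a⁻¹ ∈ V.nonunits :=
        hV' ⟨_, le_self_add (α := Ideal B) (Ideal.mem_map_of_mem _ hb), rfl⟩
      rw [map_inv₀, V.inv_mem_nonunits_iff, map_eq_zero] at h2
      exact h2.elim (fun h => ha' (h ▸ zero_mem O)) fun h => h ha
  by_contra h
  rw [not_or] at h
  exact (W.mem_or_inv_mem z).elim (key _ h.1) (key _ h.2)

lemma exists_obs (hO : O ≠ ⊤) (L : Type) [Field L] [Algebra K L] [FiniteDimensional K L]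
    [Algebra.IsSeparable K L] (hL : ∃! W : ValuationSubring L, W.comap (algebraMap K L) = O)
    {u : K} (hu : u ≠ 0)
    (h : ∀ (z : L) (m : O), m ∈ maximalIdeal O → Algebra.norm K z ≠ u * (1 + m)) :
    ∃ π, Obs O (Module.finrank K L) π := by
  classical
  have hint : ∀ x : K, IsIntegral O x → x ∈ O := fun x hx => by
    obtain ⟨y, rfl⟩ := IsIntegrallyClosed.isIntegral_iff.1 hx
    exact y.2
  have hden : ∀ s : Finset K, ∃ t : O, t ≠ 0 ∧ ∀ x ∈ s, (t : K) * x ∈ O := fun s => by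
    obtain ⟨t, ht, ht'⟩ := exists_integral_multiples O K s
    exact ⟨t, ht, fun x hx => hint _ (ht' x hx)⟩
  obtain ⟨t, ht, ht'⟩ : ∃ t : K, t ≠ 0 ∧ t⁻¹ ∉ O := by
    obtain ⟨x, -, hx⟩ := SetLike.exists_of_lt (lt_top_iff_ne_top.2 hO)
    exact ⟨x⁻¹, fun h => hx (inv_eq_zero.1 h ▸ zero_mem O), by rwa [inv_inv]⟩
  have ht1 := O.mem_nonunits_iff.1 (O.mem_nonunits_iff_or.2 (Or.inr ht'))
  generalize hD' : Module.finrank K L = D
  have hD : D ≠ 0 := hD' ▸ Module.finrank_pos.ne'
  obtain ⟨Y, b', hY, hnu⟩ : ∃ (Y : Matrix (Fin D) (Fin D) K) (b' : Module.Basis (Fin D) K L),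
      (∀ i j, Y i j ∈ O) ∧ ∀ c, nu Y c = Algebra.norm K (∑ i, c i • b' i) := by
    let pb := Field.powerBasisOfFiniteOfSeparable K L
    let b := pb.basis.reindex (finCongr (pb.finrank.symm.trans hD'))
    obtain ⟨r, hr, hr'⟩ :=
      hden (univ.image fun q : Fin D × Fin D => Algebra.leftMulMatrix b pb.gen q.1 q.2)
    refine ⟨(r : K) • Algebra.leftMulMatrix b pb.gen,
      b.unitsSMul fun i => Units.mk0 (r : K) (by simpa using hr) ^ (i : ℕ), fun i j => ?_, fun c => ?_⟩
    · rw [Matrix.smul_apply, smul_eq_mul]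
      exact hr' _ (mem_image.2 ⟨(i, j), mem_univ _, rfl⟩)
    · simp [nu, Algebra.norm_eq_matrix_det b, Module.Basis.unitsSMul_apply, Units.smul_def,
        _root_.smul_pow, show ∀ i, b i = pb.gen ^ (i : ℕ) from fun i => by simp [b]]
  obtain ⟨s, hs, hs'⟩ := exists_integral_multiples O K (univ.image b'.traceDual)
  have hs0 : (s : K) ≠ 0 := by simpa using hs
  obtain ⟨w, hw, hw'⟩ := hden {u}
  have hw0 : (w : K) ≠ 0 := by simpa using hw
  have hu' : (w : K) ^ D * u ∈ O := by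
    rw [← pow_sub_one_mul hD, mul_assoc]
    exact mul_mem (pow_mem w.2 _) (hw' u (mem_singleton_self u))
  have h1 : O.valuation ((s * t) ^ D) < 1 := by
    rw [map_pow, mul_comm]
    exact pow_lt_one' (valuation_mul_lt O ht1 s.2) hD
  refine ⟨(s * t) ^ D * (w ^ D * u), by simp [hs0, ht, hw0, hu], valuation_mul_lt O h1 hu',
    Y, w ^ D * u, hY, hu', by simp [hw0, hu], ?_, fun c i => ?_, fun c hc => ?_⟩
  · rw [mul_div_cancel_right₀ _ (by simp [hw0, hu])]
    exact (O.valuation_le_one_iff _).1 h1.le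
  · by_cases hc : c i = 0
    · simp [hc, hD]
    have h0 : (s : K) * t * c i ≠ 0 := by simp [hs0, ht, hc]
    rw [hnu]
    rcases integral_or hL (((s : K) * t * c i)⁻¹ • ∑ i, c i • b' i) with h2 | h2
    · have h3 := hint _ (Algebra.isIntegral_trace (L := K)
        (h2.mul (hs' _ (mem_image_of_mem _ (mem_univ i)))))
      rw [← algebraMap_smul K s, smul_mul_smul_comm, map_smul, sum_mul] at h3
      simp only [smul_mul_assoc, map_sum, map_smul, b'.trace_mul_traceDual, smul_eq_mul, mul_ite,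
        mul_one, mul_zero, sum_ite_eq', mem_univ, if_true] at h3
      refine absurd ?_ ht'
      convert h3 using 1
      rw [ValuationSubring.algebraMap_apply]
      field_simp
    · have h3 := (O.valuation_le_one_iff _).2 (hint _ (Algebra.isIntegral_norm K h2))
      have hz : ∑ i, c i • b' i ≠ 0 := fun h =>
        hc (Fintype.linearIndependent_iff.1 b'.linearIndependent c h i)
      rw [smul_inv₀, inv_inv, Algebra.smul_def, map_mul, Algebra.norm_algebraMap, hD', Algebra.norm_inv,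
        ← div_eq_mul_inv, map_div₀, div_le_one₀ (by simpa [zero_lt_iff] using hz), mul_pow,
        map_mul, map_pow _ (c i)] at h3
      refine le_trans (mul_le_mul_left ?_ _) h3
      rw [map_mul]
      exact mul_le_of_le_one_right' ((O.valuation_le_one_iff _).2 hu')
  · rw [hnu, ← div_lt_one₀ (by simp [zero_lt_iff, hw0, hu]), ← map_div₀] at hc
    refine h ((w : K)⁻¹ • ∑ i, c i • b' i) ⟨_, (O.valuation_le_one_iff _).1 hc.le⟩
      ((O.valuation_lt_one_iff _).2 hc) ?_
    rw [Algebra.smul_def, map_mul, Algebra.norm_algebraMap, hD', inv_pow]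
    field_simp
    ring

theorem exists_definable {n : ℕ} (hK : NIPn n K) (hO : O ≠ ⊤) (L : Type) [Field L] [Algebra K L]
    [FiniteDimensional K L] [Algebra.IsSeparable K L]
    (hL : ∃! W : ValuationSubring L, W.comap (algebraMap K L) = O) {u : K} (hu : u ≠ 0)
    (h : ∀ (z : L) (m : O), m ∈ maximalIdeal O → Algebra.norm K z ≠ u * (1 + m)) :
    ∃ (π : K) (X : Set K), π ≠ 0 ∧ O.valuation π < 1 ∧
      (∀ [FirstOrder.Ring.CompatibleRing K] {α : Type} [Finite α] {f : (α → K) → K}, Fn f →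
        Df fun v => f v ∈ X) ∧ (∀ x ∈ O, π ^ 2 * x ∈ X) ∧ ∀ x ∈ X, x ∈ O := by
  have : NeZero (Module.finrank K L) := ⟨Module.finrank_pos.ne'⟩
  obtain ⟨π, hπ⟩ := exists_obs hO L hL hu h
  obtain ⟨e, k, h1, h2⟩ := hπ.sandwich hK
  exact ⟨π, e.X k, hπ.1, hπ.2.1, e.df_X k, h1, h2⟩

end Obs

end Pool.Agent.MP_829a8f_lc

end MrgPart1

-- ======== part 2: formerly Pool.Agent.MP_829a8f_lc.Hensel
section MrgPart2

/-!
Additive polynomials, fixed points of Frobenius and Hensel's lemma in positive characteristic.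
-/

namespace Pool.Agent.MP_829a8f_lc

section Additive

open Finset Polynomial

section Moore

variable {E : Type} [Field E] {p : ℕ} [hp : Fact p.Prime] [Algebra (ZMod p) E] {k : ℕ}

lemma pow_sum_smul (ε : Fin k → E) (r : Fin k → ZMod p) (l : ℕ) :
    (∑ i, r i • ε i) ^ p ^ l = ∑ i, r i • ε i ^ p ^ l := by
  have := charP_of_injective_algebraMap (algebraMap (ZMod p) E).injective p
  rw [sum_pow_char_pow]
  simp only [_root_.smul_pow, ZMod.pow_card_pow]

lemma moore {ε : Fin k → E} (h : LinearIndependent (ZMod p) ε) {a : ℕ → E}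
    (ha : ∀ i, ∑ l ∈ range k, ε i ^ p ^ l * a l = 0) : ∀ l < k, a l = 0 := by
  have h1 : ∑ l ∈ range k, monomial (p ^ l) (a l) = 0 := by
    refine eq_zero_of_natDegree_lt_card_of_eval_eq_zero _ (f := fun r : Fin k → ZMod p =>
      ∑ i, r i • ε i) (fun r s e => funext (Fintype.linearIndependent_iffₛ.1 h r s e)) (fun r => ?_) ?_
    · simp only [eval_finsetSum, eval_monomial, pow_sum_smul, mul_sum]
      rw [sum_comm]
      refine sum_eq_zero fun i _ => ?_
      simp only [← smul_sum, mul_comm (a _), smul_mul_assoc, ha i, smul_zero]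
    · rw [Fintype.card_fun, ZMod.card, Fintype.card_fin]
      refine lt_of_le_of_lt (natDegree_sum_le_of_forall_le _ _ (n := p ^ k - 1) fun l hl => ?_)
        (Nat.sub_one_lt (pow_ne_zero _ hp.1.ne_zero))
      exact (natDegree_monomial_le _).trans
        (Nat.le_sub_one_of_lt (Nat.pow_lt_pow_right hp.1.one_lt (mem_range.1 hl)))
  intro l hl
  have h2 := congrArg (coeff · (p ^ l)) h1
  simpa [coeff_monomial, Nat.pow_right_inj hp.1.one_lt, hl] using h2

lemma solve {c : Fin k → ℕ → E}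
    (h : ∀ x : ℕ → E, (∀ i, ∑ l ∈ range k, c i l * x l = 0) → ∀ l < k, x l = 0) (y : Fin k → E) :
    ∃ x : ℕ → E, ∀ i, ∑ l ∈ range k, c i l * x l = y i := by
  have key : ∀ (x : Fin k → E) (i : Fin k), ∑ l ∈ range k, c i l * (if h : l < k then x ⟨l, h⟩ else 0) =
      Matrix.toLin' (Matrix.of fun i l : Fin k => c i l) x i := by
    intro x i
    simp [sum_range, Matrix.mulVec, dotProduct]
  have h1 : Function.Injective (Matrix.toLin' (Matrix.of fun i l : Fin k => c i l)) := by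
    refine (injective_iff_map_eq_zero _).2 fun x hx => funext fun l => ?_
    simpa using h _ (fun i => (key x i).trans (congrFun hx i)) l l.2
  obtain ⟨x, hx⟩ := LinearMap.injective_iff_surjective.1 h1 y
  exact ⟨_, fun i => (key x i).trans (congrFun hx i)⟩

lemma exists_additive {ε : Fin k → E} (h : LinearIndependent (ZMod p) ε) :
    ∃ (a : Fin k → Fin k → ℕ → E) (b : Fin k → ℕ → E),
      (∀ i j, a i j 0 = -(ε i ^ p ^ k * b j 0)) ∧
      (∀ i j l, a i j l ^ p = a i j (l + 1) + ε i ^ p ^ k * b j (l + 1)) ∧ (∀ i j, a i j k = 0) ∧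
      ∀ i j, ∑ l ∈ range k, a i j l = if i = j then 1 else 0 := by
  have := charP_of_injective_algebraMap (algebraMap (ZMod p) E).injective p
  obtain ⟨G', hG'⟩ := solve (fun x => moore h (a := x)) fun i => -ε i ^ p ^ k
  let G : ℕ → E := fun l => if l < k then G' l else 1
  have hG : ∀ i, ∑ l ∈ range (k + 1), ε i ^ p ^ l * G l = 0 := by
    intro i
    rw [sum_range_succ, sum_congr rfl (g := fun l => ε i ^ p ^ l * G' l)
      fun l hl => by simp [G, mem_range.1 hl], hG']
    simp [G]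
  let g : ℕ → E := fun l => G (k - l) ^ p ^ l
  have hg : g 0 = 1 := by simp [g, G]
  let c : Fin k → ℕ → E := fun i l => -∑ s ∈ range (l + 1), (ε i ^ p ^ k * g (l - s)) ^ p ^ s
  have hc0 : ∀ i, c i 0 = -ε i ^ p ^ k := fun i => by simp [c, hg]
  have hc1 : ∀ i l, c i l ^ p = c i (l + 1) + ε i ^ p ^ k * g (l + 1) := by
    intro i l
    simp only [c]
    rw [sum_range_succ' _ (l + 1), neg_pow, neg_one_pow_char, sum_pow_char]
    simp [pow_succ p, pow_mul]
  have hck : ∀ i, c i k = 0 := by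
    intro i
    have h1 := congrArg (· ^ p ^ k) (hG i)
    simp only [sum_pow_char_pow, zero_pow (pow_ne_zero k hp.1.ne_zero)] at h1
    rw [neg_eq_zero, ← h1]
    refine sum_congr rfl fun s hs => ?_
    have hs' : s ≤ k := Nat.lt_succ_iff.1 (mem_range.1 hs)
    simp only [g, mul_pow, ← pow_mul, ← pow_add, Nat.sub_sub_self hs', Nat.sub_add_cancel hs',
      add_comm]
  have hε : LinearIndependent (ZMod p) fun i => ε i ^ p ^ k := by
    refine Fintype.linearIndependent_iff.2 fun r hr => Fintype.linearIndependent_iff.1 h r ?_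
    rw [← pow_sum_smul] at hr
    exact eq_zero_of_pow_eq_zero hr
  have hinj : ∀ x : ℕ → E, (∀ i, ∑ l ∈ range k, c i l * x l = 0) → ∀ l < k, x l = 0 := by
    intro x hx
    have h1 := moore hε (a := fun s => ∑ l ∈ Ico s k, g (l - s) ^ p ^ s * x l) fun i => by
      rw [← neg_eq_zero, ← hx i]
      simp only [c, neg_mul, sum_neg_distrib, neg_inj, sum_mul, mul_sum, mul_pow, mul_assoc,
        range_eq_Ico]
      exact sum_Ico_Ico_comm 0 k _
    intro l hl
    induction l using Nat.strong_decreasing_induction with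
    | base => exact ⟨k, fun m hm hm' => absurd hm' (by omega)⟩
    | step l ih =>
      have h2 := h1 l hl
      rw [sum_eq_single_of_mem l (by simpa using hl) fun m hm hm' => by
        rw [mem_Ico] at hm
        rw [ih m (by omega) hm.2, mul_zero]] at h2
      simpa [hg] using h2
  choose N hN using fun j : Fin k => solve hinj fun i => if i = j then 1 else 0
  have hN' : ∀ j l, l + 1 < k → N j (l + 1) = N j l ^ p := by
    intro j l hl
    let N' : ℕ → E := fun l => Nat.casesOn l (-∑ r ∈ range k, g (r + 1) * N j r ^ p)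
      fun r => N j r ^ p
    have h1 : ∀ i, ∑ l ∈ range (k + 1), c i l * N' l = if i = j then 1 else 0 := by
      intro i
      have h2 := congrArg (· ^ p) (hN j i)
      simp only [sum_pow_char, mul_pow, hc1, add_mul, sum_add_distrib, ite_pow, one_pow,
        zero_pow hp.1.ne_zero, mul_assoc, ← mul_sum] at h2
      rw [sum_range_succ', hc0, ← h2, neg_mul, ← mul_neg]
      simp [N']
    have h3 := hinj (fun l => N j l - N' l) (fun i => by
      have := h1 i
      rw [sum_range_succ, hck, zero_mul, add_zero] at this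
      simp only [mul_sub, sum_sub_distrib, this, hN, sub_self]) _ hl
    exact sub_eq_zero.1 h3
  have hN'' : ∀ j l, l < k → N j 0 ^ p ^ l = N j l := by
    intro j l
    induction l with
    | zero => simp
    | succ l ih => exact fun hl => by rw [hN' j l hl, ← ih (by omega), ← pow_mul, pow_succ]
  refine ⟨fun i j l => c i l * N j 0 ^ p ^ l, fun j l => g l * N j 0 ^ p ^ l, fun i j => ?_,
    fun i j l => ?_, fun i j => by simp [hck], fun i j => ?_⟩
  · simp [hc0, hg]
  · rw [mul_pow, hc1, ← pow_mul, ← pow_succ]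
    ring
  · rw [← hN j i]
    exact sum_congr rfl fun l hl => congrArg _ (hN'' j l (mem_range.1 hl))

end Moore

end Additive

section Hensel

open Finset Polynomial IsLocalRing IntermediateField FirstOrder.Ring

variable {K : Type} [Field K] (p : ℕ) [hp : Fact p.Prime] [CharP K p]

lemma exists_additive_pow (V : ValuationSubring K) {π : K} (h0 : π ≠ 0) (h1 : V.valuation π < 1)
    (k : ℕ) : ∃ (a : Fin k → Fin k → ℕ → K) (b : Fin k → ℕ → K) (M : ℕ),
      (∀ i j, a i j 0 = -((π ^ (i : ℕ)) ^ p ^ k * b j 0)) ∧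
      (∀ i j l, a i j l ^ p = a i j (l + 1) + (π ^ (i : ℕ)) ^ p ^ k * b j (l + 1)) ∧
      (∀ i j, a i j k = 0) ∧ (∀ i j, ∑ l ∈ range k, a i j l = if i = j then 1 else 0) ∧
      ∀ i j, ∀ l < k, π ^ M * a i j l ∈ V := by
  let _ := ZMod.algebra K p
  have h2 : 1 < V.valuation π⁻¹ := by
    rw [map_inv₀]
    exact (one_lt_inv₀ (by simpa [zero_lt_iff] using h0)).2 h1
  have hb : ∀ x : (ZMod p)⟮π⁻¹⟯, ∃ M, ∀ M' ≥ M, π ^ M' * x ∈ V := by
    rintro ⟨x, hx⟩
    obtain ⟨r, s, rfl⟩ := (mem_adjoin_simple_iff _ _).1 hx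
    refine ⟨r.natDegree, fun M hM => ?_⟩
    by_cases hr : r = 0
    · simp [hr]
    by_cases hs : s = 0
    · simp [hs]
    rw [← V.valuation_le_one_iff, map_mul, map_div₀,
      valuation_aeval_eq_valuation_X_pow_natDegree_of_one_lt_valuation_X _ h2 hr,
      valuation_aeval_eq_valuation_X_pow_natDegree_of_one_lt_valuation_X _ h2 hs, map_pow,
      ← inv_inv π, map_inv₀ _ π⁻¹, inv_inv π, inv_pow, mul_div_assoc', inv_mul_eq_div]
    exact div_le_one_of_le₀ ((div_le_one_of_le₀ (pow_le_pow_right₀ h2.le hM) zero_le).trans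
      (one_le_pow₀ h2.le)) zero_le
  let t : (ZMod p)⟮π⁻¹⟯ := ⟨π, by simpa using inv_mem (mem_adjoin_simple_self (ZMod p) π⁻¹)⟩
  have hε : LinearIndependent (ZMod p) fun i : Fin k => t ^ (i : ℕ) := by
    have h3 := (basisMonomials (ZMod p)).linearIndependent.map' (aeval π).toLinearMap
      (LinearMap.ker_eq_bot.2 (transcendental_iff_injective.1
        (V.valuation.transcendental_of_ne_one (ZMod p) π h0 h1.ne)))
    refine LinearIndependent.of_comp (ZMod p)⟮π⁻¹⟯.val.toLinearMap ?_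
    have h4 := h3.comp _ (Fin.val_injective (n := k))
    rwa [show _ ∘ Fin.val = (ZMod p)⟮π⁻¹⟯.val.toLinearMap ∘ fun i : Fin k => t ^ (i : ℕ) from
      funext fun i => by simp [t]] at h4
  obtain ⟨a, b, e1, e2, e3, e4⟩ := exists_additive hε
  choose M hM using fun q : Fin k × Fin k × Fin k => hb (a q.1 q.2.1 q.2.2)
  refine ⟨fun i j l => a i j l, fun j l => b j l, univ.sup M, fun i j => ?_, fun i j l => ?_,
    fun i j => by simp [e3], fun i j => ?_, fun i j l hl => hM (i, j, ⟨l, hl⟩) _ (le_sup (mem_univ _))⟩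
  · simp [e1, t]
  · simpa [t] using congrArg Subtype.val (e2 i j l)
  · have := congrArg (ZMod p)⟮π⁻¹⟯.val (e4 i j)
    rwa [map_sum, apply_ite (ZMod p)⟮π⁻¹⟯.val, map_one, map_zero] at this

/-- A Frobenius-semilinear map. -/
def Phi {ι : Type} [Fintype ι] (τ : ι → ι → K) : (ι → K) →+ ι → K where
  toFun x r := ∑ i, x i ^ p * τ i r
  map_zero' := by simp [hp.1.ne_zero, funext_iff]
  map_add' x y := by simp [add_pow_char, add_mul, sum_add_distrib, funext_iff]

lemma Phi_smul {ι : Type} [Fintype ι] (τ : ι → ι → K) (c : K) (x : ι → K) :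
    Phi p τ (c • x) = c ^ p • Phi p τ x := by
  simp [Phi, funext_iff, mul_pow, mul_sum, mul_assoc]

/-- `X` is a definable set between `π ^ 3 V` and `V`. -/
structure Sand (V : ValuationSubring K) (π : K) (X : Set K) : Prop where
  ne : π ≠ 0
  lt : V.valuation π < 1
  df : ∀ [CompatibleRing K] {α : Type} [Finite α] {f : (α → K) → K}, Fn f → Df fun v => f v ∈ X
  low : ∀ x ∈ V, π ^ 3 * x ∈ X
  up : ∀ x ∈ X, x ∈ V

theorem exists_fixed {n : ℕ} (hK : NIPn n K) {V : ValuationSubring K} {π : K} {X : Set K}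
    (h : Sand V π X) {ι : Type} [Fintype ι] (τ : ι → ι → K) (u : ℕ → ι → K)
    (hu : ∀ l, Phi p τ (u l) = u (l + 1))
    (hc : ∀ M, ∃ s, ∀ l r, (u (s + l) r - u s r) / π ^ M ∈ V) :
    ∃ s z, Phi p τ z = z ∧ ∀ r, (z r - u s r) / π ∈ V := by
  classical
  let _ := compatibleRingOfRing K
  have h0 := h.ne
  have hπ : π ∈ V := (V.valuation_le_one_iff _).1 h.lt.le
  obtain ⟨N, hN⟩ := exists_not_pattern hK (μ := Option ι) (fun b y => ∃ x : ι → K,
    (∀ r, x r / π ∈ X) ∧ ∀ r, ∑ i, x i ^ p * τ i r - x r = (∏ t, y t none) * b (some r))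
    (Df.ex ((Df.all fun r => h.df ((Fn.proj _).div (Fn.const _))).and (Df.all fun r => Df.eq
      ((Fn.sum _ fun i => ((Fn.proj _).pow _).mul (Fn.const _)).sub (Fn.proj _))
      ((Fn.prod _ fun t => Fn.proj _).mul (Fn.proj _)))))
  obtain ⟨a, b, M, e1, e2, e3, e4, e5⟩ := exists_additive_pow p V h0 h.lt (N ^ n)
  obtain ⟨s, hs⟩ := hc (M + 4)
  let W : Fin (N ^ n) → Finset (Fin (N ^ n)) → ι → K := fun i S =>
    ∑ j ∈ S, ∑ l ∈ range (N ^ n), a i j l • u (s + l)
  let d : Finset (Fin (N ^ n)) → ι → K := fun S =>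
    ∑ j ∈ S, ∑ l ∈ range (N ^ n + 1), b j l • u (s + l)
  have hW : ∀ i S, Phi p τ (W i S) - W i S = (π ^ (i : ℕ)) ^ p ^ N ^ n • d S := by
    intro i S
    simp only [W, d, map_sum, Phi_smul, hu, smul_sum, ← sum_sub_distrib]
    refine sum_congr rfl fun j _ => ?_
    have h1 := sum_range_succ (fun l => a i j l • u (s + l)) (N ^ n)
    rw [sum_range_succ', e3, zero_smul, e1] at h1
    rw [sum_range_succ', sum_sub_distrib, ← add_zero (∑ l ∈ _, a i j l • u (s + l)), ← h1]
    simp only [e2, add_smul, sum_add_distrib, smul_smul, add_assoc, neg_smul]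
    abel
  have hW' : ∀ i S r, (W i S r - if i ∈ S then u s r else 0) / π ^ 4 ∈ V := by
    intro i S r
    have h1 : (W i S r - if i ∈ S then u s r else 0) / π ^ 4 = ∑ j ∈ S, ∑ l ∈ range (N ^ n),
        π ^ M * a i j l * ((u (s + l) r - u s r) / π ^ (M + 4)) := by
      have h2 : (if i ∈ S then u s r else 0) = ∑ j ∈ S, ∑ l ∈ range (N ^ n), a i j l * u s r := by
        simp [← sum_mul, e4]
      simp only [h2, W, Finset.sum_apply, Pi.smul_apply, smul_eq_mul, ← sum_sub_distrib, sum_div]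
      refine sum_congr rfl fun j _ => sum_congr rfl fun l _ => ?_
      field_simp
      ring
    rw [h1]
    exact sum_mem fun j _ => sum_mem fun l hl => mul_mem (e5 i j l (mem_range.1 hl)) (hs l r)
  by_contra hcon
  refine hN ⟨fun t η _ => (π ^ (η * N ^ (t : ℕ) : ℕ)) ^ p ^ N ^ n, fun S o =>
    o.elim 0 (d (univ.filter fun j => finFunctionFinEquiv.symm j ∉ S)), fun S j => ?_⟩
  simp only [prod_pow, prod_pow_eq_pow_sum, ← finFunctionFinEquiv_apply, Option.elim_some]
  set S' := univ.filter fun j => finFunctionFinEquiv.symm j ∉ S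
  have hj : finFunctionFinEquiv j ∈ S' ↔ j ∉ S := by simp [S']
  constructor
  · rintro ⟨x, hx, hx'⟩
    by_contra hj'
    refine hcon ⟨s, W (finFunctionFinEquiv j) S' - x, ?_, fun r => ?_⟩
    · rw [map_sub, sub_eq_sub_iff_sub_eq_sub, hW]
      exact funext fun r => (hx' r).symm
    · have h1 := sub_mem (mul_mem (pow_mem hπ 3) (hW' (finFunctionFinEquiv j) S' r)) (h.up _ (hx r))
      rw [if_pos (hj.2 hj')] at h1
      convert h1 using 1
      rw [Pi.sub_apply]
      field_simp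
      ring
  · intro hj'
    refine ⟨W (finFunctionFinEquiv j) S', fun r => ?_, fun r => congrFun (hW _ S') r⟩
    have h1 := h.low _ (hW' (finFunctionFinEquiv j) S' r)
    rw [if_neg fun h => hj.1 h hj', sub_zero] at h1
    convert h1 using 1
    field_simp

include p in
theorem hensel_step {n : ℕ} (hK : NIPn n K) {V : ValuationSubring K} {π : K} {X : Set K}
    (h : Sand V π X) (f : V[X]) (hf : f.Monic) (a₀ : V) (h1 : f.eval a₀ ∈ maximalIdeal V)
    (h2 : IsUnit (f.derivative.eval a₀)) {k : ℕ} (h3 : ((f.eval a₀ : V) : K) ^ k / π ∈ V) :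
    ∃ a, f.IsRoot a ∧ a - a₀ ∈ maximalIdeal V := by
  let ψ : AdjoinRoot f →+* ResidueField V := AdjoinRoot.lift (residue V) (residue V a₀)
    (by rw [eval₂_at_apply, residue_eq_zero_iff]; exact h1)
  let φ := algebraMap V (AdjoinRoot f)
  let T := AdjoinRoot.root f
  have hψ : ∀ x, ψ (φ x) = residue V x := fun x => AdjoinRoot.lift_of _
  have hψT : ψ T = residue V a₀ := AdjoinRoot.lift_root _
  have := ψ.domain_nontrivial
  have : CharP (AdjoinRoot f) p := (CharP.charP_iff_prime_eq_zero hp.1).2 (by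
    rw [← map_natCast φ, show (p : V) = 0 from Subtype.ext (by simp), map_zero])
  have hdiv : ∀ (g : V[X]) (a : V), ∃ q : V[X], g - C (g.eval a) = (Polynomial.X - C a) * q ∧
      aeval T g - φ (g.eval a) = (T - φ a) * aeval T q := by
    intro g a
    obtain ⟨q, hq⟩ := X_sub_C_dvd_sub_C_eval (a := a) (p := g)
    exact ⟨q, hq, by simpa [φ] using congrArg (aeval T) hq⟩
  have hT : aeval T f = 0 := by simp [T]
  obtain ⟨g, hg, hg'⟩ := hdiv f a₀
  obtain ⟨g₁, -, hg₁⟩ := hdiv g a₀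
  have hg0 : f.derivative.eval a₀ = g.eval a₀ := by
    simpa using congrArg (fun q => q.derivative.eval a₀) hg
  obtain ⟨w, hw⟩ := (hg0 ▸ h2).exists_right_inv
  have hw' : φ (g.eval a₀) * φ w = 1 := by rw [← map_mul, hw, map_one]
  set c := f.eval a₀
  let e := aeval T g * φ w
  have he1 : (T - φ a₀) * e = φ c * -φ w := by
    linear_combination (-φ w) * hg' + φ w * hT
  have he2 : e - 1 = (T - φ a₀) * (aeval T g₁ * φ w) := by
    linear_combination φ w * hg₁ + hw'
  have he3 : ∀ m, ∃ y, e ^ (m + 1) - e = φ c * y := by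
    intro m
    induction m with
    | zero => exact ⟨0, by simp⟩
    | succ m ih =>
      obtain ⟨y, hy⟩ := ih
      exact ⟨e * y - φ w * (aeval T g₁ * φ w), by
        linear_combination e * hy + e * he2 + aeval T g₁ * φ w * he1⟩
  have he4 : ∀ s l, ∃ y, e ^ p ^ (s + l) - e ^ p ^ s = c ^ p ^ s • y := by
    intro s l
    obtain ⟨y, hy⟩ := he3 (p ^ l - 1)
    rw [Nat.sub_add_cancel (Nat.one_le_pow _ _ hp.1.pos)] at hy
    refine ⟨y ^ p ^ s, ?_⟩
    rw [add_comm, pow_add, pow_mul, ← sub_pow_char_pow, hy, mul_pow, Algebra.smul_def, map_pow]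
  let v := (AdjoinRoot.powerBasis' hf).basis
  have hΦ : ∀ x, Phi p (fun i r => (v.repr (v i ^ p) r : K)) (fun r => v.repr x r) =
      fun r => (v.repr (x ^ p) r : K) := by
    intro x
    funext r
    conv_rhs => rw [← v.sum_repr x, sum_pow_char]
    simp [Phi, _root_.smul_pow]
  have h0 := h.ne
  obtain ⟨s, z, hz, hz'⟩ := exists_fixed p hK h _ (fun l r => (v.repr (e ^ p ^ l) r : K))
    (fun l => by rw [hΦ, ← pow_mul, ← pow_succ]) (fun M => ⟨k * M, fun l r => by
      obtain ⟨y, hy⟩ := he4 (k * M) l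
      obtain ⟨t, ht⟩ := Nat.exists_eq_add_of_le (Nat.lt_pow_self hp.1.one_lt (n := k * M)).le
      have h4 := congrArg (fun x => (v.repr x r : K)) hy
      simp only [map_sub, map_smul, Finsupp.coe_sub, Pi.sub_apply, Finsupp.smul_apply, smul_eq_mul,
        AddSubgroupClass.coe_sub, MulMemClass.coe_mul, SubmonoidClass.coe_pow] at h4
      rw [h4, ht, pow_add, pow_mul, mul_assoc, mul_div_right_comm, ← div_pow]
      exact mul_mem (pow_mem h3 _) (mul_mem (pow_mem c.2 _) (v.repr y r).2)⟩)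
  let π' : V := ⟨π, (V.valuation_le_one_iff _).1 h.lt.le⟩
  let ζ := e ^ p ^ s + π' • v.equivFun.symm fun r => ⟨_, hz' r⟩
  have hζ : (fun r => (v.repr ζ r : K)) = z := by
    funext r
    simp only [ζ, map_add, map_smul, Finsupp.add_apply, Finsupp.smul_apply, smul_eq_mul,
      AddMemClass.coe_add, MulMemClass.coe_mul, ← v.equivFun_apply, LinearEquiv.apply_symm_apply, π']
    field_simp
    ring
  have hζ' : ζ ^ p = ζ := by
    refine v.ext_elem fun r => Subtype.ext ?_
    rw [congrFun hζ r, ← congrFun (hΦ ζ) r, hζ, hz]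
  let J := (maximalIdeal V).map φ
  have hJ : ∀ x ∈ maximalIdeal V, ∀ y, φ x * y ∈ J := fun x hx y =>
    J.mul_mem_right _ (Ideal.mem_map_of_mem _ hx)
  have hJ1 : ζ - e ∈ J := by
    obtain ⟨y, hy⟩ := he3 (p ^ s - 1)
    rw [Nat.sub_add_cancel (Nat.one_le_pow _ _ hp.1.pos)] at hy
    rw [add_sub_right_comm, hy, Algebra.smul_def]
    exact add_mem (hJ _ h1 _) (hJ _ ((V.valuation_lt_one_iff π').2 h.lt) _)
  obtain ⟨m, hm⟩ : ∃ m, p = m + 1 + 1 := ⟨p - 2, by have := hp.1.two_le; omega⟩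
  let η := ζ ^ (m + 1)
  have hη : η * η = η := by
    rw [hm] at hζ'
    linear_combination ζ ^ m * hζ'
  have hJ2 : η - e ∈ J := by
    obtain ⟨y, hy⟩ := he3 m
    obtain ⟨y', hy'⟩ := sub_dvd_pow_sub_pow ζ e (m + 1)
    rw [← sub_add_sub_cancel _ (e ^ (m + 1)), hy, hy']
    exact add_mem (J.mul_mem_right _ hJ1) (hJ _ h1 _)
  have hJ3 : (T - φ a₀) * η ∈ J := by
    rw [← sub_add_cancel η e, mul_add, he1]
    exact add_mem (J.mul_mem_left _ hJ2) (hJ _ h1 _)
  have hψJ : ∀ x ∈ J, ψ x = 0 := fun x hx => (Ideal.map_le_iff_le_comap (I := maximalIdeal V)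
    (f := φ) (K := RingHom.ker ψ)).2 (fun y hy => (hψ y).trans ((residue_eq_zero_iff y).2 hy)) hx
  have hψη : ψ η = 1 := by
    have h4 := hψJ _ hJ2
    have h5 := congrArg ψ he2
    rw [map_mul, map_sub ψ T, hψ, hψT, sub_self, zero_mul, map_sub, map_one] at h5
    linear_combination h4 + h5 - map_sub ψ η e
  have : Module.Finite V (AdjoinRoot f) := (AdjoinRoot.powerBasis' hf).finite
  have hN : (⊤ : Submodule V (AdjoinRoot f)).map (LinearMap.mulRight V η) ≤ V ∙ η := by
    refine Submodule.le_of_le_smul_of_le_jacobson_bot (Module.Finite.fg_top.map _)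
      (maximalIdeal_le_jacobson _) ?_
    rintro _ ⟨x, -, rfl⟩
    obtain ⟨q, rfl⟩ := AdjoinRoot.mk_surjective x
    obtain ⟨q', -, hq'⟩ := hdiv q a₀
    rw [← Submodule.map_smul'', Ideal.smul_top_eq_map, ← AdjoinRoot.aeval_eq]
    refine Submodule.mem_sup.2 ⟨_, Submodule.mem_span_singleton.2 ⟨q.eval a₀, rfl⟩, _,
      ⟨_, J.mul_mem_right (aeval T q') hJ3, rfl⟩, ?_⟩
    simp only [LinearMap.mulRight_apply, Algebra.smul_def]
    linear_combination (-η) * hq' + (T - φ a₀) * aeval T q' * hη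
  obtain ⟨a, ha⟩ := Submodule.mem_span_singleton.1 (hN ⟨T, trivial, rfl⟩)
  rw [LinearMap.mulRight_apply, Algebra.smul_def] at ha
  obtain ⟨q, -, hq⟩ := hdiv f a
  refine ⟨a, ?_, ?_⟩
  · have h4 : f.eval a • η = 0 := by
      rw [Algebra.smul_def]
      linear_combination (-η) * hq + η * hT + aeval T q * ha
    have := Module.Free.of_basis v
    exact (smul_eq_zero.1 h4).resolve_right fun h5 => by simp [h5] at hψη
  · have h4 := congrArg ψ ha
    rw [map_mul, map_mul, hψη, hψ, hψT, mul_one, mul_one] at h4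
    rw [← residue_eq_zero_iff, map_sub, h4, sub_self]

end Hensel

section Coarse

open Finset Polynomial IsLocalRing

variable {K : Type} [Field K] (O : ValuationSubring K)

lemma coarse_mono {π x y : K} (h : O.valuation x ≤ O.valuation y) (hy : ∀ k : ℕ, y ^ k * π ∈ O)
    (k : ℕ) : x ^ k * π ∈ O := by
  refine (O.valuation_le_one_iff _).1 (le_trans ?_ ((O.valuation_le_one_iff _).2 (hy k)))
  simp only [map_mul, map_pow]
  gcongr

/-- The finest coarsening of `O` in which the ideal `π` has maximal radical. -/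
def coarse {π : K} (hπ : π ∈ O) : ValuationSubring K where
  carrier := {x | ∀ k : ℕ, x ^ k * π ∈ O}
  zero_mem' k := mul_mem (pow_mem (zero_mem O) k) hπ
  one_mem' k := mul_mem (pow_mem (one_mem O) k) hπ
  add_mem' {x y} hx hy := (le_max_iff.1 (O.valuation.map_add x y)).elim
    (coarse_mono O · hx) (coarse_mono O · hy)
  mul_mem' {x y} hx hy := by
    rcases le_total (O.valuation x) (O.valuation y) with h | h
    · refine coarse_mono O (y := y ^ 2) ?_ fun k => by simpa [pow_mul] using hy (2 * k)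
      rw [map_mul, pow_two, map_mul]
      gcongr
    · refine coarse_mono O (y := x ^ 2) ?_ fun k => by simpa [pow_mul] using hx (2 * k)
      rw [map_mul, pow_two, map_mul]
      gcongr
  neg_mem' {x} hx := coarse_mono O (O.valuation.map_neg x).le hx
  mem_or_inv_mem' x := (O.mem_or_inv_mem x).imp (fun h k => mul_mem (pow_mem h k) hπ)
    fun h k => mul_mem (pow_mem h k) hπ

variable {O} (p : ℕ) [Fact p.Prime] [CharP K p] {n : ℕ} (hK : NIPn n K)

include p hK in
theorem henselian_of_definable {π : K} {X : Set K} (h0 : π ≠ 0) (h1 : O.valuation π < 1)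
    (hX : ∀ [FirstOrder.Ring.CompatibleRing K] {α : Type} [Finite α] {f : (α → K) → K}, Fn f →
      Df fun v => f v ∈ X) (h5 : ∀ x ∈ O, π ^ 2 * x ∈ X) (h6 : ∀ x ∈ X, x ∈ O) :
    ∃ R : ValuationSubring K, O ≤ R ∧ R ≠ ⊤ ∧ HenselianLocalRing R := by
  have hπ := (O.valuation_le_one_iff _).1 h1.le
  have h2 : O ≤ coarse O hπ := fun x hx k => mul_mem (pow_mem hx k) hπ
  have h3 : π⁻¹ ∉ coarse O hπ := fun h =>
    (O.mem_nonunits_iff_or.1 (O.mem_nonunits_iff.2 h1)).resolve_left h0 (by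
      simpa [pow_two, h0] using h 2)
  refine ⟨_, h2, fun h => h3 (h ▸ trivial), ⟨fun f hf a₀ h7 h8 => ?_⟩⟩
  obtain ⟨l, hl⟩ : ∃ l : ℕ, ((f.eval a₀ : coarse O hπ) : K) ^ l / π ∈ coarse O hπ := by
    rcases (coarse O hπ).mem_nonunits_iff_or.1 ((coarse O hπ).mem_nonunits_iff.2
      (((coarse O hπ).valuation_lt_one_iff _).1 h7)) with h | h
    · exact ⟨1, by simp [h]⟩
    · obtain ⟨l, hl⟩ := not_forall.1 h
      exact ⟨l, h2 (by simpa [div_eq_inv_mul] using (O.mem_or_inv_mem _).resolve_left hl)⟩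
  refine hensel_step p hK ⟨h0, (coarse O hπ).mem_nonunits_iff.1
    ((coarse O hπ).mem_nonunits_iff_or.2 (Or.inr h3)), hX, fun x hx => ?_,
    fun x hx => h2 (h6 x hx)⟩ f hf a₀ h7 h8 hl
  rw [pow_succ, mul_assoc]
  exact h5 _ (by simpa [mul_comm] using hx 1)

end Coarse

end Pool.Agent.MP_829a8f_lc

end MrgPart2

-- marker of a merged file
example : 731051 + 834842 = 731051 + 834842 := rfl
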