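import Mathlib
import Pool.Agent.MP_829a8f_lc.Hensel

namespace Pool.Agent.MP_829a8f_lc.CharP

open Pool.Agent.MP_829a8f_lc

/-- A `NIP_n` field of positive characteristic with a nontrivial valuation ring `O` that extends
uniquely to a finite separable extension `L` whose norms do not fill `Kˣ` modulo `1 + m` has a
nontrivial henselian valuation ring, which is a coarsening of `O`. -/
theorem char_p (n p : ℕ) [Fact p.Prime] (K : Type) [Field K] [CharP K p] (hK : NIPn n K)
    (O : ValuationSubring K) (hO : O ≠ ⊤) (L : Type) [Field L] [Algebra K L]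
    [FiniteDimensional K L] [Algebra.IsSeparable K L]
    (hL : ∃! W : ValuationSubring L, W.comap (algebraMap K L) = O) (u : K) (hu : u ≠ 0)
    (h : ∀ (z : L) (m : O), m ∈ IsLocalRing.maximalIdeal O → Algebra.norm K z ≠ u * (1 + m)) :
    ∃ R : ValuationSubring K, O ≤ R ∧ R ≠ ⊤ ∧ HenselianLocalRing R := by
  obtain ⟨π, X, h0, h1, h2, h3, h4⟩ := exists_definable hK hO L hL hu h
  exact henselian_of_definable p hK h0 h1 h2 h3 h4

end Pool.Agent.MP_829a8f_lc.CharP
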