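import Mathlib
import Pool.Agent.MP_829a8f_lc.Ultra

namespace Pool.Agent.MP_829a8f_lc.DefinableTopology

open Pool.Agent.MP_829a8f_lc

/-- In a `NIP_n` field of any characteristic, a nontrivial valuation ring `O` that extends uniquely
to a finite separable extension `L` whose norms do not fill `Kˣ` modulo `1 + m` has a bounded
neighbourhood of zero that is definable in the pure field. -/
theorem exists_definable_nbhd (n : ℕ) (K : Type) [Field K] [FirstOrder.Ring.CompatibleRing K] (hK : NIPn n K)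
    (O : ValuationSubring K) (hO : O ≠ ⊤) (L : Type) [Field L] [Algebra K L]
    [FiniteDimensional K L] [Algebra.IsSeparable K L]
    (hL : ∃! W : ValuationSubring L, W.comap (algebraMap K L) = O) (u : K) (hu : u ≠ 0)
    (h : ∀ (z : L) (m : O), m ∈ IsLocalRing.maximalIdeal O → Algebra.norm K z ≠ u * (1 + m)) :
    ∃ X : Set K, (Set.univ : Set K).Definable₁ FirstOrder.Language.ring X ∧
      (∃ a : K, a ≠ 0 ∧ ∀ x ∈ O, a * x ∈ X) ∧ ∀ x ∈ X, x ∈ O := by
  obtain ⟨π, X, h0, -, h2, h3, h4⟩ := exists_definable hK hO L hL hu h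
  exact ⟨X, h2 (Fn.proj 0), ⟨_, pow_ne_zero 2 h0, h3⟩, h4⟩

end Pool.Agent.MP_829a8f_lc.DefinableTopology
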