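import Mathlib
import Pool.Agent.MP_829a8f_lc.Val

-- ======== part 0: formerly Pool.Agent.MP_829a8f_lc.FF
section MrgPart0

/-!
Function fields.
-/

namespace Pool.Agent.MP_829a8f_lc

open Finset Polynomial IsLocalRing

variable {F K : Type} [Field F] [Field K]

/-- A relation over `F[X]` can be normalised so that it does not vanish at `a`. -/
lemma exists_rel_eval (φ : F[X] →+* K) (hφ : Function.Injective φ) (a : F) {δ : ℕ} (x : K)
    (h : ∃ c : Fin (δ + 1) → F[X], c ≠ 0 ∧ ∑ i, φ (c i) * x ^ (i : ℕ) = 0) :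
    ∃ c : Fin (δ + 1) → F[X], (∃ i, (c i).eval a ≠ 0) ∧ ∑ i, φ (c i) * x ^ (i : ℕ) = 0 := by
  obtain ⟨c, hc, hx⟩ := h
  induction hn : ∑ i, (c i).natDegree using Nat.strong_induction_on generalizing c with
  | _ n ih =>
    by_cases h0 : ∃ i, (c i).eval a ≠ 0
    · exact ⟨c, h0, hx⟩
    push Not at h0
    choose c' hc' using fun i => dvd_iff_isRoot.2 (h0 i)
    have hne : c' ≠ 0 := fun h => hc (funext fun i => by simp [hc' i, h])
    refine ih _ ?_ c' hne ?_ rfl
    · obtain ⟨i, hi⟩ := Function.ne_iff.1 hne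
      rw [← hn]
      have key : ∀ i, c' i ≠ 0 → (c' i).natDegree < (c i).natDegree := fun i hi => by
        rw [hc' i, natDegree_mul (X_sub_C_ne_zero a) hi, natDegree_X_sub_C]
        omega
      refine sum_lt_sum (fun j _ => ?_) ⟨i, mem_univ i, key i hi⟩
      by_cases hj : c' j = 0
      · simp [hj]
      · exact (key j hj).le
    · have h1 : φ (X - C a) ≠ 0 := (map_ne_zero_iff φ hφ).2 (X_sub_C_ne_zero a)
      apply mul_left_cancel₀ h1
      rw [mul_zero, mul_sum, ← hx]
      exact Finset.sum_congr rfl fun i _ => by rw [hc' i, map_mul, mul_assoc]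

lemma exists_valuationSubring (φ : F[X] →+* K) (hφ : Function.Injective φ) (a : F) :
    ∃ O : ValuationSubring K, (∀ g, φ g ∈ O) ∧ O.valuation (φ (X - C a)) < 1 := by
  obtain ⟨O, h1, h2⟩ := Ideal.image_subset_nonunits_valuationSubring (A := φ.range)
    (Ideal.span {φ.rangeRestrict (X - C a)}) (by
      rw [Ne, Ideal.span_singleton_eq_top]
      intro hu
      obtain ⟨⟨_, g, rfl⟩, hg⟩ := hu.exists_right_inv
      have : (X - C a) * g = 1 := hφ (by simpa using congrArg Subtype.val hg)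
      exact not_isUnit_X_sub_C a (IsUnit.of_mul_eq_one _ this))
  exact ⟨O, fun g => h1 ⟨g, rfl⟩, h2 ⟨_, Ideal.subset_span rfl, rfl⟩⟩

section Local

variable (φ : F[X] →+* K) (a : F) (O : ValuationSubring K) (hO : ∀ g, φ g ∈ O)
  (ha : O.valuation (φ (X - C a)) < 1)

include hO in
lemma val_C {c : F} (hc : c ≠ 0) : O.valuation (φ (C c)) = 1 := by
  have h1 := (O.valuation_le_one_iff _).2 (hO (C c))
  have h2 := (O.valuation_le_one_iff _).2 (hO (C c⁻¹))
  have h3 : O.valuation (φ (C c)) * O.valuation (φ (C c⁻¹)) = 1 := by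
    rw [← map_mul, ← map_mul, ← C_mul, mul_inv_cancel₀ hc]
    simp
  exact le_antisymm h1 (h3.ge.trans (mul_le_of_le_one_right' h2))

include hO ha in
lemma val_sub_eval (g : F[X]) : O.valuation (φ g - φ (C (g.eval a))) < 1 := by
  obtain ⟨q, hq⟩ := X_sub_C_dvd_sub_C_eval (a := a) (p := g)
  rw [← map_sub, hq, map_mul, map_mul]
  exact lt_of_le_of_lt (mul_le_of_le_one_right' ((O.valuation_le_one_iff _).2 (hO q))) ha

include hO ha in
lemma val_eq_one {g : F[X]} (hg : g.eval a ≠ 0) : O.valuation (φ g) = 1 := by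
  have h := val_sub_eval φ a O hO ha g
  rw [← val_C φ O hO hg] at h ⊢
  exact O.valuation.map_eq_of_sub_lt h

include hO ha in
lemma val_eq_pow {g : F[X]} (hg : g ≠ 0) :
    ∃ k : ℕ, O.valuation (φ g) = O.valuation (φ (X - C a)) ^ k := by
  obtain ⟨q, hq, hq'⟩ := exists_eq_pow_rootMultiplicity_mul_and_not_dvd g hg a
  refine ⟨rootMultiplicity a g, ?_⟩
  conv_lhs => rw [hq]
  rw [map_mul, map_mul, map_pow, map_pow, val_eq_one φ a O hO ha (mt dvd_iff_isRoot.2 hq'), mul_one]

variable {δ : ℕ} (hφ : Function.Injective φ)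
  (hrel : ∀ x : K, ∃ c : Fin (δ + 1) → F[X], c ≠ 0 ∧ ∑ i, φ (c i) * x ^ (i : ℕ) = 0)

include hO ha hφ hrel in
lemma val_pow_factorial {x : K} (hx : x ≠ 0) :
    ∃ k : ℤ, O.valuation x ^ δ.factorial = O.valuation (φ (X - C a)) ^ k := by
  obtain ⟨c, hc, h⟩ := hrel x
  have hτ : O.valuation (φ (X - C a)) ≠ 0 := by
    simpa using (map_ne_zero_iff φ hφ).2 (X_sub_C_ne_zero a)
  have hx0 : O.valuation x ≠ 0 := by simpa using hx
  have key : ∀ i j : Fin (δ + 1), i < j → c i ≠ 0 → c j ≠ 0 →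
      O.valuation (φ (c i) * x ^ (i : ℕ)) = O.valuation (φ (c j) * x ^ (j : ℕ)) →
      ∃ k : ℤ, O.valuation x ^ δ.factorial = O.valuation (φ (X - C a)) ^ k := by
    intro i j hij hi hj he
    obtain ⟨k, hk⟩ := val_eq_pow φ a O hO ha hi
    obtain ⟨l, hl⟩ := val_eq_pow φ a O hO ha hj
    obtain ⟨r, hr⟩ := Nat.exists_eq_add_of_lt (show (i : ℕ) < j from hij)
    obtain ⟨m, hm⟩ : r + 1 ∣ δ.factorial := Nat.dvd_factorial (by omega) (by omega)
    rw [map_mul, map_mul, map_pow, map_pow, hk, hl, hr, add_assoc, pow_add, mul_comm _ (_ ^ (r + 1)),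
      ← mul_assoc] at he
    have h1 := mul_right_cancel₀ (pow_ne_zero _ hx0) he
    refine ⟨((k : ℤ) - l) * m, ?_⟩
    rw [hm, pow_mul, zpow_mul, zpow_natCast, zpow_sub₀ hτ, zpow_natCast, zpow_natCast, h1,
      mul_div_cancel_left₀ _ (pow_ne_zero _ hτ)]
  obtain ⟨i, -, hi⟩ :=
    exists_max_image univ (fun i => O.valuation (φ (c i) * x ^ (i : ℕ))) univ_nonempty
  have hi0 : O.valuation (φ (c i) * x ^ (i : ℕ)) ≠ 0 := by
    obtain ⟨j, hj⟩ := Function.ne_iff.1 hc
    have : O.valuation (φ (c j) * x ^ (j : ℕ)) ≠ 0 := by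
      simpa [hx] using (map_ne_zero_iff φ hφ).2 hj
    exact fun h0 => this (le_zero_iff.1 (h0 ▸ hi j (mem_univ j)))
  have hj : ∃ j, j ≠ i ∧
      O.valuation (φ (c j) * x ^ (j : ℕ)) = O.valuation (φ (c i) * x ^ (i : ℕ)) := by
    by_contra hcon
    push Not at hcon
    have := O.valuation.map_sum_eq_of_lt (f := fun i => φ (c i) * x ^ (i : ℕ)) (mem_univ i)
      fun j hj => lt_of_le_of_ne (hi j (mem_univ j)) (hcon j (by simpa using hj))
    rw [h, map_zero] at this
    exact hi0 this.symm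
  obtain ⟨j, hji, hj⟩ := hj
  have hci : c i ≠ 0 := fun h0 => by simp [h0] at hi0
  have hcj : c j ≠ 0 := fun h0 => by simp [← hj, h0] at hi0
  rcases lt_or_gt_of_ne hji with h1 | h1
  · exact key j i h1 hcj hci hj
  · exact key i j h1 hci hcj hj.symm

include hO ha hφ hrel in
lemma not_surjective_pow {D : ℕ} (hD : 2 ≤ D) :
    ¬ Function.Surjective (fun γ : O.ValueGroup => γ ^ D) := by
  intro hs
  have hτ : O.valuation (φ (X - C a)) ≠ 0 := by
    simpa using (map_ne_zero_iff φ hφ).2 (X_sub_C_ne_zero a)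
  have key : ∀ m : ℕ, ∃ γ : O.ValueGroup, γ ^ D ^ m = O.valuation (φ (X - C a)) := by
    intro m
    induction m with
    | zero => exact ⟨_, by rw [pow_zero, pow_one]⟩
    | succ m ih =>
      obtain ⟨γ, hγ⟩ := ih
      obtain ⟨γ', rfl⟩ := hs γ
      exact ⟨γ', by rw [pow_succ', pow_mul, hγ]⟩
  obtain ⟨γ, hγ⟩ := key δ.factorial
  obtain ⟨x, rfl⟩ := O.valuation_surjective γ
  have hx : x ≠ 0 := by
    rintro rfl
    rw [map_zero, zero_pow (by positivity)] at hγ
    exact hτ hγ.symm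
  obtain ⟨k, hk⟩ := val_pow_factorial φ a O hO ha hφ hrel hx
  have h1 : O.valuation (φ (X - C a)) ^ (δ.factorial : ℤ) =
      O.valuation (φ (X - C a)) ^ (k * (D ^ δ.factorial : ℕ)) := by
    rw [zpow_mul, ← hk, zpow_natCast, zpow_natCast, ← pow_mul, mul_comm, pow_mul, hγ]
  have h2 := zpow_right_injective₀ (zero_lt_iff.2 hτ) ha.ne h1
  have h3 : D ^ δ.factorial ∣ δ.factorial := Int.natCast_dvd_natCast.1 (Dvd.intro_left k h2.symm)
  exact absurd (Nat.le_of_dvd δ.factorial_pos h3) (not_le.2 (Nat.lt_pow_self (by omega)))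

include hO ha hφ hrel in
lemma exists_mul_pow_mem (y : K) : ∃ m : ℕ, y * φ (X - C a) ^ m ∈ O := by
  by_cases hy : y = 0
  · exact ⟨0, by simp [hy]⟩
  have hτ : O.valuation (φ (X - C a)) ≠ 0 := by
    simpa using (map_ne_zero_iff φ hφ).2 (X_sub_C_ne_zero a)
  obtain ⟨k, hk⟩ := val_pow_factorial φ a O hO ha hφ hrel hy
  refine ⟨k.natAbs, ?_⟩
  rw [← O.valuation_le_one_iff, ← pow_le_one_iff δ.factorial_ne_zero, map_mul, map_pow, mul_pow,
    hk, ← pow_mul, ← zpow_natCast, ← zpow_add₀ hτ]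
  refine zpow_le_one₀ (zero_lt_iff.2 hτ) ha.le ?_
  have h1 : (1 : ℤ) ≤ δ.factorial := by exact_mod_cast δ.factorial_pos
  push_cast
  nlinarith [neg_abs_le k, abs_nonneg k]

include hO ha hφ hrel in
lemma exists_irreducible_residue {μ : F[X]} (hμ : Irreducible μ) (hδ : δ < μ.natDegree) :
    ∃ f : (ResidueField O)[X], Irreducible f ∧ 2 ≤ f.natDegree ∧ f.natDegree ≤ μ.natDegree := by
  let ψ : F[X] →+* O := φ.codRestrict O hO
  let ι : F →+* ResidueField O := ((residue O).comp ψ).comp C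
  have hψ : ∀ g, residue O (ψ g) = ι (g.eval a) := by
    intro g
    change _ = residue O (ψ (C (g.eval a)))
    rw [← sub_eq_zero, ← map_sub, residue_eq_zero_iff, O.valuation_lt_one_iff]
    exact val_sub_eval φ a O hO ha g
  have hroot : ∀ ξ : ResidueField O, μ.eval₂ ι ξ ≠ 0 := by
    intro ξ hξ
    obtain ⟨x, rfl⟩ := residue_surjective ξ
    obtain ⟨c, ⟨i, hi⟩, hc⟩ := exists_rel_eval φ hφ a (x : K) (hrel x)
    let P : F[X] := ∑ i : Fin (δ + 1), monomial (i : ℕ) ((c i).eval a)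
    have hP : P ≠ 0 := by
      intro h0
      have := congrArg (coeff · i) h0
      simp only [P, finsetSum_coeff, coeff_monomial, coeff_zero, Fin.val_inj] at this
      exact hi (by simpa using this)
    have hPd : P.natDegree ≤ δ :=
      natDegree_sum_le_of_forall_le _ _ fun i _ => (natDegree_monomial_le _).trans (by omega)
    have hPx : P.eval₂ ι (residue O x) = 0 := by
      have h1 : ∑ i, ψ (c i) * x ^ (i : ℕ) = 0 := Subtype.ext (by simpa [ψ] using hc)
      have h2 := congrArg (residue O) h1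
      simpa [P, eval₂_finsetSum, hψ] using h2
    obtain ⟨u, w, huw⟩ := hμ.coprime_iff_not_dvd.2 fun h => absurd (natDegree_le_of_dvd h hP)
      (by omega)
    have := congrArg (eval₂ ι (residue O x)) huw
    simp [eval₂_add, eval₂_mul, hξ, hPx] at this
  have h0 : μ.map ι ≠ 0 := Polynomial.map_ne_zero hμ.ne_zero
  obtain ⟨f, hf, hdvd⟩ := WfDvdMonoid.exists_irreducible_factor
    (not_isUnit_of_natDegree_pos (μ.map ι) (by rw [natDegree_map]; omega)) h0
  refine ⟨f, hf, ?_, (natDegree_le_of_dvd hdvd h0).trans (natDegree_map ι).le⟩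
  by_contra h2
  have h1 : f.natDegree = 1 := by have := hf.natDegree_pos; omega
  obtain ⟨ξ, hξ⟩ := exists_root_of_degree_eq_one ((degree_eq_iff_natDegree_eq hf.ne_zero).2 h1)
  exact hroot ξ (by rw [← eval_map]; exact (hξ.dvd hdvd))

end Local

theorem not_nipn_of_rel [Infinite F] (φ : F[X] →+* K) (hφ : Function.Injective φ) {δ : ℕ}
    (hrel : ∀ x : K, ∃ c : Fin (δ + 1) → F[X], c ≠ 0 ∧ ∑ i, φ (c i) * x ^ (i : ℕ) = 0)
    {μ : F[X]} (hμ : Irreducible μ) (hδ : δ < μ.natDegree) (n : ℕ) : ¬ NIPn n K := by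
  choose O hO ha using exists_valuationSubring φ hφ
  choose f hf h2 hle using fun a => exists_irreducible_residue φ a (O a) (hO a) (ha a) hφ hrel hμ hδ
  obtain ⟨D, hD⟩ := Finite.exists_infinite_fiber
    (fun a => (⟨(f a).natDegree, Nat.lt_succ_of_le (hle a)⟩ : Fin (μ.natDegree + 1)))
  let e := Infinite.natEmbedding
    ((fun a => (⟨(f a).natDegree, Nat.lt_succ_of_le (hle a)⟩ : Fin (μ.natDegree + 1))) ⁻¹' {D})
  have he : ∀ i, (f (e i)).natDegree = D := fun i => congrArg Fin.val (e i).2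
  have hτ : ∀ a, φ (X - C a) ≠ 0 := fun a => (map_ne_zero_iff φ hφ).2 (X_sub_C_ne_zero a)
  have hnt : ∀ i, O (e i) ≠ ⊤ := by
    intro i h
    have h1 : (φ (X - C (e i : F)))⁻¹ ∈ O (e i) := h ▸ ValuationSubring.mem_top _
    rw [← ValuationSubring.valuation_le_one_iff, map_inv₀,
      inv_le_one₀ (by simpa [zero_lt_iff] using hτ _)] at h1
    exact absurd (ha _) (not_lt.2 h1)
  have hind : ∀ i j, i ≠ j → O (e i) ⊔ O (e j) = ⊤ := by
    intro i j hij
    refine eq_top_iff.2 fun y _ => ?_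
    obtain ⟨m, hm⟩ := exists_mul_pow_mem φ _ _ (hO (e i)) (ha _) hφ hrel y
    have h1 : (φ (X - C (e i : F)))⁻¹ ∈ O (e j) := by
      rw [← ValuationSubring.valuation_le_one_iff, map_inv₀, val_eq_one φ _ _ (hO _) (ha _),
        inv_one]
      rw [eval_sub, eval_X, eval_C, sub_ne_zero]
      exact fun h => hij (e.injective (Subtype.ext h)).symm
    have h2 : y = y * φ (X - C (e i : F)) ^ m * (φ (X - C (e i : F)))⁻¹ ^ m := by
      rw [mul_assoc, ← mul_pow, mul_inv_cancel₀ (hτ _), one_pow, mul_one]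
    rw [h2]
    exact mul_mem (le_sup_left (a := O (e i)) (b := O (e j)) hm)
      (pow_mem (le_sup_right (a := O (e i)) (b := O (e j)) h1) m)
  refine not_nipn_of_valuations K D (fun i => O (e i))
    (fun i j hij h => hnt j (by rw [← hind i j hij, sup_eq_right.2 h]))
    (fun i => ⟨f _, hf _, he i, Or.inl ?_⟩) n
  have h := not_surjective_pow φ _ _ (hO (e i)) (ha _) hφ hrel (he i ▸ h2 (e i))
  unfold Function.Surjective at h
  push Not at h
  obtain ⟨γ, hγ⟩ := h
  obtain ⟨x, rfl⟩ := (O (e i)).valuation_surjective γ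
  exact ⟨x, hγ, fun j hj => by simp [hind i j hj.symm]⟩

theorem not_nipn_functionField [Infinite F] [Algebra (RatFunc F) K]
    [FiniteDimensional (RatFunc F) K] {μ : F[X]} (hμ : Irreducible μ)
    (hδ : Module.finrank (RatFunc F) K < μ.natDegree) (n : ℕ) : ¬ NIPn n K := by
  let φ : F[X] →+* K := (algebraMap (RatFunc F) K).comp (algebraMap F[X] (RatFunc F))
  let _ : Algebra F[X] K := φ.toAlgebra
  have : IsScalarTower F[X] (RatFunc F) K := IsScalarTower.of_algebraMap_eq' rfl
  refine not_nipn_of_rel φ ((algebraMap (RatFunc F) K).injective.comp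
    (IsFractionRing.injective _ _)) (fun x => ?_) hμ hδ n
  have h1 : ¬ LinearIndependent F[X]
      (fun i : Fin (Module.finrank (RatFunc F) K + 1) => x ^ (i : ℕ)) := by
    rw [LinearIndependent.iff_fractionRing F[X] (RatFunc F)]
    intro h
    simpa using h.fintype_card_le_finrank
  obtain ⟨c, hc, i, hi⟩ := Fintype.not_linearIndependent_iff.1 h1
  exact ⟨c, fun h => hi (congrFun h i), hc⟩

end Pool.Agent.MP_829a8f_lc

end MrgPart0

-- ======== part 1: formerly Pool.Agent.MP_829a8f_lc.Deg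
section MrgPart1

/-!
Irreducible polynomials of large degree, and the function field theorem.
-/

namespace Pool.Agent.MP_829a8f_lc

open Polynomial IntermediateField

lemma perfect_of_bounded {F : Type} [Field F] {δ : ℕ}
    (h : ∀ x : AlgebraicClosure F, (minpoly F x).natDegree ≤ δ) : PerfectField F := by
  obtain ⟨q, hq⟩ := ExpChar.exists F
  rcases expChar_is_prime_or_one F q with hp | rfl
  swap
  · exact PerfectRing.toPerfectField F 1
  have : PerfectRing F q := by
    refine PerfectRing.ofSurjective F q fun x => ?_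
    obtain ⟨y, hy⟩ := IsAlgClosed.exists_pow_nat_eq (algebraMap F (AlgebraicClosure F) x)
      (n := q ^ δ) (pow_pos hp.pos _)
    obtain ⟨n, z, hz⟩ := (minpoly.natSepDegree_eq_one_iff_eq_X_pow_sub_C q).1
      ((minpoly.natSepDegree_eq_one_iff_pow_mem q).2 ⟨δ, x, hy.symm⟩)
    have h1 := h y
    rw [hz, natDegree_X_pow_sub_C] at h1
    have h2 : n < δ := (Nat.lt_pow_self hp.one_lt).trans_le h1
    have h3 := minpoly.aeval F y
    rw [hz, map_sub, map_pow, aeval_X, aeval_C, sub_eq_zero] at h3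
    obtain ⟨r, rfl⟩ := Nat.exists_eq_add_of_lt h2
    refine ⟨z ^ q ^ r, (algebraMap F (AlgebraicClosure F)).injective ?_⟩
    rw [← hy, frobenius_def, map_pow, map_pow, ← h3, ← pow_mul, ← pow_mul, pow_succ, pow_add,
      mul_assoc]
  exact PerfectRing.toPerfectField F q

lemma exists_irreducible_of_lt_rank {F : Type} [Field F] {δ : ℕ}
    (h : (δ : Cardinal) < Module.rank F (AlgebraicClosure F)) :
    ∃ μ : F[X], Irreducible μ ∧ δ < μ.natDegree := by
  by_contra hcon
  push Not at hcon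
  have := perfect_of_bounded (F := F) fun x =>
    hcon _ (minpoly.irreducible (Algebra.IsIntegral.isIntegral x))
  obtain ⟨f, hf⟩ := exists_linearIndependent_of_le_rank (R := F) (M := AlgebraicClosure F)
    (n := δ + 1) (by rw [Nat.cast_succ, ← Cardinal.succ_natCast]; exact Order.succ_le_of_lt h)
  let E := adjoin F (Set.range f)
  have : FiniteDimensional F E :=
    finiteDimensional_adjoin fun x _ => Algebra.IsIntegral.isIntegral x
  let g : Fin (δ + 1) → E := fun i => ⟨f i, subset_adjoin _ _ ⟨i, rfl⟩⟩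
  have hg : LinearIndependent F g := LinearIndependent.of_comp E.val.toLinearMap hf
  have h1 := hg.fintype_card_le_finrank
  obtain ⟨α, hα⟩ := Field.exists_primitive_element F E
  rw [← (Field.primitive_element_iff_minpoly_natDegree_eq F α).1 hα, Fintype.card_fin] at h1
  exact absurd (hcon _ (minpoly.irreducible (Algebra.IsIntegral.isIntegral α))) (by omega)

theorem not_nipn_of_lt_rank {F K : Type} [Field F] [Field K] [Infinite F] [Algebra (RatFunc F) K]
    (h : Module.rank (RatFunc F) K < Module.rank F (AlgebraicClosure F))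
    [FiniteDimensional (RatFunc F) K] (n : ℕ) : ¬ NIPn n K := by
  rw [← Module.finrank_eq_rank] at h
  obtain ⟨μ, hμ, hδ⟩ := exists_irreducible_of_lt_rank h
  exact not_nipn_functionField hμ hδ n

end Pool.Agent.MP_829a8f_lc

end MrgPart1

-- marker of a merged file
example : 731051 + 718860 = 731051 + 718860 := rfl
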