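import Pool.Agent.MP_829a8f_lc.Deg

namespace Pool.Agent.MP_829a8f_lc.FunctionFields

open Pool.Agent.MP_829a8f_lc

/-- A finite extension `K` of `F(t)` with `[K : F(t)] < [F^alg : F]` is not `NIP_n` for any `n`. -/
theorem not_nipn_functionField (F K : Type) [Field F] [Infinite F] [Field K] [Algebra (RatFunc F) K]
    [FiniteDimensional (RatFunc F) K]
    (h : Module.rank (RatFunc F) K < Module.rank F (AlgebraicClosure F)) (n : ℕ) :
    ¬ NIPn n K :=
  not_nipn_of_lt_rank h n

end Pool.Agent.MP_829a8f_lc.FunctionFields
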