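import Mathlib
import Pool.Agent.MP_829a8f_lc.Val

namespace Pool.Agent.MP_829a8f_lc.ManyValuations

open Pool.Agent.MP_829a8f_lc

/-- A field with infinitely many pairwise incomparable valuation rings, each with an unramified
norm obstruction in one fixed degree `D`, is not `NIP_n` for any `n`. -/
theorem many_valuations (K : Type) [Field K] (D : ℕ) (O : ℕ → ValuationSubring K)
    (hinc : Pairwise fun i j => ¬ O i ≤ O j)
    (hO : ∀ i, ∃ f : Polynomial (IsLocalRing.ResidueField (O i)),
      Irreducible f ∧ f.natDegree = D ∧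
      ((∃ x : K, (∀ γ : (O i).ValueGroup, γ ^ D ≠ (O i).valuation x) ∧
          ∀ j, j ≠ i → x ∈ O i ⊔ O j ∧ x⁻¹ ∈ O i ⊔ O j) ∨
        ¬ Function.Surjective (Algebra.norm (IsLocalRing.ResidueField (O i)) :
          AdjoinRoot f → IsLocalRing.ResidueField (O i))))
    (n : ℕ) : ¬ NIPn n K :=
  not_nipn_of_valuations K D O hinc hO n

end Pool.Agent.MP_829a8f_lc.ManyValuations
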