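import Mathlib.Analysis.Normed.Order.Lattice
import Mathlib.Analysis.Normed.Field.Basic
import Mathlib.Topology.Instances.Matrix
import Mathlib.Algebra.Order.Star.Real
import Pool.Agent.MP_829a8f_lc.Val

/-!
Infinitely many real places give the `n`-independence property.
-/

namespace Pool.Agent.MP_829a8f_lc

open Finset Polynomial IsLocalRing

variable {K : Type} [Field K]

section One

variable (O : ValuationSubring K) (σ : ResidueField O →+* ℝ)

lemma val_eq_one_of_ne {w : O} (h : σ (residue O w) ≠ 0) : O.valuation w = 1 :=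
  (O.valuation_eq_one_iff w).1 ((residue_ne_zero_iff_isUnit w).1 fun h0 => h (by simp [h0]))

lemma place_inv {w : O} (h : σ (residue O w) ≠ 0) :
    ∃ hw : (w : K)⁻¹ ∈ O, σ (residue O ⟨_, hw⟩) = (σ (residue O w))⁻¹ := by
  have h1 := val_eq_one_of_ne O σ h
  have h0 : (w : K) ≠ 0 := fun h0 => by simp [h0] at h1
  have hw : (w : K)⁻¹ ∈ O := by rw [← O.valuation_le_one_iff, map_inv₀, h1, inv_one]
  refine ⟨hw, eq_inv_of_mul_eq_one_right ?_⟩
  rw [← map_mul, ← map_mul, show w * ⟨_, hw⟩ = 1 from Subtype.ext (mul_inv_cancel₀ h0)]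
  simp

lemma place_sq_mem {x : K} (hx : x ∈ O) : ∃ h : (1 + x ^ 2)⁻¹ ∈ O,
    σ (residue O ⟨_, h⟩) = (1 + σ (residue O ⟨x, hx⟩) ^ 2)⁻¹ := by
  have h1 : σ (residue O (1 + ⟨x, hx⟩ ^ 2)) = 1 + σ (residue O ⟨x, hx⟩) ^ 2 := by
    rw [map_add, map_add, map_pow, map_pow, map_one, map_one]
  obtain ⟨hw, h2⟩ := place_inv O σ (w := 1 + ⟨x, hx⟩ ^ 2) (by rw [h1]; positivity)
  exact ⟨hw, h2.trans (by rw [h1])⟩

lemma place_sq_notMem {x : K} (hx : x ∉ O) : ∃ h : (1 + x ^ 2)⁻¹ ∈ O,
    σ (residue O ⟨_, h⟩) = 0 := by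
  rw [← O.valuation_le_one_iff, not_le] at hx
  have h1 : 1 < O.valuation (x ^ 2) := by
    rw [map_pow]
    exact one_lt_pow₀ hx two_ne_zero
  have h2 : O.valuation (1 + x ^ 2)⁻¹ < 1 := by
    rw [map_inv₀, O.valuation.map_add_eq_of_lt_right (by simpa using h1)]
    exact inv_lt_one_of_one_lt₀ h1
  refine ⟨(O.valuation_le_one_iff _).1 h2.le, ?_⟩
  rw [map_eq_zero, residue_eq_zero_iff, O.valuation_lt_one_iff]
  exact h2

include σ in
lemma place_sq (x : K) : (1 + x ^ 2)⁻¹ ∈ O := by
  by_cases hx : x ∈ O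
  · exact (place_sq_mem O σ hx).1
  · exact (place_sq_notMem O σ hx).1

/-- Squares times units with positive value. -/
def posSub : Subgroup Kˣ where
  carrier := {u | ∃ (c : K) (w : O), (u : K) = c ^ 2 * w ∧ 0 < σ (residue O w)}
  one_mem' := ⟨1, 1, by simp, by simp⟩
  mul_mem' := by
    rintro u u' ⟨c, w, h1, h2⟩ ⟨c', w', h1', h2'⟩
    refine ⟨c * c', w * w', ?_, by rw [map_mul, map_mul]; positivity⟩
    rw [Units.val_mul, h1, h1']
    push_cast
    ring
  inv_mem' := by
    rintro u ⟨c, w, h1, h2⟩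
    obtain ⟨hw, h3⟩ := place_inv O σ h2.ne'
    exact ⟨c⁻¹, ⟨_, hw⟩, by rw [Units.val_inv_eq_inv_val, h1, mul_inv, inv_pow],
      by rw [h3]; positivity⟩

lemma notMem_posSub {d : O} (hd : σ (residue O d) < 0) {u : Kˣ} (hu : (u : K) = d) :
    u ∉ posSub O σ := by
  rintro ⟨c, w, h1, h2⟩
  have h3 := congrArg O.valuation (hu.symm.trans h1)
  rw [map_mul, val_eq_one_of_ne O σ hd.ne, val_eq_one_of_ne O σ h2.ne', mul_one, map_pow, eq_comm,
    pow_eq_one_iff_left two_ne_zero] at h3
  have h4 : d = (⟨c, (O.valuation_le_one_iff c).1 h3.le⟩ : O) ^ 2 * w :=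
    Subtype.ext (hu.symm.trans h1)
  rw [h4, map_mul, map_mul, map_pow, map_pow] at hd
  exact absurd hd (not_lt.2 (by positivity))

lemma mem_posSub (y : Matrix (Fin 2) (Fin 2) O)
    (hy : (σ (residue O (y 0 0)) - σ (residue O (y 1 1))) ^ 2 +
      4 * (σ (residue O (y 0 1)) * σ (residue O (y 1 0))) < 0) (u : Kˣ)
    (hu : (u : K) ∈ Nm (y.map O.subtype)) : u ∈ posSub O σ := by
  obtain ⟨c, hc⟩ := (mem_Nm_iff _ _).1 hu
  have hc' : (u : K) = (c 0 + c 1 * y 0 0) * (c 0 + c 1 * y 1 1) - c 1 * y 0 1 * (c 1 * y 1 0) := by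
    rw [hc, Matrix.det_fin_two]
    simp [Fin.sum_univ_two]
  have hu0 := u.ne_zero
  rcases le_total (O.valuation (c 0)) (O.valuation (c 1)) with h | h
  · have h1 : c 1 ≠ 0 := by
      intro h1
      have : c 0 = 0 := by simpa [h1] using h
      simp [h1, this] at hc'
    let t : O := ⟨c 0 / c 1, by
      rw [← O.valuation_le_one_iff, map_div₀]
      exact div_le_one_of_le₀ h zero_le⟩
    refine ⟨c 1, (t + y 0 0) * (t + y 1 1) - y 0 1 * y 1 0, ?_, ?_⟩
    · rw [hc']
      simp only [t]
      push_cast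
      field_simp
    · simp only [map_sub, map_mul, map_add]
      nlinarith [sq_nonneg (2 * σ (residue O t) + σ (residue O (y 0 0)) + σ (residue O (y 1 1)))]
  · have h1 : c 0 ≠ 0 := by
      intro h1
      have : c 1 = 0 := by simpa [h1] using h
      simp [h1, this] at hc'
    let t : O := ⟨c 1 / c 0, by
      rw [← O.valuation_le_one_iff, map_div₀]
      exact div_le_one_of_le₀ h zero_le⟩
    refine ⟨c 0, (1 + t * y 0 0) * (1 + t * y 1 1) - t * y 0 1 * (t * y 1 0), ?_, ?_⟩
    · rw [hc']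
      simp only [t]
      push_cast
      field_simp
    · simp only [map_sub, map_mul, map_add, map_one]
      by_cases ht : σ (residue O t) = 0
      · simp [ht]
      · nlinarith [sq_nonneg (2 + σ (residue O t) * (σ (residue O (y 0 0)) + σ (residue O (y 1 1)))),
          mul_pos (sq_pos_of_ne_zero ht) (neg_pos.2 hy)]

end One

/-- Distinct ring homomorphisms to `ℝ` have dense joint image. -/
lemma denseRange_homs {R J : Type} [CommRing R] [Fintype J] (θ : J → R →+* ℝ)
    (hQ : ∀ q : ℚ, ∃ x, ∀ j, θ j x = q) (hsep : Pairwise fun i j => ∃ x, θ i x ≠ θ j x) :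
    DenseRange (fun x j => θ j x) := by
  classical
  let S : Subring (J → ℝ) := (RingHom.pi θ).range.topologicalClosure
  have h1 : ∀ x, (fun j => θ j x) ∈ S := fun x =>
    (RingHom.pi θ).range.le_topologicalClosure ⟨x, rfl⟩
  have h2 : ∀ r : ℝ, (fun _ => r) ∈ S := by
    intro r
    refine Rat.denseRange_cast.induction_on r (IsClosed.preimage (f := fun r : ℝ => fun _ : J => r)
      (by fun_prop) (Subring.isClosed_topologicalClosure _)) fun q => ?_
    obtain ⟨x, hx⟩ := hQ q
    simpa [hx] using h1 x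
  have key : ∀ i j, ∃ e ∈ S, i ≠ j → e i = 1 ∧ e j = 0 := by
    intro i j
    by_cases hij : i = j
    · exact ⟨0, zero_mem _, fun h => absurd hij h⟩
    obtain ⟨x, hx⟩ := hsep hij
    refine ⟨_, mul_mem (sub_mem (h1 x) (h2 (θ j x))) (h2 (θ i x - θ j x)⁻¹), fun _ => ⟨?_, ?_⟩⟩
    · exact mul_inv_cancel₀ (sub_ne_zero.2 hx)
    · simp
  choose e he he' using key
  intro f
  have h3 : f = ∑ i, (fun _ => f i) * ∏ j ∈ univ.erase i, e i j := by
    funext l
    rw [Finset.sum_apply, sum_eq_single l]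
    · rw [Pi.mul_apply, Finset.prod_apply, prod_eq_one, mul_one]
      exact fun j hj => (he' l j (ne_of_mem_erase hj).symm).1
    · intro i _ hi
      rw [Pi.mul_apply, Finset.prod_apply,
        prod_eq_zero (f := fun c => e i c l) (mem_erase.2 ⟨hi.symm, mem_univ l⟩) (he' i l hi).2,
        mul_zero]
    · simp
  have h4 : f ∈ S := h3 ▸ sum_mem fun i _ => mul_mem (h2 _) (prod_mem fun j _ => he i j)
  exact h4

/-- Real places. -/
abbrev RPlace (K : Type) [Field K] := Σ O : ValuationSubring K, (ResidueField O →+* ℝ)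

section Many

variable {J : Type} (P : J → RPlace K)

/-- The elements that are finite at all given places. -/
def finRing : Subring K := ⨅ j, (P j).1.toSubring

lemma mem_finRing {x : K} : x ∈ finRing P ↔ ∀ j, x ∈ (P j).1 := by
  simp [finRing, Subring.mem_iInf]

/-- The inclusion in one of the valuation rings. -/
def finIncl (j : J) : finRing P →+* (P j).1 := Subring.inclusion (iInf_le _ j)

/-- The value at a place. -/
noncomputable def finVal (j : J) : finRing P →+* ℝ :=
  ((P j).2.comp (residue (P j).1)).comp (finIncl P j)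

lemma finVal_rat (q : ℚ) : ∃ x, ∀ j, finVal P j x = q := by
  have key : ∀ j, ∃ hw : ((q.den : (P j).1) : K)⁻¹ ∈ (P j).1,
      (P j).2 (residue _ ⟨_, hw⟩) = ((P j).2 (residue _ (q.den : (P j).1)))⁻¹ :=
    fun j => place_inv _ _ (by simp)
  refine ⟨(q.num : finRing P) * ⟨(q.den : K)⁻¹, (mem_finRing P).2 fun j => by
    simpa using (key j).1⟩, fun j => ?_⟩
  obtain ⟨hw, h⟩ := key j
  rw [map_mul, map_intCast, Rat.cast_def, div_eq_mul_inv]
  congr 1
  simp only [map_natCast] at h
  rw [← h]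
  change (P j).2 (residue _ _) = (P j).2 (residue _ _)
  congr 2

lemma finVal_sep (hP : Function.Injective P) :
    Pairwise fun i j => ∃ x, finVal P i x ≠ finVal P j x := by
  let y : K → finRing P := fun x =>
    ⟨(1 + x ^ 2)⁻¹, (mem_finRing P).2 fun j => place_sq _ (P j).2 x⟩
  have h1 : ∀ j x (hx : x ∈ (P j).1),
      finVal P j (y x) = (1 + (P j).2 (residue _ ⟨x, hx⟩) ^ 2)⁻¹ :=
    fun j x hx => (place_sq_mem _ _ hx).2
  have h2 : ∀ j x, x ∉ (P j).1 → finVal P j (y x) = 0 :=
    fun j x hx => (place_sq_notMem _ (P j).2 hx).2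
  intro i j hij
  by_contra hcon
  push Not at hcon
  have h3 : (P i).1 = (P j).1 := by
    ext x
    constructor
    · intro hx
      by_contra hx'
      have := hcon (y x)
      rw [h1 i x hx, h2 j x hx'] at this
      exact absurd this (by positivity)
    · intro hx
      by_contra hx'
      have := hcon (y x)
      rw [h1 j x hx, h2 i x hx'] at this
      exact absurd this.symm (by positivity)
  have h4 : ∀ x (hi : x ∈ (P i).1) (hj : x ∈ (P j).1),
      (P i).2 (residue _ ⟨x, hi⟩) ^ 2 = (P j).2 (residue _ ⟨x, hj⟩) ^ 2 := by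
    intro x hi hj
    have := hcon (y x)
    rwa [h1 i x hi, h1 j x hj, inv_inj, add_right_inj] at this
  apply hij
  apply hP
  revert h3 h4
  rcases P i with ⟨O, σ⟩
  rcases P j with ⟨O', σ'⟩
  rintro (rfl : O = O') h4
  congr 1
  ext ξ
  obtain ⟨x, rfl⟩ := residue_surjective ξ
  have h5 : σ (residue O x) ^ 2 = σ' (residue O x) ^ 2 := h4 x x.2 x.2
  have h6 : σ (residue O (x - 1)) ^ 2 = σ' (residue O (x - 1)) ^ 2 := h4 _ (x - 1).2 (x - 1).2
  simp only [map_sub, map_one] at h6
  linarith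

end Many

theorem not_nipn_of_places [Infinite (RPlace K)] (n : ℕ) : ¬ NIPn n K := by
  classical
  refine not_nipn_of_pattern n 2 fun N => ?_
  obtain ⟨ι, hι⟩ := Countable.exists_injective_nat (Fin n → Fin N)
  let P : (Fin n → Fin N) → RPlace K := fun j => Infinite.natEmbedding _ (ι j)
  have hP : Function.Injective P := (Infinite.natEmbedding _).injective.comp hι
  have hd := denseRange_homs (finVal P) (finVal_rat P) (finVal_sep P hP)
  have hd' : DenseRange (Pi.map fun (_ : (Fin n × Fin N) × Fin 2 × Fin 2) (x : finRing P) j =>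
    finVal P j x) := DenseRange.piMap fun _ => hd
  let Z : ((Fin n × Fin N) × Fin 2 × Fin 2 → (Fin n → Fin N) → ℝ) → (Fin n → Fin N) →
      Fin n × Fin N → Matrix (Fin 2) (Fin 2) ℝ := fun x j b =>
    if b.2 = j b.1 then Matrix.single 0 0 1 else Matrix.of fun r c => x (b, r, c) j
  let U : Set ((Fin n × Fin N) × Fin 2 × Fin 2 → (Fin n → Fin N) → ℝ) :=
    ⋂ j, ({x | (tens (Z x j) (-2)).det < 0} ∩ ⋂ k, {x | (x ((k, j k), 0, 0) j - x ((k, j k), 1, 1) j) ^ 2 +
      4 * (x ((k, j k), 0, 1) j * x ((k, j k), 1, 0) j) < 0})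
  have hU : IsOpen U := by
    refine isOpen_iInter_of_finite fun j => IsOpen.inter (isOpen_lt ?_ continuous_const)
      (isOpen_iInter_of_finite fun k => isOpen_lt (by fun_prop) continuous_const)
    refine Continuous.matrix_det (continuous_matrix fun r c => continuous_const.add
      (continuous_const.mul (continuous_finsetProd _ fun b _ => ?_)))
    by_cases hb : b.2 = j b.1
    · simpa [Z, hb] using continuous_const
    · simp only [Z, hb, if_false, Matrix.of_apply]
      fun_prop
  have hne : U.Nonempty := by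
    refine ⟨fun p j => (if p.1.2 = j p.1.1 then !![0, -1; 1, 0] else Matrix.single 0 0 1 :
      Matrix (Fin 2) (Fin 2) ℝ) p.2.1 p.2.2, Set.mem_iInter.2 fun j => ⟨?_, Set.mem_iInter.2
        fun k => by simp⟩⟩
    have : Z (fun p j => (if p.1.2 = j p.1.1 then !![0, -1; 1, 0] else Matrix.single 0 0 1 :
        Matrix (Fin 2) (Fin 2) ℝ) p.2.1 p.2.2) j = fun _ => Matrix.single 0 0 1 := by
      funext b
      by_cases hb : b.2 = j b.1
      · simp [Z, hb]
      · ext r c
        simp [Z, hb]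
    rw [Set.mem_ofPred_eq, this, det_tens_single]
    norm_num
  obtain ⟨y, hy⟩ := hd'.exists_mem_open hU hne
  rw [Set.mem_iInter] at hy
  let W : (Fin n → Fin N) → Fin n × Fin N → Matrix (Fin 2) (Fin 2) (finRing P) := fun j b =>
    if b.2 = j b.1 then Matrix.single 0 0 1 else Matrix.of fun r c => y (b, r, c)
  have hneg : ∀ j, finVal P j (tens (W j) (-2)).det < 0 := by
    intro j
    have h : (tens (Z (Pi.map (fun _ x j => finVal P j x) y) j) (-2)).det < 0 := (hy j).1
    rw [map_det_tens]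
    convert h using 3
    · funext b
      by_cases hb : b.2 = j b.1
      · simp [W, Z, hb, Matrix.map_single]
      · ext r c
        simp [W, Z, hb]
    · simp [map_ofNat]
  have hd0 : ∀ j, (((tens (W j) (-2)).det : finRing P) : K) ≠ 0 := by
    intro j h0
    have := hneg j
    rw [show (tens (W j) (-2)).det = 0 from Subtype.ext h0, map_zero] at this
    exact lt_irrefl _ this
  refine ⟨fun k t => Matrix.of fun r c => y ((k, t), r, c), fun j => Units.mk0 _ (hd0 j),
    fun j => posSub (P j).1 (P j).2, fun j k t ht => ?_, fun j k u hu => ?_,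
    fun j => notMem_posSub _ _ (d := finIncl P j (tens (W j) (-2)).det) (hneg j) rfl⟩
  · have h := det_tens_mem (fun b => (W j b).map (finRing P).subtype) ((finRing P).subtype (-2))
      (k, t)
    rw [← map_det_tens] at h
    have e : (W j (k, t)).map (finRing P).subtype =
        Matrix.of fun r c => (y ((k, t), r, c) : K) := by
      ext r c
      simp [W, ht]
    rw [e] at h
    exact h
  · exact mem_posSub _ _ (Matrix.of fun r c => finIncl P j (y ((k, j k), r, c)))
      (Set.mem_iInter.1 (hy j).2 k) u hu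

end Pool.Agent.MP_829a8f_lc
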