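import Pool.Agent.MP_829a8f_lc.Real

namespace Pool.Agent.MP_829a8f_lc.RealPlaces

open Pool.Agent.MP_829a8f_lc

/-- A `NIP_n` field has only finitely many real places. -/
theorem finite_real_places (K : Type) [Field K] (n : ℕ) (h : NIPn n K) :
    Finite (Σ O : ValuationSubring K, (IsLocalRing.ResidueField O →+* ℝ)) :=
  not_infinite_iff_finite.1 fun _ => not_nipn_of_places n h

end Pool.Agent.MP_829a8f_lc.RealPlaces
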